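import Mathlib

/-!
# Distance to a linear space of vector fields in `L^p`, `0 < p ≤ 1`, and its envelope

`Y` is a linear space of measurable functions `X → W`.  `Dp H` is the infimum over `F ∈ Y` of
`∫ ‖H - F‖^p`, and `Phi v` is the supremum of `Dp (v 1_A) / μ A` over all measurable sets `A` of
finite nonzero measure.
-/

set_option autoImplicit false
set_option linter.unusedSectionVars false
open MeasureTheory Filter Topology
open scoped ENNReal NNReal

namespace Pool.Agent.Helper826_Riesz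

section Envelope

variable {X : Type*} [MeasurableSpace X] (μ : Measure X)
variable {W : Type*} [NormedAddCommGroup W] [NormedSpace ℂ W] [MeasurableSpace W] [BorelSpace W]
  [SecondCountableTopology W]
variable (Y : Submodule ℂ (X → W)) (p : ℝ)

/-- The integral of the `p`-th power of the norm. -/
noncomputable def Np (H : X → W) : ℝ≥0∞ := ∫⁻ x, ‖H x‖ₑ ^ p ∂μ

/-- The `L^p` distance (to the power `p`) to the linear space `Y`. -/
noncomputable def Dp (H : X → W) : ℝ≥0∞ := ⨅ F ∈ Y, Np μ p (H - F)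

/-- The envelope. -/
noncomputable def Phi (v : W) : ℝ≥0∞ :=
  ⨆ (A : Set X) (_ : MeasurableSet A) (_ : μ A ≠ 0) (_ : μ A ≠ ∞),
    Dp μ Y p (A.indicator fun _ => v) / μ A

variable {μ Y p}

theorem Np_add_le (hp0 : 0 ≤ p) (hp1 : p ≤ 1) {H₁ H₂ : X → W} (h₁ : Measurable H₁) :
    Np μ p (H₁ + H₂) ≤ Np μ p H₁ + Np μ p H₂ := by
  unfold Np
  rw [← lintegral_add_left (by fun_prop)]
  refine lintegral_mono fun x => ?_
  exact (ENNReal.rpow_le_rpow (enorm_add_le _ _) hp0).trans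
    (ENNReal.rpow_add_le_add_rpow _ _ hp0 hp1)

theorem Np_smul (hp0 : 0 ≤ p) (c : ℂ) (H : X → W) :
    Np μ p (c • H) = ‖c‖ₑ ^ p * Np μ p H := by
  unfold Np
  have hc : ‖c‖ₑ ^ p ≠ ∞ := ENNReal.rpow_ne_top_of_nonneg hp0 (by simp)
  rw [← lintegral_const_mul' _ _ hc]
  refine lintegral_congr fun x => ?_
  simp only [Pi.smul_apply, enorm_smul]
  rw [ENNReal.mul_rpow_of_nonneg _ _ hp0]

theorem Dp_le_Np_sub {H F : X → W} (hF : F ∈ Y) : Dp μ Y p H ≤ Np μ p (H - F) :=
  iInf₂_le F hF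

theorem Dp_le_Np (H : X → W) : Dp μ Y p H ≤ Np μ p H := by
  have := Dp_le_Np_sub (μ := μ) (p := p) (H := H) (Submodule.zero_mem Y)
  simpa using this

theorem Dp_add_le (hp0 : 0 ≤ p) (hp1 : p ≤ 1) (hY : ∀ F ∈ Y, Measurable F) {H₁ H₂ : X → W}
    (h₁ : Measurable H₁) :
    Dp μ Y p (H₁ + H₂) ≤ Dp μ Y p H₁ + Dp μ Y p H₂ := by
  have key : ∀ F₁ ∈ Y, ∀ F₂ ∈ Y, Dp μ Y p (H₁ + H₂) ≤ Np μ p (H₁ - F₁) + Np μ p (H₂ - F₂) := by
    intro F₁ hF₁ F₂ hF₂
    have h := Dp_le_Np_sub (μ := μ) (p := p) (H := H₁ + H₂) (Submodule.add_mem Y hF₁ hF₂)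
    have e : H₁ + H₂ - (F₁ + F₂) = (H₁ - F₁) + (H₂ - F₂) := by abel
    rw [e] at h
    exact h.trans (Np_add_le hp0 hp1 (h₁.sub (hY F₁ hF₁)))
  unfold Dp at key ⊢
  simp only [ENNReal.iInf_add, ENNReal.add_iInf]
  refine le_iInf₂ fun F₂ hF₂ => le_iInf₂ fun F₁ hF₁ => ?_
  exact key _ (by assumption) _ (by assumption)

theorem Dp_smul_le (hp0 : 0 < p) (c : ℂ) (H : X → W) :
    Dp μ Y p (c • H) ≤ ‖c‖ₑ ^ p * Dp μ Y p H := by
  rcases eq_or_ne c 0 with rfl | hc
  · refine (Dp_le_Np _).trans ?_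
    rw [Np_smul hp0.le]
    simp [ENNReal.zero_rpow_of_pos hp0]
  have hc' : ‖c‖ₑ ^ p ≠ 0 := by
    simp [hc]
  have hc'' : ‖c‖ₑ ^ p ≠ ∞ := ENNReal.rpow_ne_top_of_nonneg hp0.le (by simp)
  unfold Dp
  rw [ENNReal.mul_iInf_of_ne hc' hc'']
  refine le_iInf fun F => ?_
  rw [ENNReal.mul_iInf_of_ne hc' hc'']
  refine le_iInf fun hF => ?_
  refine (iInf₂_le (c • F) (Submodule.smul_mem Y c hF)).trans ?_
  rw [← smul_sub, Np_smul hp0.le]

theorem Dp_neg_le (hp0 : 0 < p) (H : X → W) : Dp μ Y p (-H) ≤ Dp μ Y p H := by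
  have := Dp_smul_le (μ := μ) (Y := Y) hp0 (-1) H
  simpa using this

theorem Dp_zero (hp0 : 0 < p) : Dp μ Y p (0 : X → W) = 0 := by
  refine le_antisymm ((Dp_le_Np _).trans ?_) bot_le
  simp [Np, ENNReal.zero_rpow_of_pos hp0]

theorem Dp_sum_le (hp0 : 0 < p) (hp1 : p ≤ 1) (hY : ∀ F ∈ Y, Measurable F) {ι : Type*}
    (s : Finset ι) (H : ι → X → W) (hH : ∀ i ∈ s, Measurable (H i)) :
    Dp μ Y p (∑ i ∈ s, H i) ≤ ∑ i ∈ s, Dp μ Y p (H i) := by
  classical
  induction s using Finset.induction_on with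
  | empty => simp [Dp_zero hp0]
  | insert a s ha ih =>
    rw [Finset.sum_insert ha, Finset.sum_insert ha]
    refine (Dp_add_le hp0.le hp1 hY (hH a (Finset.mem_insert_self a s))).trans ?_
    gcongr
    exact ih fun i hi => hH i (Finset.mem_insert_of_mem hi)

theorem Np_indicator_const (hp0 : 0 < p) {A : Set X} (hA : MeasurableSet A) (v : W) :
    Np μ p (A.indicator fun _ => v) = ‖v‖ₑ ^ p * μ A := by
  unfold Np
  have : (fun x => ‖A.indicator (fun _ => v) x‖ₑ ^ p) = A.indicator fun _ => ‖v‖ₑ ^ p := by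
    funext x
    by_cases hx : x ∈ A
    · simp [hx]
    · simp [hx, ENNReal.zero_rpow_of_pos hp0]
  rw [this, lintegral_indicator hA]
  simp

theorem Dp_indicator_le (hp0 : 0 < p) {A : Set X} (hA : MeasurableSet A) (hA' : μ A ≠ ∞) (v : W) :
    Dp μ Y p (A.indicator fun _ => v) ≤ Phi μ Y p v * μ A := by
  rcases eq_or_ne (μ A) 0 with h0 | h0
  · refine (Dp_le_Np _).trans ?_
    rw [Np_indicator_const hp0 hA, h0]
    simp
  · have : Dp μ Y p (A.indicator fun _ => v) / μ A ≤ Phi μ Y p v := by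
      unfold Phi
      exact le_iSup_of_le A (le_iSup_of_le hA (le_iSup_of_le h0 (le_iSup_of_le hA' le_rfl)))
    exact (ENNReal.div_le_iff h0 hA').1 this

theorem Phi_le_of {v : W} {c : ℝ≥0∞}
    (h : ∀ A : Set X, MeasurableSet A → μ A ≠ ∞ →
      Dp μ Y p (A.indicator fun _ => v) ≤ c * μ A) : Phi μ Y p v ≤ c := by
  unfold Phi
  refine iSup_le fun A => iSup_le fun hA => iSup_le fun h0 => iSup_le fun hA' => ?_
  exact (ENNReal.div_le_iff h0 hA').2 (h A hA hA')

theorem Phi_le (hp0 : 0 < p) (v : W) : Phi μ Y p v ≤ ‖v‖ₑ ^ p := by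
  refine Phi_le_of fun A hA _ => (Dp_le_Np _).trans ?_
  rw [Np_indicator_const hp0 hA]

theorem Phi_zero (hp0 : 0 < p) : Phi μ Y p (0 : W) = 0 := by
  refine le_antisymm ((Phi_le hp0 _).trans ?_) bot_le
  simp [ENNReal.zero_rpow_of_pos hp0]

theorem Phi_add_le (hp0 : 0 < p) (hp1 : p ≤ 1) (hY : ∀ F ∈ Y, Measurable F) (v w : W) :
    Phi μ Y p (v + w) ≤ Phi μ Y p v + Phi μ Y p w := by
  refine Phi_le_of fun A hA hA' => ?_
  have e : (A.indicator fun _ => v + w) = (A.indicator fun _ => v) + (A.indicator fun _ => w) := by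
    funext x
    by_cases hx : x ∈ A <;> simp [hx]
  rw [e, add_mul]
  refine (Dp_add_le hp0.le hp1 hY (measurable_const.indicator hA)).trans ?_
  gcongr
  · exact Dp_indicator_le hp0 hA hA' v
  · exact Dp_indicator_le hp0 hA hA' w

theorem Phi_smul_le (hp0 : 0 < p) (c : ℂ) (v : W) :
    Phi μ Y p (c • v) ≤ ‖c‖ₑ ^ p * Phi μ Y p v := by
  refine Phi_le_of fun A hA hA' => ?_
  have e : (A.indicator fun _ => c • v) = c • (A.indicator fun _ => v) := by
    funext x
    by_cases hx : x ∈ A <;> simp [hx]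
  rw [e, mul_assoc]
  refine (Dp_smul_le hp0 c _).trans ?_
  gcongr
  exact Dp_indicator_le hp0 hA hA' v

theorem Phi_le_add (hp0 : 0 < p) (hp1 : p ≤ 1) (hY : ∀ F ∈ Y, Measurable F) (v w : W) :
    Phi μ Y p v ≤ Phi μ Y p w + ‖v - w‖ₑ ^ p := by
  have e : v = w + (v - w) := by abel
  calc Phi μ Y p v = Phi μ Y p (w + (v - w)) := by rw [← e]
    _ ≤ Phi μ Y p w + Phi μ Y p (v - w) := Phi_add_le hp0 hp1 hY _ _
    _ ≤ _ := by gcongr; exact Phi_le hp0 _

theorem Dp_simpleFunc_le (hp0 : 0 < p) (hp1 : p ≤ 1) (hY : ∀ F ∈ Y, Measurable F)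
    (f : SimpleFunc X W) (hf : Np μ p f ≠ ∞) :
    Dp μ Y p f ≤ ∫⁻ x, Phi μ Y p (f x) ∂μ := by
  classical
  have e : (f : X → W) = ∑ v ∈ f.range, (f ⁻¹' {v}).indicator (fun _ => v) := by
    funext x
    rw [Finset.sum_apply, Finset.sum_eq_single (f x)]
    · simp
    · intro v _ hv
      rw [Set.indicator_of_notMem]
      intro h
      exact hv (by simpa using h.symm)
    · intro h
      exact absurd (SimpleFunc.mem_range_self f x) h
  have e2 : ∫⁻ x, Phi μ Y p (f x) ∂μ = ∑ v ∈ f.range, Phi μ Y p v * μ (f ⁻¹' {v}) := by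
    rw [← SimpleFunc.map_lintegral, ← SimpleFunc.lintegral_eq_lintegral]
    rfl
  rw [e2]
  conv_lhs => rw [e]
  refine (Dp_sum_le hp0 hp1 hY _ _
    fun v _ => measurable_const.indicator (f.measurableSet_fiber v)).trans ?_
  refine Finset.sum_le_sum fun v _ => ?_
  rcases eq_or_ne v 0 with rfl | hv
  · have : ((f ⁻¹' {(0 : W)}).indicator fun _ => (0 : W)) = (0 : X → W) := by
      funext x; simp
    rw [this, Dp_zero hp0]
    exact bot_le
  · refine Dp_indicator_le hp0 (f.measurableSet_fiber v) ?_ v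
    intro htop
    apply hf
    have h1 : Np μ p ((f ⁻¹' {v}).indicator fun _ => v) ≤ Np μ p f := by
      unfold Np
      refine lintegral_mono fun x => ?_
      refine ENNReal.rpow_le_rpow ?_ hp0.le
      by_cases hx : x ∈ f ⁻¹' {v}
      · simp only [Set.indicator_of_mem hx]
        have : f x = v := by simpa using hx
        rw [this]
      · simp [Set.indicator_of_notMem hx]
    rw [Np_indicator_const hp0 (f.measurableSet_fiber v), htop] at h1
    have h2 : ‖v‖ₑ ^ p ≠ 0 := by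
      simp [hv]
    rw [ENNReal.mul_top h2] at h1
    exact top_le_iff.1 h1

/-- The distance of a field is at most the integral of the envelope of its values. -/
theorem Dp_le_lintegral (hp0 : 0 < p) (hp1 : p ≤ 1) (hY : ∀ F ∈ Y, Measurable F)
    {K : X → W} (hK : Measurable K) (hKp : Np μ p K ≠ ∞) :
    Dp μ Y p K ≤ ∫⁻ x, Phi μ Y p (K x) ∂μ := by
  set Kn : ℕ → SimpleFunc X W :=
    fun n => SimpleFunc.approxOn K hK Set.univ 0 (Set.mem_univ _) n with hKn
  have hbound : ∀ n x, ‖Kn n x - K x‖ₑ ≤ ‖K x‖ₑ := by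
    intro n x
    have := SimpleFunc.edist_approxOn_le hK (Set.mem_univ (0 : W)) x n
    rw [edist_eq_enorm_sub, edist_comm, edist_zero_right] at this
    exact this
  have hlim : ∀ x, Tendsto (fun n => Kn n x) atTop (𝓝 (K x)) := by
    intro x
    exact SimpleFunc.tendsto_approxOn hK (Set.mem_univ _) (by simp)
  have hNp : Tendsto (fun n => Np μ p (fun x => Kn n x - K x)) atTop (𝓝 0) := by
    have h0 : (0 : ℝ≥0∞) = ∫⁻ _ : X, 0 ∂μ := by simp
    rw [h0]
    unfold Np
    refine tendsto_lintegral_of_dominated_convergence (fun x => ‖K x‖ₑ ^ p) ?_ ?_ hKp ?_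
    · intro n
      exact (((Kn n).measurable.sub hK).enorm).pow_const p
    · intro n
      exact Eventually.of_forall fun x => ENNReal.rpow_le_rpow (hbound n x) hp0.le
    · refine Eventually.of_forall fun x => ?_
      have h1 : Tendsto (fun n => ‖Kn n x - K x‖ₑ) atTop (𝓝 0) := by
        have h2 : Tendsto (fun n => Kn n x - K x) atTop (𝓝 0) := by
          have := (hlim x).sub_const (K x)
          simpa using this
        have := h2.enorm
        simpa using this
      have := (ENNReal.continuous_rpow_const (y := p)).tendsto 0 |>.comp h1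
      simpa [ENNReal.zero_rpow_of_pos hp0, Function.comp_def] using this
  have hmain : ∀ n, Dp μ Y p K ≤ ∫⁻ x, Phi μ Y p (K x) ∂μ +
      2 * Np μ p (fun x => Kn n x - K x) := by
    intro n
    have hfin : Np μ p (Kn n) ≠ ∞ := by
      have h1 : Np μ p (Kn n) ≤ Np μ p (fun x => Kn n x - K x) + Np μ p K := by
        have e : (Kn n : X → W) = (fun x => Kn n x - K x) + K := by
          funext x; simp
        conv_lhs => rw [e]
        exact Np_add_le hp0.le hp1 ((Kn n).measurable.sub hK)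
      have h2 : Np μ p (fun x => Kn n x - K x) ≤ Np μ p K :=
        lintegral_mono fun x => ENNReal.rpow_le_rpow (hbound n x) hp0.le
      refine ne_top_of_le_ne_top ?_ (h1.trans (add_le_add_left h2 _))
      exact ENNReal.add_ne_top.2 ⟨hKp, hKp⟩
    have e : K = (Kn n : X → W) + -(fun x => Kn n x - K x) := by
      funext x; simp
    have h1 : Dp μ Y p K ≤ Dp μ Y p (Kn n) + Np μ p (fun x => Kn n x - K x) := by
      calc Dp μ Y p K = Dp μ Y p ((Kn n : X → W) + -(fun x => Kn n x - K x)) := by rw [← e]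
        _ ≤ Dp μ Y p (Kn n) + Dp μ Y p (-(fun x => Kn n x - K x)) :=
          Dp_add_le hp0.le hp1 hY (Kn n).measurable
        _ ≤ Dp μ Y p (Kn n) + Dp μ Y p (fun x => Kn n x - K x) := by
          gcongr
          exact Dp_neg_le hp0 _
        _ ≤ _ := by
          gcongr
          exact Dp_le_Np _
    have h2 : ∫⁻ x, Phi μ Y p (Kn n x) ∂μ ≤
        ∫⁻ x, Phi μ Y p (K x) ∂μ + Np μ p (fun x => Kn n x - K x) := by
      have hm : Measurable (fun x => ‖Kn n x - K x‖ₑ ^ p) :=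
        (((Kn n).measurable.sub hK).enorm).pow_const p
      change _ ≤ _ + ∫⁻ x, ‖Kn n x - K x‖ₑ ^ p ∂μ
      rw [← lintegral_add_right _ hm]
      exact lintegral_mono fun x => Phi_le_add hp0 hp1 hY _ _
    calc Dp μ Y p K ≤ Dp μ Y p (Kn n) + Np μ p (fun x => Kn n x - K x) := h1
      _ ≤ ∫⁻ x, Phi μ Y p (Kn n x) ∂μ + Np μ p (fun x => Kn n x - K x) := by
        gcongr
        exact Dp_simpleFunc_le hp0 hp1 hY _ hfin
      _ ≤ (∫⁻ x, Phi μ Y p (K x) ∂μ + Np μ p (fun x => Kn n x - K x)) +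
          Np μ p (fun x => Kn n x - K x) := by gcongr
      _ = _ := by rw [two_mul, add_assoc]
  have hlim2 : Tendsto (fun n => ∫⁻ x, Phi μ Y p (K x) ∂μ +
      2 * Np μ p (fun x => Kn n x - K x)) atTop (𝓝 (∫⁻ x, Phi μ Y p (K x) ∂μ + 2 * 0)) := by
    refine Tendsto.const_add _ ?_
    exact ENNReal.Tendsto.const_mul hNp (Or.inr (by simp))
  rw [mul_zero, add_zero] at hlim2
  exact ge_of_tendsto' hlim2 hmain

/-- Sub-mean value property of the envelope along a sequence of fields which are asymptotically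
in the closure of `Y`, locally on sets of finite measure. -/
theorem Phi_le_of_null (hp0 : 0 < p) (hp1 : p ≤ 1) (hY : ∀ F ∈ Y, Measurable F)
    {G : ℕ → X → W} (hGm : ∀ N, Measurable (G N))
    (hG : ∀ A : Set X, MeasurableSet A → μ A ≠ ∞ →
      Tendsto (fun N => Dp μ Y p (A.indicator (G N))) atTop (𝓝 0))
    {v : W} {c : ℝ≥0∞}
    (hfin : ∀ A : Set X, MeasurableSet A → μ A ≠ ∞ → ∀ N,
      ∫⁻ x in A, ‖v + G N x‖ₑ ^ p ∂μ ≠ ∞)
    (hbound : ∀ A : Set X, MeasurableSet A → μ A ≠ ∞ → ∀ ε : ℝ≥0∞, ε ≠ 0 →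
      ∀ᶠ N in atTop, ∫⁻ x in A, Phi μ Y p (v + G N x) ∂μ ≤ c * μ A + ε) :
    Phi μ Y p v ≤ c := by
  refine Phi_le_of fun A hA hA' => ?_
  have key : ∀ ε : ℝ≥0∞, ε ≠ 0 → Dp μ Y p (A.indicator fun _ => v) ≤ (c * μ A + ε) + ε := by
    intro ε hε
    have h1 := hbound A hA hA' ε hε
    have h2 : ∀ᶠ N in atTop, Dp μ Y p (A.indicator (G N)) ≤ ε :=
      (hG A hA hA').eventually (ge_mem_nhds (pos_iff_ne_zero.2 hε))
    obtain ⟨N, hN1, hN2⟩ := (h1.and h2).exists
    have e : (A.indicator fun _ => v) =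
        A.indicator (fun x => v + G N x) + -(A.indicator (G N)) := by
      funext x
      by_cases hx : x ∈ A <;> simp [hx]
    have hm : Measurable (A.indicator (fun x => v + G N x)) :=
      (measurable_const.add (hGm N)).indicator hA
    have hnp : Np μ p (A.indicator (fun x => v + G N x)) = ∫⁻ x in A, ‖v + G N x‖ₑ ^ p ∂μ := by
      unfold Np
      rw [← lintegral_indicator hA]
      refine lintegral_congr fun x => ?_
      by_cases hx : x ∈ A <;> simp [hx, ENNReal.zero_rpow_of_pos hp0]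
    have hph : ∫⁻ x, Phi μ Y p (A.indicator (fun x => v + G N x) x) ∂μ =
        ∫⁻ x in A, Phi μ Y p (v + G N x) ∂μ := by
      rw [← lintegral_indicator hA]
      refine lintegral_congr fun x => ?_
      by_cases hx : x ∈ A <;> simp [hx, Phi_zero hp0]
    calc Dp μ Y p (A.indicator fun _ => v)
        = Dp μ Y p (A.indicator (fun x => v + G N x) + -(A.indicator (G N))) := by rw [← e]
      _ ≤ Dp μ Y p (A.indicator (fun x => v + G N x)) + Dp μ Y p (-(A.indicator (G N))) :=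
        Dp_add_le hp0.le hp1 hY hm
      _ ≤ Dp μ Y p (A.indicator (fun x => v + G N x)) + Dp μ Y p (A.indicator (G N)) := by
        gcongr
        exact Dp_neg_le hp0 _
      _ ≤ (c * μ A + ε) + ε := by
        gcongr
        refine (Dp_le_lintegral hp0 hp1 hY hm ?_).trans ?_
        · rw [hnp]
          exact hfin A hA hA' N
        · rw [hph]
          exact hN1
  have hlim : Tendsto (fun n : ℕ => (c * μ A + ((n : ℝ≥0∞) + 1)⁻¹) + ((n : ℝ≥0∞) + 1)⁻¹) atTop
      (𝓝 ((c * μ A + 0) + 0)) := by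
    have h : Tendsto (fun n : ℕ => ((n : ℝ≥0∞) + 1)⁻¹) atTop (𝓝 0) := by
      have := ENNReal.tendsto_inv_nat_nhds_zero
      have h2 := this.comp (tendsto_add_atTop_nat 1)
      refine h2.congr fun n => ?_
      simp [Function.comp]
    exact (h.const_add _).add h
  rw [add_zero, add_zero] at hlim
  refine ge_of_tendsto' hlim fun n => key _ ?_
  exact ENNReal.inv_ne_zero.2 (ENNReal.add_ne_top.2 ⟨ENNReal.natCast_ne_top n, ENNReal.one_ne_top⟩)

end Envelope

end Pool.Agent.Helper826_Riesz
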