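import Mathlib

/-!
# Mean values of functions of high-frequency plane waves over sets of finite measure
-/

set_option autoImplicit false
open MeasureTheory Complex Real Filter Topology
open scoped ENNReal NNReal FourierTransform

namespace Pool.Agent.Helper826_Riesz

/-- The plane. -/
abbrev E2 := EuclideanSpace ℝ (Fin 2)

/-- The plane wave `exp (2 π i ⟨k, x⟩)`. -/
noncomputable def ew (k x : E2) : ℂ := (𝐞 (inner ℝ k x) : ℂ)

theorem norm_ew (k x : E2) : ‖ew k x‖ = 1 := Circle.norm_coe _

theorem continuous_ew (k : E2) : Continuous (ew k) := by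
  unfold ew
  exact continuous_subtype_val.comp (Real.continuous_fourierChar.comp (by fun_prop))

theorem ew_pow (k x : E2) (j : ℕ) : ew k x ^ j = ew ((j : ℝ) • k) x := by
  unfold ew
  rw [inner_smul_left, ← Circle.coe_pow, ← AddChar.map_nsmul_eq_pow]
  simp

theorem ew_neg (k x : E2) : ew (-k) x = (starRingEnd ℂ) (ew k x) := by
  unfold ew
  rw [inner_neg_left, AddChar.map_neg_eq_inv, Circle.coe_inv_eq_conj]

theorem tendsto_natCast_smul_cocompact {κ : E2} (hκ : κ ≠ 0) :
    Tendsto (fun N : ℕ => -((N : ℝ) • κ)) atTop (cocompact E2) := by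
  rw [← Metric.cobounded_eq_cocompact, ← tendsto_norm_atTop_iff_cobounded]
  have : (fun N : ℕ => ‖-((N : ℝ) • κ)‖) = fun N : ℕ => (N : ℝ) * ‖κ‖ := by
    funext N
    rw [norm_neg, norm_smul]
    simp
  rw [this]
  exact Tendsto.atTop_mul_const (norm_pos_iff.2 hκ) tendsto_natCast_atTop_atTop

/-- Riemann–Lebesgue on a set of finite measure. -/
theorem tendsto_integral_ew {κ : E2} (hκ : κ ≠ 0) {A : Set E2} (hA : MeasurableSet A) :
    Tendsto (fun N : ℕ => ∫ x in A, ew ((N : ℝ) • κ) x) atTop (𝓝 0) := by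
  have h := (tendsto_integral_exp_inner_smul_cocompact
    (A.indicator (fun _ => (1 : ℂ)) : E2 → ℂ)).comp (tendsto_natCast_smul_cocompact hκ)
  refine h.congr fun N => ?_
  simp only [Function.comp]
  rw [← integral_indicator hA]
  refine integral_congr_ae (Eventually.of_forall fun x => ?_)
  by_cases hx : x ∈ A
  · simp [hx, ew, Circle.smul_def, real_inner_comm]
  · simp [hx]

/-- Mean value of an analytic function of a high-frequency plane wave. -/
theorem tendsto_integral_analytic {κ : E2} (hκ : κ ≠ 0) {A : Set E2} (hA : MeasurableSet A)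
    (hA' : volume A ≠ ∞) {u : ℂ → ℂ} {R : ℝ} (hR : 1 < R)
    (hu : DifferentiableOn ℂ u (Metric.ball 0 R)) :
    Tendsto (fun N : ℕ => ∫ x in A, u (ew ((N : ℝ) • κ) x)) atTop
      (𝓝 (u 0 * ((volume A).toReal : ℂ))) := by
  obtain ⟨r, hr1, hrR⟩ := exists_between hR
  have hr0 : 0 < r := by linarith
  lift r to ℝ≥0 using hr0.le
  have hps := (hu.mono (Metric.closedBall_subset_ball hrR)).hasFPowerSeriesOnBall
    (by exact_mod_cast hr0)
  set P := cauchyPowerSeries u 0 r with hP
  have hrad : ((1 : ℝ≥0) : ℝ≥0∞) < P.radius := by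
    refine lt_of_lt_of_le ?_ hps.r_le
    exact_mod_cast hr1
  have hsum : Summable fun n => ‖P.coeff n‖ := by
    have := P.summable_norm_mul_pow hrad
    simpa [FormalMultilinearSeries.norm_apply_eq_norm_coef] using this
  have hval : ∀ ζ : ℂ, ‖ζ‖ ≤ 1 → HasSum (fun n => P.coeff n * ζ ^ n) (u ζ) := by
    intro ζ hζ
    have hmem : ζ ∈ Metric.eball (0 : ℂ) r := by
      rw [Metric.mem_eball, edist_zero_right, enorm_eq_nnnorm]
      have : ‖ζ‖₊ < r := by
        rw [← NNReal.coe_lt_coe]
        simpa using lt_of_le_of_lt hζ hr1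
      exact_mod_cast this
    have := hps.hasSum hmem
    simpa [FormalMultilinearSeries.apply_eq_pow_smul_coeff, mul_comm] using this
  have hfin : IsFiniteMeasure (volume.restrict A) := ⟨by simpa using hA'.lt_top⟩
  have hint : ∀ (N n : ℕ), Integrable (fun x => P.coeff n * ew ((N : ℝ) • κ) x ^ n)
      (volume.restrict A) := by
    intro N n
    refine Integrable.of_bound (C := ‖P.coeff n‖) ?_ ?_
    · exact (continuous_const.mul ((continuous_ew _).pow n)).aestronglyMeasurable
    · exact Eventually.of_forall fun x => by simp [norm_ew]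
  have hkey : ∀ N : ℕ, ∫ x in A, u (ew ((N : ℝ) • κ) x) =
      ∑' n, ∫ x in A, P.coeff n * ew ((N : ℝ) • κ) x ^ n := by
    intro N
    have h := hasSum_integral_of_summable_integral_norm (hint N) (by
      have : (fun n => ∫ x in A, ‖P.coeff n * ew ((N : ℝ) • κ) x ^ n‖) =
          fun n => (volume A).toReal * ‖P.coeff n‖ := by
        funext n
        simp [norm_ew, Measure.real]
      rw [this]
      exact hsum.mul_left _)
    rw [h.tsum_eq]
    refine integral_congr_ae (Eventually.of_forall fun x => ?_)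
    exact ((hval _ (norm_ew _ _).le).tsum_eq).symm
  have hu0 : u 0 * ((volume A).toReal : ℂ) =
      ∑' n, (if n = 0 then P.coeff 0 * ((volume A).toReal : ℂ) else 0) := by
    rw [tsum_ite_eq]
    have h0 := (hval 0 (by simp)).tsum_eq
    rw [tsum_eq_single 0 (by intro n hn; simp [hn])] at h0
    simp only [pow_zero, mul_one] at h0
    rw [h0]
  simp_rw [hkey]
  rw [hu0]
  refine tendsto_tsum_of_dominated_convergence
    (bound := fun n => ‖P.coeff n‖ * (volume A).toReal) (hsum.mul_right _) ?_ ?_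
  · intro n
    rcases eq_or_ne n 0 with rfl | hn
    · simp [Measure.real, mul_comm]
    · simp only [hn, if_false]
      have h1 : ∀ N : ℕ, ∫ x in A, P.coeff n * ew ((N : ℝ) • κ) x ^ n =
          P.coeff n * ∫ x in A, ew ((N : ℝ) • ((n : ℝ) • κ)) x := by
        intro N
        rw [← integral_const_mul]
        refine integral_congr_ae (Eventually.of_forall fun x => ?_)
        simp only
        rw [ew_pow, smul_comm]
      simp_rw [h1]
      have h2 := tendsto_integral_ew (κ := (n : ℝ) • κ)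
        (smul_ne_zero (by exact_mod_cast hn) hκ) hA
      simpa using h2.const_mul (P.coeff n)
  · refine Eventually.of_forall fun N n => ?_
    refine (norm_setIntegral_le_of_norm_le_const (C := ‖P.coeff n‖) hA'.lt_top ?_).trans ?_
    · intro x _
      simp [norm_ew]
    · simp [Measure.real]

theorem cos_pos_of_abs_lt_one {s : ℝ} (hs : |s| < 1) : 0 < Real.cos (s * (π / 2)) := by
  have hpi := Real.pi_pos
  rw [abs_lt] at hs
  refine Real.cos_pos_of_mem_Ioo ⟨?_, ?_⟩
  · nlinarith
  · nlinarith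

theorem rpow_mul_cos_le_re_cpow {z : ℂ} (hz : 0 < z.re) {s : ℝ} (hs : |s| < 1) :
    ‖z‖ ^ s * Real.cos (s * (π / 2)) ≤ (z ^ (s : ℂ)).re := by
  rw [cpow_ofReal_re]
  have harg : |z.arg| < π / 2 := abs_arg_lt_pi_div_two_iff.2 (Or.inl hz)
  have h1 : Real.cos (s * (π / 2)) ≤ Real.cos (z.arg * s) := by
    rw [← Real.cos_abs (s * (π / 2)), ← Real.cos_abs (z.arg * s), abs_mul, abs_mul]
    refine Real.cos_le_cos_of_nonneg_of_le_pi (by positivity) ?_ ?_
    · rw [abs_of_pos (by positivity : 0 < π / 2)]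
      nlinarith [Real.pi_pos, abs_nonneg s]
    · rw [abs_of_pos (by positivity : 0 < π / 2), mul_comm |z.arg|]
      gcongr
  gcongr

/-- Mean value of a power (with exponent in `(-1, 1)`) of the modulus of an analytic function
with positive real part of a high-frequency plane wave. -/
theorem eventually_integral_rpow_le {κ : E2} (hκ : κ ≠ 0) {A : Set E2} (hA : MeasurableSet A)
    (hA' : volume A ≠ ∞) {β : ℂ → ℂ} {R : ℝ} (hR : 1 < R)
    (hβ : DifferentiableOn ℂ β (Metric.ball 0 R))
    (hpos : ∀ ζ ∈ Metric.ball (0 : ℂ) R, 0 < (β ζ).re) {s : ℝ} (hs : |s| < 1) {ε : ℝ}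
    (hε : 0 < ε) :
    ∀ᶠ N : ℕ in atTop, ∫ x in A, ‖β (ew ((N : ℝ) • κ) x)‖ ^ s ≤
      ‖β 0‖ ^ s / Real.cos (s * (π / 2)) * (volume A).toReal + ε := by
  have hc := cos_pos_of_abs_lt_one hs
  set u : ℂ → ℂ := fun ζ => β ζ ^ (s : ℂ) with hu
  have hud : DifferentiableOn ℂ u (Metric.ball 0 R) :=
    hβ.cpow_const fun ζ hζ => Or.inl (hpos ζ hζ)
  have hlim := tendsto_integral_analytic hκ hA hA' hR hud
  have hlim2 := (Complex.continuous_re.tendsto _).comp hlim
  have hmem : ∀ (N : ℕ) (x : E2), ew ((N : ℝ) • κ) x ∈ Metric.ball (0 : ℂ) R := by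
    intro N x
    rw [mem_ball_zero_iff, norm_ew]
    exact hR
  have hfin : IsFiniteMeasure (volume.restrict A) := ⟨by simpa using hA'.lt_top⟩
  have hsub : Metric.closedBall (0 : ℂ) 1 ⊆ Metric.ball 0 R := Metric.closedBall_subset_ball hR
  -- integrability
  have hcomp : IsCompact (Metric.closedBall (0 : ℂ) 1) := isCompact_closedBall _ _
  have hint : ∀ {g : ℂ → ℂ}, ContinuousOn g (Metric.ball 0 R) → ∀ N : ℕ,
      Integrable (fun x => g (ew ((N : ℝ) • κ) x)) (volume.restrict A) := by
    intro g hg N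
    obtain ⟨C, hC⟩ := hcomp.exists_bound_of_continuousOn (hg.mono hsub)
    refine Integrable.of_bound (C := C) ?_ ?_
    · refine Continuous.aestronglyMeasurable ?_
      exact hg.comp_continuous (continuous_ew _) (hmem N)
    · refine Eventually.of_forall fun x => hC _ ?_
      simp [norm_ew]
  have hre : ∀ N : ℕ, (∫ x in A, u (ew ((N : ℝ) • κ) x)).re =
      ∫ x in A, (u (ew ((N : ℝ) • κ) x)).re := by
    intro N
    exact (integral_re (hint hud.continuousOn N)).symm
  have hbig : ‖β 0‖ ^ s * (volume A).toReal + ε * Real.cos (s * (π / 2)) >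
      (u 0 * ((volume A).toReal : ℂ)).re := by
    have h0 : (0 : ℂ) ∈ Metric.ball (0 : ℂ) R := by simp; linarith
    have h1 : (u 0 * ((volume A).toReal : ℂ)).re = (u 0).re * (volume A).toReal := by
      simp
    have h2 : (u 0).re ≤ ‖β 0‖ ^ s := by
      simp only [hu]
      rw [cpow_ofReal_re]
      calc ‖β 0‖ ^ s * Real.cos ((β 0).arg * s) ≤ ‖β 0‖ ^ s * 1 := by
            gcongr
            exact Real.cos_le_one _
        _ = _ := mul_one _
    rw [h1]
    have h3 : (u 0).re * (volume A).toReal ≤ ‖β 0‖ ^ s * (volume A).toReal := by gcongr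
    have h4 : 0 < ε * Real.cos (s * (π / 2)) := by positivity
    linarith
  filter_upwards [hlim2.eventually_lt_const hbig] with N hN
  simp only [Function.comp] at hN
  rw [hre] at hN
  have hptw : ∀ x, ‖β (ew ((N : ℝ) • κ) x)‖ ^ s ≤
      (Real.cos (s * (π / 2)))⁻¹ * (u (ew ((N : ℝ) • κ) x)).re := by
    intro x
    rw [inv_mul_eq_div, le_div_iff₀ hc]
    exact rpow_mul_cos_le_re_cpow (hpos _ (hmem N x)) hs
  have hInt1 : Integrable (fun x => (Real.cos (s * (π / 2)))⁻¹ *
      (u (ew ((N : ℝ) • κ) x)).re) (volume.restrict A) :=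
    ((hint hud.continuousOn N).re).const_mul _
  calc ∫ x in A, ‖β (ew ((N : ℝ) • κ) x)‖ ^ s
      ≤ ∫ x in A, (Real.cos (s * (π / 2)))⁻¹ * (u (ew ((N : ℝ) • κ) x)).re := by
        refine integral_mono_of_nonneg ?_ hInt1 (Eventually.of_forall hptw)
        exact Eventually.of_forall fun x => by positivity
    _ = (Real.cos (s * (π / 2)))⁻¹ * ∫ x in A, (u (ew ((N : ℝ) • κ) x)).re := by
        rw [integral_const_mul]
    _ ≤ (Real.cos (s * (π / 2)))⁻¹ * (‖β 0‖ ^ s * (volume A).toReal +
          ε * Real.cos (s * (π / 2))) := by gcongr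
    _ = _ := by
        generalize Real.cos (s * (π / 2)) = c at hc ⊢
        field_simp

end Pool.Agent.Helper826_Riesz
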