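import Mathlib
import Pool.Agent.Helper826_Riesz.Mean

/-!
# The vertical direction: a trigonometric field which lowers the mean of the `p`-th power

With `α = 2π⟨κ₁, x⟩`, `β = 2π⟨κ₂, x⟩`, `κ₁ = (3,0)`, `κ₂ = (0,4)` the function
`w = cos α + cos β + cos α cos β` has Riesz transforms `R₁ w = sin α (1 + 3/5 cos β)` and
`R₂ w = sin β (1 + 4/5 cos α)`.
-/

set_option autoImplicit false
open MeasureTheory Complex Real Filter Topology
open scoped ENNReal NNReal FourierTransform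

namespace Pool.Agent.Helper826_Riesz

theorem ew_re (k x : E2) : (ew k x).re = Real.cos (2 * π * inner ℝ k x) := by
  unfold ew
  rw [Real.fourierChar_apply, Complex.exp_ofReal_mul_I_re]

theorem ew_im (k x : E2) : (ew k x).im = Real.sin (2 * π * inner ℝ k x) := by
  unfold ew
  rw [Real.fourierChar_apply, Complex.exp_ofReal_mul_I_im]

/-- `U N` has asymptotic mean value `m` on every set of finite measure. -/
structure MeanTo (U : ℕ → E2 → ℝ) (m : ℝ) : Prop where
  cont : ∀ N, Continuous (U N)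
  bdd : ∃ C, ∀ N x, |U N x| ≤ C
  lim : ∀ A : Set E2, MeasurableSet A → volume A ≠ ∞ →
    Tendsto (fun N => ∫ x in A, U N x) atTop (𝓝 (m * (volume A).toReal))

theorem MeanTo.integrable {U : ℕ → E2 → ℝ} {m : ℝ} (h : MeanTo U m) {A : Set E2}
    (hA' : volume A ≠ ∞) (N : ℕ) : Integrable (U N) (volume.restrict A) := by
  have hfin : IsFiniteMeasure (volume.restrict A) := ⟨by simpa using hA'.lt_top⟩
  obtain ⟨C, hC⟩ := h.bdd
  exact Integrable.of_bound (h.cont N).aestronglyMeasurable C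
    (Eventually.of_forall fun x => hC N x)

theorem MeanTo.add {U V : ℕ → E2 → ℝ} {m m' : ℝ} (h : MeanTo U m) (h' : MeanTo V m') :
    MeanTo (fun N x => U N x + V N x) (m + m') where
  cont N := (h.cont N).add (h'.cont N)
  bdd := by
    obtain ⟨C, hC⟩ := h.bdd
    obtain ⟨C', hC'⟩ := h'.bdd
    exact ⟨C + C', fun N x => (abs_add_le _ _).trans (add_le_add (hC N x) (hC' N x))⟩
  lim A hA hA' := by
    have := (h.lim A hA hA').add (h'.lim A hA hA')
    rw [add_mul]
    refine this.congr fun N => ?_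
    rw [integral_add (h.integrable hA' N) (h'.integrable hA' N)]

theorem MeanTo.const_mul {U : ℕ → E2 → ℝ} {m : ℝ} (h : MeanTo U m) (a : ℝ) :
    MeanTo (fun N x => a * U N x) (a * m) where
  cont N := continuous_const.mul (h.cont N)
  bdd := by
    obtain ⟨C, hC⟩ := h.bdd
    exact ⟨|a| * C, fun N x => by rw [abs_mul]; gcongr; exact hC N x⟩
  lim A hA hA' := by
    have := (h.lim A hA hA').const_mul a
    rw [mul_assoc]
    refine this.congr fun N => ?_
    rw [integral_const_mul]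

theorem MeanTo.const (a : ℝ) : MeanTo (fun _ _ => a) a where
  cont N := continuous_const
  bdd := ⟨|a|, fun _ _ => le_rfl⟩
  lim A hA hA' := by
    simp [Measure.real, mul_comm]

theorem MeanTo.sum {ι : Type*} (s : Finset ι) {U : ι → ℕ → E2 → ℝ} {m : ι → ℝ}
    (h : ∀ i ∈ s, MeanTo (U i) (m i)) :
    MeanTo (fun N x => ∑ i ∈ s, U i N x) (∑ i ∈ s, m i) := by
  classical
  induction s using Finset.induction_on with
  | empty => simpa using MeanTo.const 0
  | insert a s ha ih =>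
    have h1 := (h a (Finset.mem_insert_self a s)).add
      (ih fun i hi => h i (Finset.mem_insert_of_mem hi))
    simpa [Finset.sum_insert ha] using h1

theorem meanTo_cos {κ : E2} (hκ : κ ≠ 0) :
    MeanTo (fun N x => Real.cos (2 * π * inner ℝ ((N : ℝ) • κ) x)) 0 where
  cont N := by fun_prop
  bdd := ⟨1, fun N x => Real.abs_cos_le_one _⟩
  lim A hA hA' := by
    have hfin : IsFiniteMeasure (volume.restrict A) := ⟨by simpa using hA'.lt_top⟩
    have h := (Complex.continuous_re.tendsto _).comp (tendsto_integral_ew hκ hA)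
    rw [zero_mul]
    refine h.congr fun N => ?_
    simp only [Function.comp]
    have hint : Integrable (fun x => ew ((N : ℝ) • κ) x) (volume.restrict A) :=
      Integrable.of_bound (continuous_ew _).aestronglyMeasurable 1
        (Eventually.of_forall fun x => (norm_ew _ _).le)
    have := integral_re hint
    simp only [RCLike.re_eq_complex_re] at this
    rw [← this]
    refine integral_congr_ae (Eventually.of_forall fun x => ?_)
    exact ew_re _ _

/-- The first frequency. -/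
noncomputable def κ₁ : E2 := !₂[3, 0]
/-- The second frequency. -/
noncomputable def κ₂ : E2 := !₂[0, 4]

/-- The first phase. -/
noncomputable def al (N : ℕ) (x : E2) : ℝ := 2 * π * inner ℝ ((N : ℝ) • κ₁) x
/-- The second phase. -/
noncomputable def be (N : ℕ) (x : E2) : ℝ := 2 * π * inner ℝ ((N : ℝ) • κ₂) x

theorem comb_ne_zero {a b : ℝ} (h : a ≠ 0 ∨ b ≠ 0) : a • κ₁ + b • κ₂ ≠ 0 := by
  intro h0
  have e0 := congrArg (fun v : E2 => v 0) h0
  have e1 := congrArg (fun v : E2 => v 1) h0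
  simp [κ₁, κ₂] at e0 e1
  rcases h with h | h
  · exact h e0
  · exact h e1

theorem cos_mul_cos_eq (N : ℕ) (x : E2) (a b : ℝ) :
    Real.cos (a * al N x) * Real.cos (b * be N x) =
      1 / 2 * Real.cos (2 * π * inner ℝ ((N : ℝ) • (a • κ₁ + b • κ₂)) x) +
      1 / 2 * Real.cos (2 * π * inner ℝ ((N : ℝ) • (a • κ₁ + (-b) • κ₂)) x) := by
  have e1 : 2 * π * inner ℝ ((N : ℝ) • (a • κ₁ + b • κ₂)) x = a * al N x + b * be N x := by
    unfold al be
    simp only [inner_smul_left, inner_add_left]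
    simp
    ring
  have e2 : 2 * π * inner ℝ ((N : ℝ) • (a • κ₁ + (-b) • κ₂)) x = a * al N x - b * be N x := by
    unfold al be
    simp only [inner_smul_left, inner_add_left]
    simp
    ring
  rw [e1, e2, Real.cos_add, Real.cos_sub]
  ring

theorem meanTo_cos_mul_cos (a b : ℕ) :
    MeanTo (fun N x => Real.cos ((a : ℝ) * al N x) * Real.cos ((b : ℝ) * be N x))
      (if a = 0 ∧ b = 0 then 1 else 0) := by
  by_cases h : a = 0 ∧ b = 0
  · obtain ⟨rfl, rfl⟩ := h
    simpa using MeanTo.const 1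
  · rw [if_neg h]
    have h' : (a : ℝ) ≠ 0 ∨ (b : ℝ) ≠ 0 := by
      by_contra hcon
      push Not at hcon
      exact h ⟨by exact_mod_cast hcon.1, by exact_mod_cast hcon.2⟩
    have h'' : (a : ℝ) ≠ 0 ∨ -(b : ℝ) ≠ 0 := by
      rcases h' with h' | h'
      · exact Or.inl h'
      · exact Or.inr (neg_ne_zero.2 h')
    have h1 := ((meanTo_cos (comb_ne_zero h')).const_mul (1 / 2)).add
      ((meanTo_cos (comb_ne_zero h'')).const_mul (1 / 2))
    simp only [mul_zero, add_zero] at h1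
    have e : (fun (N : ℕ) (x : E2) => Real.cos ((a : ℝ) * al N x) * Real.cos ((b : ℝ) * be N x)) =
        fun (N : ℕ) (x : E2) =>
          1 / 2 * Real.cos (2 * π * inner ℝ ((N : ℝ) • ((a : ℝ) • κ₁ + (b : ℝ) • κ₂)) x) +
          1 / 2 * Real.cos (2 * π * inner ℝ ((N : ℝ) • ((a : ℝ) • κ₁ + (-(b : ℝ)) • κ₂)) x) := by
      funext N x
      exact cos_mul_cos_eq N x a b
    rw [e]
    exact h1

/-- Fourier coefficients of the main part of the logarithm. -/
noncomputable def lam (e : ℝ) : ℕ → ℕ → ℝ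
  | 0, 0 => (-2/5 : ℝ) * e ^ 3
  | 0, 1 => (2 : ℝ) * e + (-2/5 : ℝ) * e ^ 2 + (-2/25 : ℝ) * e ^ 3
  | 0, 2 => (-33/25 : ℝ) * e ^ 2 + (6/5 : ℝ) * e ^ 3
  | 0, 3 => (104/75 : ℝ) * e ^ 3
  | 1, 0 => (2 : ℝ) * e + (-1/5 : ℝ) * e ^ 2 + (-3/25 : ℝ) * e ^ 3
  | 1, 1 => (2 : ℝ) * e + (-2 : ℝ) * e ^ 2 + (3/5 : ℝ) * e ^ 3
  | 1, 2 => (-9/5 : ℝ) * e ^ 2 + (71/25 : ℝ) * e ^ 3
  | 1, 3 => (53/25 : ℝ) * e ^ 3
  | 2, 0 => (-59/50 : ℝ) * e ^ 2 + (4/5 : ℝ) * e ^ 3
  | 2, 1 => (-8/5 : ℝ) * e ^ 2 + (123/50 : ℝ) * e ^ 3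
  | 2, 2 => (-1/2 : ℝ) * e ^ 2 + (12/5 : ℝ) * e ^ 3
  | 2, 3 => (9/10 : ℝ) * e ^ 3
  | 3, 0 => (86/75 : ℝ) * e ^ 3
  | 3, 1 => (89/50 : ℝ) * e ^ 3
  | 3, 2 => (4/5 : ℝ) * e ^ 3
  | 3, 3 => (1/6 : ℝ) * e ^ 3
  | _, _ => 0

/-- `w` in terms of the two cosines. -/
noncomputable def ww (c C : ℝ) : ℝ := c + C + c * C
/-- `w² + |R w|²` in terms of the two cosines. -/
noncomputable def qq (c C : ℝ) : ℝ :=
  ww c C ^ 2 + (1 - c ^ 2) * (1 + 3 / 5 * C) ^ 2 + (1 - C ^ 2) * (1 + 4 / 5 * c) ^ 2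
/-- The main part of the logarithm. -/
noncomputable def Lm (e c C : ℝ) : ℝ :=
  2 * e * ww c C + e ^ 2 * (qq c C - 2 * ww c C ^ 2) +
    e ^ 3 * (8 / 3 * ww c C ^ 3 - 2 * ww c C * qq c C)

theorem Lm_eq (e a b : ℝ) :
    Lm e (Real.cos a) (Real.cos b) = ∑ j ∈ Finset.range 4, ∑ l ∈ Finset.range 4,
      lam e j l * (Real.cos ((j : ℝ) * a) * Real.cos ((l : ℝ) * b)) := by
  simp only [Finset.sum_range_succ, Finset.sum_range_zero, lam]
  push_cast
  simp only [zero_mul, Real.cos_zero, one_mul, Real.cos_two_mul, Real.cos_three_mul]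
  unfold Lm qq ww
  ring

theorem meanTo_Lm (e : ℝ) :
    MeanTo (fun N x => Lm e (Real.cos (al N x)) (Real.cos (be N x))) (-2 / 5 * e ^ 3) := by
  have h : MeanTo (fun N x => ∑ j ∈ Finset.range 4, ∑ l ∈ Finset.range 4,
      lam e j l * (Real.cos ((j : ℝ) * al N x) * Real.cos ((l : ℝ) * be N x)))
      (∑ j ∈ Finset.range 4, ∑ l ∈ Finset.range 4,
        lam e j l * (if j = 0 ∧ l = 0 then 1 else 0)) := by
    refine MeanTo.sum _ fun j _ => MeanTo.sum _ fun l _ => ?_
    exact (meanTo_cos_mul_cos j l).const_mul _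
  have e1 : (∑ j ∈ Finset.range 4, ∑ l ∈ Finset.range 4,
        lam e j l * (if j = 0 ∧ l = 0 then (1 : ℝ) else 0)) = -2 / 5 * e ^ 3 := by
    simp [Finset.sum_range_succ, lam]
  rw [e1] at h
  have e2 : (fun (N : ℕ) (x : E2) => Lm e (Real.cos (al N x)) (Real.cos (be N x))) =
      fun (N : ℕ) (x : E2) => ∑ j ∈ Finset.range 4, ∑ l ∈ Finset.range 4,
      lam e j l * (Real.cos ((j : ℝ) * al N x) * Real.cos ((l : ℝ) * be N x)) := by
    funext N x
    exact Lm_eq e _ _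
  rw [e2]
  exact h

end Pool.Agent.Helper826_Riesz
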