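import Mathlib
import Pool.Agent.Helper826_Riesz.Trig

/-!
# The pointwise bound for the third order perturbation
-/

set_option autoImplicit false
open MeasureTheory Complex Real Filter Topology
open scoped ENNReal NNReal FourierTransform

namespace Pool.Agent.Helper826_Riesz

theorem ww_abs {c C : ℝ} (hc : |c| ≤ 1) (hC : |C| ≤ 1) : |ww c C| ≤ 3 := by
  unfold ww
  have h1 : |c * C| ≤ 1 := by
    rw [abs_mul]
    calc |c| * |C| ≤ 1 * 1 := by gcongr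
      _ = 1 := by norm_num
  calc |c + C + c * C| ≤ |c + C| + |c * C| := abs_add_le _ _
    _ ≤ (|c| + |C|) + |c * C| := by gcongr; exact abs_add_le _ _
    _ ≤ (1 + 1) + 1 := by gcongr
    _ = 3 := by norm_num

theorem qq_nonneg {c C : ℝ} (hc : |c| ≤ 1) (hC : |C| ≤ 1) : 0 ≤ qq c C := by
  unfold qq
  have h1 : 0 ≤ 1 - c ^ 2 := by
    have := abs_le.1 hc
    nlinarith
  have h2 : 0 ≤ 1 - C ^ 2 := by
    have := abs_le.1 hC
    nlinarith
  positivity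

theorem qq_le {c C : ℝ} (hc : |c| ≤ 1) (hC : |C| ≤ 1) : qq c C ≤ 15 := by
  have hc' := abs_le.1 hc
  have hC' := abs_le.1 hC
  have h1 : 0 ≤ 1 - c ^ 2 := by nlinarith
  have h2 : 0 ≤ 1 - C ^ 2 := by nlinarith
  have h1' : 1 - c ^ 2 ≤ 1 := by nlinarith
  have h2' : 1 - C ^ 2 ≤ 1 := by nlinarith
  have hw : ww c C ^ 2 ≤ 9 := by
    have := abs_le.1 (ww_abs hc hC)
    nlinarith
  have h3 : (1 + 3 / 5 * C) ^ 2 ≤ 64 / 25 := by nlinarith
  have h4 : (1 + 4 / 5 * c) ^ 2 ≤ 81 / 25 := by nlinarith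
  have h5 : (1 - c ^ 2) * (1 + 3 / 5 * C) ^ 2 ≤ 1 * (64 / 25) := by gcongr
  have h6 : (1 - C ^ 2) * (1 + 4 / 5 * c) ^ 2 ≤ 1 * (81 / 25) := by gcongr
  unfold qq
  linarith

theorem poly_bounds {e w q : ℝ} (he : 0 < e) (he' : e ≤ 1 / 1000) (hw : |w| ≤ 3)
    (hq0 : 0 ≤ q) (hq1 : q ≤ 15) :
    |2 * e * w + e ^ 2 * q| ≤ 7 * e ∧
    -(1 / 2) * q ^ 2 + 4 * w ^ 2 * q + 2 * e * (w * q) * q + 1 / 3 * e ^ 2 * q ^ 3 ≤ 600 ∧
    |2 * e * w + e ^ 2 * (q - 2 * w ^ 2) + e ^ 3 * (8 / 3 * w ^ 3 - 2 * w * q) + 5500 * e ^ 4| ≤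
      1 := by
  have hw' := abs_le.1 hw
  have hw2 : w ^ 2 ≤ 9 := by
    rw [← sq_abs]
    calc |w| ^ 2 ≤ 3 ^ 2 := by gcongr
      _ = 9 := by norm_num
  have hw3 : |w ^ 3| ≤ 27 := by
    rw [abs_pow]
    calc |w| ^ 3 ≤ 3 ^ 3 := by gcongr
      _ = 27 := by norm_num
  have hwq : |w * q| ≤ 45 := by
    rw [abs_mul, abs_of_nonneg hq0]
    calc |w| * q ≤ 3 * 15 := by gcongr
      _ = 45 := by norm_num
  have h1 : |2 * e * w| ≤ 6 * e := by
    rw [abs_mul, abs_of_pos (by positivity : 0 < 2 * e)]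
    calc 2 * e * |w| ≤ 2 * e * 3 := by gcongr
      _ = 6 * e := by ring
  refine ⟨?_, ?_, ?_⟩
  · have h2 : |e ^ 2 * q| ≤ e := by
      rw [abs_of_nonneg (by positivity)]
      calc e ^ 2 * q ≤ e ^ 2 * 15 := by gcongr
        _ = e * (e * 15) := by ring
        _ ≤ e * 1 := by
          gcongr
          linarith
        _ = e := mul_one e
    calc |2 * e * w + e ^ 2 * q| ≤ |2 * e * w| + |e ^ 2 * q| := abs_add_le _ _
      _ ≤ 6 * e + e := by gcongr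
      _ = 7 * e := by ring
  · have h1 : 4 * w ^ 2 * q ≤ 540 := by
      calc 4 * w ^ 2 * q ≤ 4 * 9 * 15 := by gcongr
        _ = 540 := by norm_num
    have h2 : 2 * e * (w * q) * q ≤ 2 := by
      have h3 : w * q ≤ |w * q| := le_abs_self _
      calc 2 * e * (w * q) * q ≤ 2 * e * |w * q| * q := by gcongr
        _ ≤ 2 * (1 / 1000) * 45 * 15 := by gcongr
        _ ≤ 2 := by norm_num
    have h3 : 1 / 3 * e ^ 2 * q ^ 3 ≤ 2 := by
      calc 1 / 3 * e ^ 2 * q ^ 3 ≤ 1 / 3 * (1 / 1000) ^ 2 * 15 ^ 3 := by gcongr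
        _ ≤ 2 := by norm_num
    have h4 : 0 ≤ q ^ 2 := sq_nonneg q
    linarith
  · have h2 : |e ^ 2 * (q - 2 * w ^ 2)| ≤ e ^ 2 * 33 := by
      rw [abs_mul, abs_of_pos (by positivity : 0 < e ^ 2)]
      gcongr
      have := sq_nonneg w
      rw [abs_le]
      constructor <;> linarith
    have h3 : |e ^ 3 * (8 / 3 * w ^ 3 - 2 * w * q)| ≤ e ^ 3 * 162 := by
      rw [abs_mul, abs_of_pos (by positivity : 0 < e ^ 3)]
      gcongr
      have h4 := abs_le.1 hw3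
      have h5 := abs_le.1 hwq
      rw [abs_le]
      constructor <;> linarith
    have h7 : e ^ 2 ≤ 1 / 1000 * e := by
      rw [pow_two]
      gcongr
    have h8 : e ^ 3 ≤ 1 / 1000 * e ^ 2 := by
      rw [show e ^ 3 = e * e ^ 2 by ring]
      gcongr
    have h9 : e ^ 4 ≤ 1 / 1000 * e ^ 3 := by
      rw [show e ^ 4 = e * e ^ 3 by ring]
      gcongr
    have h10 : |5500 * e ^ 4| = 5500 * e ^ 4 := abs_of_pos (by positivity)
    calc |2 * e * w + e ^ 2 * (q - 2 * w ^ 2) + e ^ 3 * (8 / 3 * w ^ 3 - 2 * w * q) +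
          5500 * e ^ 4|
        ≤ |2 * e * w + e ^ 2 * (q - 2 * w ^ 2) + e ^ 3 * (8 / 3 * w ^ 3 - 2 * w * q)| +
          |5500 * e ^ 4| := abs_add_le _ _
      _ ≤ (|2 * e * w + e ^ 2 * (q - 2 * w ^ 2)| + |e ^ 3 * (8 / 3 * w ^ 3 - 2 * w * q)|) +
          |5500 * e ^ 4| := by gcongr; exact abs_add_le _ _
      _ ≤ ((|2 * e * w| + |e ^ 2 * (q - 2 * w ^ 2)|) + |e ^ 3 * (8 / 3 * w ^ 3 - 2 * w * q)|) +
          |5500 * e ^ 4| := by gcongr; exact abs_add_le _ _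
      _ ≤ ((6 * e + e ^ 2 * 33) + e ^ 3 * 162) + 5500 * e ^ 4 := by
          rw [h10]
          gcongr
      _ ≤ 1 := by linarith

theorem log_bound {X : ℝ} (hX : |X| ≤ 1 / 2) :
    Real.log (1 + X) ≤ X - X ^ 2 / 2 + X ^ 3 / 3 + 2 * X ^ 4 := by
  have h := Real.abs_log_sub_add_sum_range_le (x := -X) (by rw [abs_neg]; linarith) 3
  rw [abs_neg] at h
  have h2 : |X| ^ (3 + 1) / (1 - |X|) ≤ 2 * X ^ 4 := by
    rw [div_le_iff₀ (by linarith)]
    have : |X| ^ (3 + 1) = X ^ 4 := by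
      rw [show (3 + 1) = 2 * 2 by norm_num, pow_mul, sq_abs, ← pow_mul]
    rw [this]
    have h4 : 0 ≤ X ^ 4 := by positivity
    nlinarith
  have h3 := (abs_le.1 (h.trans h2)).2
  simp only [Finset.sum_range_succ, Finset.sum_range_zero] at h3
  norm_num at h3
  have h5 : (-X) ^ 3 = -X ^ 3 := by ring
  rw [h5] at h3
  linarith

theorem rpow_bound {e p w q : ℝ} (he : 0 < e) (he' : e ≤ 1 / 1000) (hp : 0 < p) (hp1 : p ≤ 1)
    (hw : |w| ≤ 3) (hq0 : 0 ≤ q) (hq1 : q ≤ 15) :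
    (1 + (2 * e * w + e ^ 2 * q)) ^ (p / 2) ≤
      1 + p / 2 * ((2 * e * w + e ^ 2 * (q - 2 * w ^ 2) +
        e ^ 3 * (8 / 3 * w ^ 3 - 2 * w * q)) + 5500 * e ^ 4) + p ^ 2 / 4 := by
  obtain ⟨hX1, hr4, hMabs⟩ := poly_bounds he he' hw hq0 hq1
  set X : ℝ := 2 * e * w + e ^ 2 * q with hX
  have hXhalf : |X| ≤ 1 / 2 := by linarith
  have hX' := abs_le.1 hXhalf
  have hX4 : X ^ 4 ≤ 2401 * e ^ 4 := by
    have : X ^ 4 = |X| ^ 4 := by
      rw [show 4 = 2 * 2 by norm_num, pow_mul, pow_mul, sq_abs]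
    rw [this]
    calc |X| ^ 4 ≤ (7 * e) ^ 4 := by gcongr
      _ = 2401 * e ^ 4 := by ring
  have hL : X - X ^ 2 / 2 + X ^ 3 / 3 = (2 * e * w + e ^ 2 * (q - 2 * w ^ 2) +
        e ^ 3 * (8 / 3 * w ^ 3 - 2 * w * q)) + e ^ 4 * (-(1 / 2) * q ^ 2 + 4 * w ^ 2 * q +
      2 * e * (w * q) * q + 1 / 3 * e ^ 2 * q ^ 3) := by
    rw [hX]
    ring
  have he4 : 0 < e ^ 4 := by positivity
  set M := (2 * e * w + e ^ 2 * (q - 2 * w ^ 2) +
        e ^ 3 * (8 / 3 * w ^ 3 - 2 * w * q)) + 5500 * e ^ 4 with hMdef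
  have hM : Real.log (1 + X) ≤ M := by
    have h1 : e ^ 4 * (-(1 / 2) * q ^ 2 + 4 * w ^ 2 * q +
      2 * e * (w * q) * q + 1 / 3 * e ^ 2 * q ^ 3) ≤ e ^ 4 * 600 := by gcongr
    have h2 := log_bound hXhalf
    linarith
  have hpos : 0 < 1 + X := by linarith
  have hy : |M * (p / 2)| ≤ 1 / 2 * p := by
    rw [abs_mul, abs_of_pos (by positivity : 0 < p / 2)]
    calc |M| * (p / 2) ≤ 1 * (p / 2) := by gcongr
      _ = 1 / 2 * p := by ring
  have hexp := Real.abs_exp_sub_one_sub_id_le (x := M * (p / 2)) (by linarith)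
  have hexp' := (abs_le.1 hexp).2
  have hsq : (M * (p / 2)) ^ 2 ≤ p ^ 2 / 4 := by
    rw [← sq_abs]
    calc |M * (p / 2)| ^ 2 ≤ (1 / 2 * p) ^ 2 := by gcongr
      _ = p ^ 2 / 4 := by ring
  calc (1 + X) ^ (p / 2) = Real.exp (Real.log (1 + X) * (p / 2)) :=
        Real.rpow_def_of_pos hpos _
    _ ≤ Real.exp (M * (p / 2)) := by
        apply Real.exp_le_exp.2
        gcongr
    _ ≤ 1 + p / 2 * M + p ^ 2 / 4 := by linarith

theorem ptw_bound {e p c C s S : ℝ} (he : 0 < e) (he' : e ≤ 1 / 1000) (hp : 0 < p) (hp1 : p ≤ 1)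
    (hs : c ^ 2 + s ^ 2 = 1) (hS : C ^ 2 + S ^ 2 = 1) :
    ((1 + e * ww c C) ^ 2 + (e * (s * (1 + 3 / 5 * C))) ^ 2 +
      (e * (S * (1 + 4 / 5 * c))) ^ 2) ^ (p / 2) ≤
      1 + p / 2 * (Lm e c C + 5500 * e ^ 4) + p ^ 2 / 4 := by
  have hc : |c| ≤ 1 := abs_le_one_iff_mul_self_le_one.2 (by nlinarith [sq_nonneg s])
  have hC : |C| ≤ 1 := abs_le_one_iff_mul_self_le_one.2 (by nlinarith [sq_nonneg S])
  have hs' : s ^ 2 = 1 - c ^ 2 := by linarith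
  have hS' : S ^ 2 = 1 - C ^ 2 := by linarith
  have hbase : (1 + e * ww c C) ^ 2 + (e * (s * (1 + 3 / 5 * C))) ^ 2 +
      (e * (S * (1 + 4 / 5 * c))) ^ 2 = 1 + (2 * e * ww c C + e ^ 2 * qq c C) := by
    have h1 : (e * (s * (1 + 3 / 5 * C))) ^ 2 = e ^ 2 * (s ^ 2 * (1 + 3 / 5 * C) ^ 2) := by ring
    have h2 : (e * (S * (1 + 4 / 5 * c))) ^ 2 = e ^ 2 * (S ^ 2 * (1 + 4 / 5 * c) ^ 2) := by ring
    rw [h1, h2, hs', hS']
    unfold qq
    ring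
  rw [hbase]
  exact rpow_bound he he' hp hp1 (ww_abs hc hC) (qq_nonneg hc hC) (qq_le hc hC)

/-- The squared length of the perturbed vertical vector. -/
noncomputable def SS (e : ℝ) (N : ℕ) (x : E2) : ℝ :=
  (1 + e * ww (Real.cos (al N x)) (Real.cos (be N x))) ^ 2 +
    (e * (Real.sin (al N x) * (1 + 3 / 5 * Real.cos (be N x)))) ^ 2 +
    (e * (Real.sin (be N x) * (1 + 4 / 5 * Real.cos (al N x)))) ^ 2

theorem continuous_SS (e : ℝ) (N : ℕ) : Continuous (SS e N) := by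
  unfold SS ww al be
  fun_prop

theorem SS_nonneg (e : ℝ) (N : ℕ) (x : E2) : 0 ≤ SS e N x := by
  unfold SS
  positivity

theorem eventually_integral_SS_le {e p : ℝ} (he : 0 < e) (he' : e ≤ 1 / 1000) (hp : 0 < p)
    (hp1 : p ≤ 1) {A : Set E2} (hA : MeasurableSet A) (hA' : volume A ≠ ∞) {δ : ℝ}
    (hδ : 0 < δ) :
    ∀ᶠ N : ℕ in atTop, ∫ x in A, SS e N x ^ (p / 2) ≤
      (1 + p / 2 * (-2 / 5 * e ^ 3 + 5500 * e ^ 4) + p ^ 2 / 4) * (volume A).toReal + δ := by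
  have h := (((meanTo_Lm e).add (MeanTo.const (5500 * e ^ 4))).const_mul (p / 2)).add
    (MeanTo.const (1 + p ^ 2 / 4))
  have hlim := h.lim A hA hA'
  have hgt : (p / 2 * (-2 / 5 * e ^ 3 + 5500 * e ^ 4) + (1 + p ^ 2 / 4)) * (volume A).toReal <
      (1 + p / 2 * (-2 / 5 * e ^ 3 + 5500 * e ^ 4) + p ^ 2 / 4) * (volume A).toReal + δ := by
    have : p / 2 * (-2 / 5 * e ^ 3 + 5500 * e ^ 4) + (1 + p ^ 2 / 4) =
      1 + p / 2 * (-2 / 5 * e ^ 3 + 5500 * e ^ 4) + p ^ 2 / 4 := by ring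
    rw [this]
    linarith
  filter_upwards [hlim.eventually_lt_const hgt] with N hN
  refine le_trans ?_ hN.le
  refine integral_mono_of_nonneg (Eventually.of_forall fun x => ?_) (h.integrable hA' N)
    (Eventually.of_forall fun x => ?_)
  · exact Real.rpow_nonneg (SS_nonneg e N x) _
  · have := ptw_bound (c := Real.cos (al N x)) (s := Real.sin (al N x)) (C := Real.cos (be N x))
      (S := Real.sin (be N x)) he he' hp hp1 (Real.cos_sq_add_sin_sq _)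
      (Real.cos_sq_add_sin_sq _)
    simp only
    unfold SS
    linarith

end Pool.Agent.Helper826_Riesz
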