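import Mathlib
import Pool.Agent.Helper826_Riesz.Mean

/-!
# Averages of Schwartz functions over small translations, in `L^p` for small `p`
-/

set_option autoImplicit false
open MeasureTheory Complex Real Filter Topology
open scoped ENNReal NNReal FourierTransform SchwartzMap ContDiff

namespace Pool.Agent.Helper826_Riesz

section

variable {W : Type*} [NormedAddCommGroup W] [NormedSpace ℂ W]

theorem schwartz_decay (f : 𝓢(E2, W)) (M : ℕ) :
    ∃ C, 0 ≤ C ∧ ∀ x, (1 + ‖x‖) ^ M * ‖f x‖ ≤ C := by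
  refine ⟨2 ^ M * ((Finset.Iic (M, 0)).sup fun m : ℕ × ℕ => SchwartzMap.seminorm ℝ m.1 m.2) f,
    mul_nonneg (by positivity) (apply_nonneg _ _), fun x => ?_⟩
  have := SchwartzMap.one_add_le_sup_seminorm_apply (𝕜 := ℝ) (m := (M, 0)) (k := M) (n := 0)
      le_rfl le_rfl f x
  simpa using this

theorem integrable_one_add_pow_mul (f : 𝓢(E2, W)) (M : ℕ) :
    Integrable (fun x => (1 + ‖x‖) ^ M * ‖f x‖) := by
  obtain ⟨C, hC0, hC⟩ := schwartz_decay f (M + 3)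
  have h3 : Integrable (fun x : E2 => C * (1 + ‖x‖) ^ (-(3 : ℝ))) := by
    refine (integrable_one_add_norm ?_).const_mul C
    simp
    norm_num
  refine h3.mono' ?_ (Eventually.of_forall fun x => ?_)
  · refine Continuous.aestronglyMeasurable ?_
    have := f.continuous
    fun_prop
  · have hx : 0 < 1 + ‖x‖ := by positivity
    rw [Real.norm_of_nonneg (by positivity), Real.rpow_neg hx.le, ← div_eq_mul_inv,
      le_div_iff₀ (by positivity)]
    have h := hC x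
    have e : (1 + ‖x‖) ^ (3 : ℝ) = (1 + ‖x‖) ^ (3 : ℕ) := by
      rw [← Real.rpow_natCast]
      norm_num
    rw [e]
    calc (1 + ‖x‖) ^ M * ‖f x‖ * (1 + ‖x‖) ^ 3 = (1 + ‖x‖) ^ (M + 3) * ‖f x‖ := by ring
      _ ≤ C := h

theorem one_add_norm_le {T t : ℝ} (ht : |t| ≤ T) (x y : E2) :
    1 + ‖x‖ ≤ (1 + T) * ((1 + ‖x - t • y‖) * (1 + ‖y‖)) := by
  have hT : 0 ≤ T := (abs_nonneg t).trans ht
  have h1 : ‖x‖ ≤ ‖x - t • y‖ + ‖t • y‖ := by
    calc ‖x‖ = ‖(x - t • y) + t • y‖ := by rw [sub_add_cancel]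
      _ ≤ _ := norm_add_le _ _
  have h2 : ‖t • y‖ ≤ T * ‖y‖ := by
    rw [norm_smul, Real.norm_eq_abs]
    gcongr
  have h3 : 0 ≤ ‖x - t • y‖ := norm_nonneg _
  have h4 : 0 ≤ ‖y‖ := norm_nonneg _
  have h5 : 0 ≤ ‖x - t • y‖ * ‖y‖ := by positivity
  have h6 : 0 ≤ T * ‖x - t • y‖ := by positivity
  have h7 : 0 ≤ T * (‖x - t • y‖ * ‖y‖) := by positivity
  nlinarith

/-- The average `∫ g (x - t y) H(y) dy`. -/
noncomputable def avg (g : 𝓢(E2, ℂ)) (H : 𝓢(E2, W)) (t : ℝ) (x : E2) : W :=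
  ∫ y, g (x - t • y) • H y

theorem norm_smul_decay (g : 𝓢(E2, ℂ)) (H : 𝓢(E2, W)) (M : ℕ) (T : ℝ) :
    ∃ C, 0 ≤ C ∧ ∀ t : ℝ, |t| ≤ T → ∀ x y : E2,
      ‖g (x - t • y) • H y‖ ≤ C * (1 + ‖x‖) ^ (-(M : ℝ)) * ((1 + ‖y‖) ^ M * ‖H y‖) := by
  obtain ⟨C, hC0, hC⟩ := schwartz_decay g M
  refine ⟨C * |1 + T| ^ M, by positivity, fun t ht x y => ?_⟩
  have hT : 0 ≤ T := (abs_nonneg t).trans ht
  rw [abs_of_nonneg (by positivity : 0 ≤ 1 + T)]
  have hx : 0 < 1 + ‖x‖ := by positivity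
  have h1 := one_add_norm_le ht x y
  have h2 : (1 + ‖x‖) ^ M ≤ (1 + T) ^ M * ((1 + ‖x - t • y‖) ^ M * (1 + ‖y‖) ^ M) := by
    rw [← mul_pow, ← mul_pow]
    gcongr
  have h3 := hC (x - t • y)
  rw [norm_smul, Real.rpow_neg hx.le, Real.rpow_natCast]
  have h4 : (1 + ‖x‖) ^ M * ‖g (x - t • y)‖ ≤ C * (1 + T) ^ M * (1 + ‖y‖) ^ M := by
    calc (1 + ‖x‖) ^ M * ‖g (x - t • y)‖
        ≤ ((1 + T) ^ M * ((1 + ‖x - t • y‖) ^ M * (1 + ‖y‖) ^ M)) * ‖g (x - t • y)‖ := by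
          gcongr
      _ = (1 + T) ^ M * (1 + ‖y‖) ^ M * ((1 + ‖x - t • y‖) ^ M * ‖g (x - t • y)‖) := by ring
      _ ≤ (1 + T) ^ M * (1 + ‖y‖) ^ M * C := by gcongr
      _ = _ := by ring
  have h5 : ‖g (x - t • y)‖ ≤ ((1 + ‖x‖) ^ M)⁻¹ * (C * (1 + T) ^ M * (1 + ‖y‖) ^ M) := by
    rw [inv_mul_eq_div, le_div_iff₀ (by positivity)]
    linarith
  calc ‖g (x - t • y)‖ * ‖H y‖
      ≤ (((1 + ‖x‖) ^ M)⁻¹ * (C * (1 + T) ^ M * (1 + ‖y‖) ^ M)) * ‖H y‖ := by gcongr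
    _ = _ := by ring

theorem avg_decay (g : 𝓢(E2, ℂ)) (H : 𝓢(E2, W)) (M : ℕ) (T : ℝ) :
    ∃ C, 0 ≤ C ∧ ∀ t : ℝ, |t| ≤ T → ∀ x : E2,
      ‖avg g H t x‖ ≤ C * (1 + ‖x‖) ^ (-(M : ℝ)) := by
  obtain ⟨C, hC0, hC⟩ := norm_smul_decay g H M T
  set K := ∫ y, (1 + ‖y‖) ^ M * ‖H y‖ with hK
  have hK0 : 0 ≤ K := integral_nonneg fun y => by positivity
  refine ⟨C * K, by positivity, fun t ht x => ?_⟩
  unfold avg
  calc ‖∫ y, g (x - t • y) • H y‖
      ≤ ∫ y, C * (1 + ‖x‖) ^ (-(M : ℝ)) * ((1 + ‖y‖) ^ M * ‖H y‖) :=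
        norm_integral_le_of_norm_le ((integrable_one_add_pow_mul H M).const_mul _)
          (Eventually.of_forall fun y => hC t ht x y)
    _ = C * (1 + ‖x‖) ^ (-(M : ℝ)) * K := by rw [integral_const_mul]
    _ = _ := by ring

theorem integrable_avg_integrand (g : 𝓢(E2, ℂ)) (H : 𝓢(E2, W)) (t : ℝ) (x : E2) :
    Integrable (fun y => g (x - t • y) • H y) := by
  obtain ⟨C, hC0, hC⟩ := norm_smul_decay g H 0 |t|
  refine ((integrable_one_add_pow_mul H 0).const_mul (C * (1 + ‖x‖) ^ (-((0 : ℕ) : ℝ)))).mono' ?_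
    (Eventually.of_forall fun y => hC t le_rfl x y)
  refine Continuous.aestronglyMeasurable ?_
  have := g.continuous
  have := H.continuous
  fun_prop

theorem continuous_avg (g : 𝓢(E2, ℂ)) (H : 𝓢(E2, W)) (t : ℝ) : Continuous (avg g H t) := by
  obtain ⟨C, hC0, hC⟩ := norm_smul_decay g H 0 |t|
  unfold avg
  refine continuous_of_dominated (bound := fun y => C * ((1 + ‖y‖) ^ 0 * ‖H y‖)) ?_ ?_ ?_ ?_
  · exact fun x => (integrable_avg_integrand g H t x).aestronglyMeasurable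
  · intro x
    refine Eventually.of_forall fun y => ?_
    have := hC t le_rfl x y
    simpa using this
  · exact (integrable_one_add_pow_mul H 0).const_mul C
  · refine Eventually.of_forall fun y => ?_
    have := g.continuous
    fun_prop

theorem tendsto_avg [CompleteSpace W] (g : 𝓢(E2, ℂ)) (H : 𝓢(E2, W)) {t : ℕ → ℝ}
    (ht : Tendsto t atTop (𝓝 0)) (ht1 : ∀ N, |t N| ≤ 1) (x : E2) :
    Tendsto (fun N => avg g H (t N) x) atTop (𝓝 (g x • ∫ y, H y)) := by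
  obtain ⟨C, hC0, hC⟩ := norm_smul_decay g H 0 1
  unfold avg
  rw [← integral_smul]
  refine tendsto_integral_of_dominated_convergence (fun y => C * ((1 + ‖y‖) ^ 0 * ‖H y‖))
    ?_ ?_ ?_ ?_
  · exact fun N => (integrable_avg_integrand g H (t N) x).aestronglyMeasurable
  · exact (integrable_one_add_pow_mul H 0).const_mul C
  · intro N
    refine Eventually.of_forall fun y => ?_
    have := hC (t N) (ht1 N) x y
    simpa using this
  · refine Eventually.of_forall fun y => ?_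
    have h1 : Tendsto (fun N => x - t N • y) atTop (𝓝 x) := by
      have := (ht.smul_const y).const_sub x
      simpa using this
    have h2 := (g.continuous.tendsto x).comp h1
    exact h2.smul_const (H y)

theorem lintegral_decay_ne_top {p : ℝ} (hp : 0 < p) {M : ℕ} (hM : 2 < (M : ℝ) * p) {C : ℝ}
    (hC : 0 ≤ C) :
    ∫⁻ x : E2, (ENNReal.ofReal (C * (1 + ‖x‖) ^ (-(M : ℝ)))) ^ p ≠ ⊤ := by
  have h1 : ∀ x : E2, (ENNReal.ofReal (C * (1 + ‖x‖) ^ (-(M : ℝ)))) ^ p =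
      ENNReal.ofReal (C ^ p) * ENNReal.ofReal ((1 + ‖x‖) ^ (-((M : ℝ) * p))) := by
    intro x
    have hx : 0 < 1 + ‖x‖ := by positivity
    rw [ENNReal.ofReal_rpow_of_nonneg (by positivity) hp.le, ← ENNReal.ofReal_mul (by positivity),
      Real.mul_rpow hC (by positivity), ← Real.rpow_mul hx.le]
    congr 2
    ring_nf
  simp_rw [h1]
  rw [lintegral_const_mul' _ _ ENNReal.ofReal_ne_top]
  refine ENNReal.mul_ne_top ENNReal.ofReal_ne_top ?_
  refine (finite_integral_one_add_norm ?_).ne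
  simpa using hM

theorem exists_nat_mul_gt {p : ℝ} (hp : 0 < p) : ∃ M : ℕ, 2 < (M : ℝ) * p := by
  obtain ⟨M, hM⟩ := exists_nat_gt (2 / p)
  exact ⟨M, by rwa [div_lt_iff₀ hp] at hM⟩

theorem tendsto_lintegral_avg [CompleteSpace W] (g : 𝓢(E2, ℂ)) (H : 𝓢(E2, W)) {p : ℝ}
    (hp : 0 < p) {t : ℕ → ℝ} (ht : Tendsto t atTop (𝓝 0)) (ht1 : ∀ N, |t N| ≤ 1) :
    Tendsto (fun N => ∫⁻ x, ‖avg g H (t N) x - g x • ∫ y, H y‖ₑ ^ p) atTop (𝓝 0) := by
  obtain ⟨M, hM⟩ := exists_nat_mul_gt hp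
  obtain ⟨C, hC0, hC⟩ := avg_decay g H M 1
  obtain ⟨C', hC'0, hC'⟩ := schwartz_decay g M
  set J := ∫ y, H y with hJ
  set D := C + C' * ‖J‖ with hD
  have hD0 : 0 ≤ D := by positivity
  have hbound : ∀ N x, ‖avg g H (t N) x - g x • J‖ ≤ D * (1 + ‖x‖) ^ (-(M : ℝ)) := by
    intro N x
    have hx : 0 < 1 + ‖x‖ := by positivity
    have h1 := hC (t N) (ht1 N) x
    have h2 : ‖g x • J‖ ≤ C' * ‖J‖ * (1 + ‖x‖) ^ (-(M : ℝ)) := by
      rw [norm_smul]
      have h3 : ‖g x‖ ≤ C' * (1 + ‖x‖) ^ (-(M : ℝ)) := by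
        rw [Real.rpow_neg hx.le, Real.rpow_natCast, ← div_eq_mul_inv, le_div_iff₀ (by positivity)]
        linarith [hC' x]
      calc ‖g x‖ * ‖J‖ ≤ (C' * (1 + ‖x‖) ^ (-(M : ℝ))) * ‖J‖ := by gcongr
        _ = _ := by ring
    calc ‖avg g H (t N) x - g x • J‖ ≤ ‖avg g H (t N) x‖ + ‖g x • J‖ := norm_sub_le _ _
      _ ≤ C * (1 + ‖x‖) ^ (-(M : ℝ)) + C' * ‖J‖ * (1 + ‖x‖) ^ (-(M : ℝ)) := by gcongr
      _ = _ := by rw [hD]; ring
  have h0 : (0 : ℝ≥0∞) = ∫⁻ _ : E2, 0 := by simp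
  rw [h0]
  have hcont : ∀ N, Continuous fun x => avg g H (t N) x - g x • J := fun N =>
    (continuous_avg g H (t N)).sub (g.continuous.smul continuous_const)
  refine tendsto_lintegral_of_dominated_convergence'
    (fun x => (ENNReal.ofReal (D * (1 + ‖x‖) ^ (-(M : ℝ)))) ^ p) ?_ ?_
    (lintegral_decay_ne_top hp hM hD0) ?_
  · intro N
    exact ((hcont N).enorm.measurable.pow_const p).aemeasurable
  · intro N
    refine Eventually.of_forall fun x => ?_
    refine ENNReal.rpow_le_rpow ?_ hp.le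
    rw [← ofReal_norm]
    exact ENNReal.ofReal_le_ofReal (hbound N x)
  · refine Eventually.of_forall fun x => ?_
    have h1 : Tendsto (fun N => avg g H (t N) x - g x • J) atTop (𝓝 0) := by
      have := (tendsto_avg g H ht ht1 x).sub_const (g x • J)
      rw [← hJ, sub_self] at this
      exact this
    have h2 : Tendsto (fun N => ‖avg g H (t N) x - g x • J‖ₑ) atTop (𝓝 0) := by
      have := h1.enorm
      simpa using this
    have := (ENNReal.continuous_rpow_const (y := p)).tendsto 0 |>.comp h2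
    simpa [ENNReal.zero_rpow_of_pos hp, Function.comp_def] using this

/-- The average of an inverse Fourier transform. -/
theorem avg_fourierInv [CompleteSpace W] (b : 𝓢(E2, ℂ)) (h : 𝓢(E2, W)) (t : ℝ) (x : E2) :
    avg (𝓕⁻ b) (𝓕⁻ h) t x = ∫ η, 𝐞 (inner ℝ η x) • (b η • h (t • η)) := by
  unfold avg
  have h1 : ∀ y, (𝓕⁻ b) (x - t • y) • (𝓕⁻ h) y =
      ∫ η, (𝐞 (inner ℝ η (x - t • y)) • b η) • (𝓕⁻ h) y := by
    intro y
    rw [integral_smul_const, SchwartzMap.fourierInv_coe, Real.fourierInv_eq]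
  simp_rw [h1]
  rw [integral_integral_swap]
  · refine integral_congr_ae (Eventually.of_forall fun η => ?_)
    simp only
    have h2 : (𝓕 (𝓕⁻ h)) (t • η) = ∫ y, 𝐞 (-inner ℝ y (t • η)) • (𝓕⁻ h) y := by
      rw [SchwartzMap.fourier_coe, Real.fourier_eq]
    rw [FourierTransform.fourier_fourierInv_eq] at h2
    rw [h2, ← integral_smul, Circle.smul_def, ← integral_smul]
    refine integral_congr_ae (Eventually.of_forall fun y => ?_)
    simp only
    have h3 : inner ℝ η (x - t • y) = inner ℝ η x + -inner ℝ y (t • η) := by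
      rw [inner_sub_right, inner_smul_right, inner_smul_right, real_inner_comm y η]
      ring
    rw [h3, AddChar.map_add_eq_mul]
    simp only [Circle.smul_def, smul_smul, Circle.coe_mul, smul_eq_mul]
    ring_nf
  · have h4 : Integrable (fun z : E2 × E2 => ‖(𝓕⁻ h) z.1‖ * ‖b z.2‖)
        ((volume : Measure E2).prod volume) :=
      (SchwartzMap.integrable (𝓕⁻ h)).norm.mul_prod b.integrable.norm
    refine h4.mono' ?_ (Eventually.of_forall fun z => ?_)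
    · refine Continuous.aestronglyMeasurable ?_
      have hb := b.continuous
      have hh := (𝓕⁻ h).continuous
      have he : Continuous fun z : E2 × E2 => 𝐞 (inner ℝ z.2 (x - t • z.1)) :=
        Real.continuous_fourierChar.comp (by fun_prop)
      have h5 : Continuous fun z : E2 × E2 => (𝐞 (inner ℝ z.2 (x - t • z.1)) • b z.2) • (𝓕⁻ h) z.1 := by
        fun_prop
      exact h5
    · simp only [Function.uncurry]
      rw [norm_smul, Circle.norm_smul, mul_comm]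

end

end Pool.Agent.Helper826_Riesz
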