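import Mathlib
import Pool.Agent.Helper826_Riesz.Env
import Pool.Agent.Helper826_Riesz.Four

/-!
# High-frequency Riesz systems and plane waves
-/

set_option autoImplicit false
open MeasureTheory Complex Real Filter Topology
open scoped ENNReal NNReal FourierTransform SchwartzMap

namespace Pool.Agent.Helper826_Riesz

/-- Values of Riesz systems: a scalar and its two Riesz transforms. -/
abbrev W3 := ℂ × (Fin 2 → ℂ)

/-- The symbol `(1, -i ξ / |ξ|)` of the system `(f, R₁ f, R₂ f)`. -/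
noncomputable def sig (ξ : E2) : W3 := (1, fun j => -I * ((ξ j / ‖ξ‖ : ℝ) : ℂ))

theorem contDiffAt_sig {ξ : E2} (hξ : ξ ≠ 0) : ContDiffAt ℝ (⊤ : ℕ∞) sig ξ := by
  unfold sig
  refine contDiffAt_const.prodMk (contDiffAt_pi.2 fun j => ?_)
  refine contDiffAt_const.mul ?_
  have h1 : ContDiffAt ℝ (⊤ : ℕ∞) (fun ξ : E2 => ξ j / ‖ξ‖) ξ := by
    refine ContDiffAt.div ?_ (contDiffAt_norm ℝ hξ) (norm_ne_zero_iff.2 hξ)
    exact (contDiff_euclidean.1 contDiff_id j).contDiffAt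
  exact Complex.ofRealCLM.contDiff.contDiffAt.comp ξ h1

theorem sig_smul {t : ℝ} (ht : 0 < t) (ξ : E2) : sig (t • ξ) = sig ξ := by
  unfold sig
  refine Prod.ext rfl (funext fun j => ?_)
  simp only [PiLp.smul_apply, smul_eq_mul, norm_smul, Real.norm_eq_abs, abs_of_pos ht]
  rw [mul_div_mul_left _ _ ht.ne']

theorem norm_sig_le (ξ : E2) : ‖sig ξ‖ ≤ 1 := by
  unfold sig
  rw [Prod.norm_def]
  refine max_le (by simp) ?_
  refine (pi_norm_le_iff_of_nonneg zero_le_one).2 fun j => ?_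
  simp only [norm_mul, norm_neg, Complex.norm_I, one_mul, Complex.norm_real]
  rw [Real.norm_eq_abs, abs_div, abs_norm]
  refine div_le_one_of_le₀ ?_ (norm_nonneg _)
  have := PiLp.norm_apply_le ξ j
  simpa using this

theorem contDiff_smul_sig {b : E2 → ℂ} (hb : ContDiff ℝ (⊤ : ℕ∞) b) {r : ℝ} (hr : 0 < r)
    (h0 : ∀ ξ, ‖ξ‖ ≤ r → b ξ = 0) : ContDiff ℝ (⊤ : ℕ∞) (fun ξ => b ξ • sig ξ) := by
  rw [contDiff_iff_contDiffAt]
  intro ξ
  rcases eq_or_ne ξ 0 with rfl | hξ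
  · have : (fun ξ => b ξ • sig ξ) =ᶠ[𝓝 (0 : E2)] fun _ => 0 := by
      filter_upwards [Metric.ball_mem_nhds (0 : E2) hr] with y hy
      rw [h0 y (by simpa using (mem_ball_zero_iff.1 hy).le), zero_smul]
    exact contDiffAt_const.congr_of_eventuallyEq this
  · exact hb.contDiffAt.smul (contDiffAt_sig hξ)

/-- Fourier transforms of Riesz systems whose frequencies lie in `|ξ| > R`. -/
noncomputable def Ys (R : ℝ) : Submodule ℂ 𝓢(E2, W3) where
  carrier := {s | (∀ ξ, ‖ξ‖ ≤ R → s ξ = 0) ∧ ∀ ξ, s ξ = (s ξ).1 • sig ξ}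
  zero_mem' := ⟨fun _ _ => rfl, fun ξ => by simp⟩
  add_mem' := by
    rintro s t ⟨hs, hs'⟩ ⟨ht, ht'⟩
    refine ⟨fun ξ hξ => ?_, fun ξ => ?_⟩
    · simp [hs ξ hξ, ht ξ hξ]
    · rw [add_apply, Prod.fst_add, add_smul, ← hs' ξ, ← ht' ξ]
  smul_mem' := by
    rintro c s ⟨hs, hs'⟩
    refine ⟨fun ξ hξ => ?_, fun ξ => ?_⟩
    · simp [hs ξ hξ]
    · rw [smul_apply, Prod.smul_fst, smul_assoc, ← hs' ξ]

/-- The inverse Fourier transform as a linear map from Schwartz functions to functions. -/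
noncomputable def invL : 𝓢(E2, W3) →ₗ[ℂ] (E2 → W3) where
  toFun s := ⇑(𝓕⁻ s : 𝓢(E2, W3))
  map_add' s t := by
    rw [FourierTransform.fourierInv_add]
    rfl
  map_smul' c s := by
    rw [FourierTransform.fourierInv_smul]
    rfl

/-- Riesz systems `(f, R₁ f, R₂ f)` with `f` Schwartz and frequencies in `|ξ| > R`. -/
noncomputable def Yf (R : ℝ) : Submodule ℂ (E2 → W3) := (Ys R).map invL

theorem measurable_of_mem_Yf {R : ℝ} {F : E2 → W3} (hF : F ∈ Yf R) : Measurable F := by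
  obtain ⟨s, _, rfl⟩ := hF
  exact (𝓕⁻ s : 𝓢(E2, W3)).continuous.measurable

theorem integral_fourierInv {W : Type*} [NormedAddCommGroup W] [NormedSpace ℂ W]
    [CompleteSpace W] (h : 𝓢(E2, W)) : ∫ y, (𝓕⁻ h) y = h 0 := by
  have h2 : (𝓕 (𝓕⁻ h)) 0 = ∫ y, 𝐞 (-inner ℝ y (0 : E2)) • (𝓕⁻ h) y := by
    rw [SchwartzMap.fourier_coe, Real.fourier_eq]
  rw [FourierTransform.fourier_fourierInv_eq] at h2
  rw [h2]
  simp

theorem abs_inv_natCast_le (N : ℕ) : |((N : ℝ))⁻¹| ≤ 1 := by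
  rw [abs_of_nonneg (by positivity)]
  rcases Nat.eq_zero_or_pos N with rfl | h
  · simp
  · exact inv_le_one_of_one_le₀ (by exact_mod_cast h)

theorem tendsto_inv_natCast : Tendsto (fun N : ℕ => ((N : ℝ))⁻¹) atTop (𝓝 0) :=
  tendsto_inv_atTop_nhds_zero_nat

/-- Indicator functions of sets of finite measure are approximated in `L^p` by functions whose
Fourier transform is smooth with compact support. -/
theorem exists_approx_indicator {A : Set E2} (hA : MeasurableSet A) (hA' : volume A ≠ ⊤)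
    {p : ℝ} (hp : 0 < p) (hp1 : p ≤ 1) {δ : ℝ} (hδ : 0 < δ) :
    ∃ b : 𝓢(E2, ℂ), HasCompactSupport b ∧
      ∫⁻ x, ‖A.indicator (fun _ => (1 : ℂ)) x - (𝓕⁻ b) x‖ₑ ^ p ≤ ENNReal.ofReal δ := by
  set P := ENNReal.ofReal p with hP
  have hP0 : P ≠ 0 := by simp [hP, hp]
  have hPt : P ≠ ⊤ := ENNReal.ofReal_ne_top
  have hPr : P.toReal = p := ENNReal.toReal_ofReal hp.le
  have hconv : ∀ f : E2 → ℂ, ∫⁻ x, ‖f x‖ₑ ^ p = eLpNorm f P volume ^ p := by
    intro f
    rw [eLpNorm_eq_lintegral_rpow_enorm_toReal hP0 hPt, hPr, ← ENNReal.rpow_mul,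
      one_div_mul_cancel hp.ne', ENNReal.rpow_one]
  set ε : ℝ := (δ / 3) ^ (1 / p) with hε
  have hε0 : 0 < ε := by positivity
  have hεp : ENNReal.ofReal ε ^ p = ENNReal.ofReal (δ / 3) := by
    rw [ENNReal.ofReal_rpow_of_nonneg hε0.le hp.le, hε, ← Real.rpow_mul (by positivity),
      one_div_mul_cancel hp.ne', Real.rpow_one]
  obtain ⟨g, hg1, hg2, hg3, hg4⟩ :=
    (memLp_indicator_const P hA (1 : ℂ) (Or.inr hA')).exists_hasCompactSupport_eLpNorm_sub_le
      hPt (ε := ENNReal.ofReal ε) (by simpa using hε0)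
  obtain ⟨g', hg'1, hg'2, hg'3⟩ := hg1.exist_eLpNorm_sub_le_of_continuous volume (p := P) hε0 hg3
  set gs : 𝓢(E2, ℂ) := hg'1.toSchwartzMap hg'2 with hgs
  have hgs' : ∀ x, gs x = g' x := fun x => rfl
  -- the cut-off
  let θ : ContDiffBump (0 : E2) := ⟨1, 2, by norm_num, by norm_num⟩
  have hθc : HasCompactSupport (fun ξ : E2 => ((θ ξ : ℝ) : ℂ)) :=
    θ.hasCompactSupport.comp_left (g := fun r : ℝ => (r : ℂ)) (by simp)
  have hθs : ContDiff ℝ (⊤ : ℕ∞) (fun ξ : E2 => ((θ ξ : ℝ) : ℂ)) :=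
    Complex.ofRealCLM.contDiff.comp θ.contDiff
  set h : 𝓢(E2, ℂ) := hθc.toSchwartzMap hθs with hh
  have hh0 : h 0 = 1 := by
    change ((θ 0 : ℝ) : ℂ) = 1
    rw [θ.one_of_mem_closedBall (by simp [θ])]
    simp
  have hlim := tendsto_lintegral_avg gs (𝓕⁻ h) hp tendsto_inv_natCast abs_inv_natCast_le
  rw [integral_fourierInv, hh0] at hlim
  have hev : ∀ᶠ N : ℕ in atTop, ∫⁻ x, ‖avg gs (𝓕⁻ h) ((N : ℝ)⁻¹) x - gs x • (1 : ℂ)‖ₑ ^ p ≤
      ENNReal.ofReal (δ / 3) :=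
    hlim.eventually (ge_mem_nhds (by simpa using hδ))
  obtain ⟨N, hN, hN1⟩ := (hev.and (eventually_gt_atTop 0)).exists
  set t : ℝ := (N : ℝ)⁻¹ with ht
  have ht0 : t ≠ 0 := by
    rw [ht]
    have : (N : ℝ) ≠ 0 := by exact_mod_cast hN1.ne'
    positivity
  -- the product
  have hbc : HasCompactSupport (fun η : E2 => (𝓕 gs) η * h (t • η)) := by
    refine HasCompactSupport.mul_left ?_
    have h1 : HasCompactSupport h := hθc
    have := h1.comp_homeomorph (Homeomorph.smulOfNeZero t ht0)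
    exact this
  have hbs : ContDiff ℝ (⊤ : ℕ∞) (fun η : E2 => (𝓕 gs) η * h (t • η)) := by
    refine ((𝓕 gs).smooth ⊤).mul ?_
    exact (h.smooth ⊤).comp (contDiff_const_smul t)
  set b : 𝓢(E2, ℂ) := hbc.toSchwartzMap hbs with hb
  refine ⟨b, hbc, ?_⟩
  have hbx : ∀ x, (𝓕⁻ b) x = avg gs (𝓕⁻ h) t x := by
    intro x
    have h1 := avg_fourierInv (𝓕 gs) h t x
    rw [FourierTransform.fourierInv_fourier_eq] at h1
    rw [h1, SchwartzMap.fourierInv_coe, Real.fourierInv_eq]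
    rfl
  have hm1 : Measurable fun x => A.indicator (fun _ => (1 : ℂ)) x - g x :=
    (measurable_const.indicator hA).sub hg3.measurable
  have hm2 : Measurable fun x => g x - g' x := hg3.measurable.sub hg'2.continuous.measurable
  calc ∫⁻ x, ‖A.indicator (fun _ => (1 : ℂ)) x - (𝓕⁻ b) x‖ₑ ^ p
      ≤ ∫⁻ x, (‖A.indicator (fun _ => (1 : ℂ)) x - g x‖ₑ ^ p + (‖g x - g' x‖ₑ ^ p +
          ‖avg gs (𝓕⁻ h) t x - gs x • (1 : ℂ)‖ₑ ^ p)) := by
        refine lintegral_mono fun x => ?_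
        rw [hbx]
        have e : A.indicator (fun _ => (1 : ℂ)) x - avg gs (𝓕⁻ h) t x =
            (A.indicator (fun _ => (1 : ℂ)) x - g x) + ((g x - g' x) +
              -(avg gs (𝓕⁻ h) t x - gs x • (1 : ℂ))) := by
          rw [smul_eq_mul, mul_one, hgs']
          ring
        rw [e]
        calc _ ≤ (‖A.indicator (fun _ => (1 : ℂ)) x - g x‖ₑ + (‖g x - g' x‖ₑ +
              ‖avg gs (𝓕⁻ h) t x - gs x • (1 : ℂ)‖ₑ)) ^ p := by
              refine ENNReal.rpow_le_rpow ?_ hp.le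
              refine (enorm_add_le _ _).trans ?_
              gcongr
              refine (enorm_add_le _ _).trans ?_
              rw [enorm_neg]
          _ ≤ _ := by
              refine (ENNReal.rpow_add_le_add_rpow _ _ hp.le hp1).trans ?_
              gcongr
              exact ENNReal.rpow_add_le_add_rpow _ _ hp.le hp1
    _ = (∫⁻ x, ‖A.indicator (fun _ => (1 : ℂ)) x - g x‖ₑ ^ p) + ((∫⁻ x, ‖g x - g' x‖ₑ ^ p) +
          ∫⁻ x, ‖avg gs (𝓕⁻ h) t x - gs x • (1 : ℂ)‖ₑ ^ p) := by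
        rw [lintegral_add_left (hm1.enorm.pow_const p), lintegral_add_left (hm2.enorm.pow_const p)]
    _ ≤ ENNReal.ofReal (δ / 3) + (ENNReal.ofReal (δ / 3) + ENNReal.ofReal (δ / 3)) := by
        gcongr
        · rw [hconv (fun x => A.indicator (fun _ => (1 : ℂ)) x - g x), ← hεp]
          exact ENNReal.rpow_le_rpow hg2 hp.le
        · rw [hconv (fun x => g x - g' x), ← hεp]
          exact ENNReal.rpow_le_rpow hg'3 hp.le
    _ = ENNReal.ofReal δ := by
        rw [← ENNReal.ofReal_add (by positivity) (by positivity),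
          ← ENNReal.ofReal_add (by positivity) (by positivity)]
        congr 1
        ring

end Pool.Agent.Helper826_Riesz
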