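import Mathlib
import Pool.Agent.Helper826_Riesz.Fld

/-!
# Plane wave systems restricted to sets of finite measure are asymptotically Riesz systems
-/

set_option autoImplicit false
open MeasureTheory Complex Real Filter Topology
open scoped ENNReal NNReal FourierTransform SchwartzMap

namespace Pool.Agent.Helper826_Riesz

/-- The plane wave system of frequency `N k`. -/
noncomputable def pw (k : E2) (c : ℂ) (N : ℕ) (x : E2) : W3 :=
  (c * ew ((N : ℝ) • k) x) • sig k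

theorem continuous_pw (k : E2) (c : ℂ) (N : ℕ) : Continuous (pw k c N) := by
  unfold pw
  exact (continuous_const.mul (continuous_ew _)).smul continuous_const

/-- The cut-off symbol near the frequency `k`. -/
theorem exists_symbol {k : E2} (hk : k ≠ 0) :
    ∃ h : 𝓢(E2, W3), ∀ ζ : E2, ‖ζ‖ ≤ ‖k‖ / 4 → h ζ = sig (k + ζ) := by
  have hk' : 0 < ‖k‖ := norm_pos_iff.2 hk
  let θ : ContDiffBump (0 : E2) := ⟨‖k‖ / 4, ‖k‖ / 2, by positivity, by linarith⟩
  have hθc : HasCompactSupport (fun ζ : E2 => ((θ ζ : ℝ) : ℂ) • sig (k + ζ)) := by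
    have h1 : HasCompactSupport (fun ζ : E2 => ((θ ζ : ℝ) : ℂ)) :=
      θ.hasCompactSupport.comp_left (g := fun r : ℝ => (r : ℂ)) (by simp)
    exact h1.smul_right
  have hθs : ContDiff ℝ (⊤ : ℕ∞) (fun ζ : E2 => ((θ ζ : ℝ) : ℂ) • sig (k + ζ)) := by
    rw [contDiff_iff_contDiffAt]
    intro ζ
    by_cases hζ : ‖ζ‖ < ‖k‖
    · have hne : k + ζ ≠ 0 := by
        intro h0
        have : ζ = -k := by
          rw [eq_neg_iff_add_eq_zero, add_comm]
          exact h0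
        rw [this, norm_neg] at hζ
        exact lt_irrefl _ hζ
      have h1 : ContDiffAt ℝ (⊤ : ℕ∞) (fun ζ : E2 => ((θ ζ : ℝ) : ℂ)) ζ :=
        Complex.ofRealCLM.contDiff.contDiffAt.comp ζ θ.contDiff.contDiffAt
      have h2 : ContDiffAt ℝ (⊤ : ℕ∞) (fun ζ : E2 => sig (k + ζ)) ζ :=
        (contDiffAt_sig hne).comp ζ (contDiff_const.add contDiff_id).contDiffAt
      exact h1.smul h2
    · push Not at hζ
      have : (fun ζ : E2 => ((θ ζ : ℝ) : ℂ) • sig (k + ζ)) =ᶠ[𝓝 ζ] fun _ => 0 := by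
        have hopen : IsOpen {y : E2 | ‖k‖ / 2 < ‖y‖} := isOpen_lt continuous_const continuous_norm
        filter_upwards [hopen.mem_nhds (show ‖k‖ / 2 < ‖ζ‖ by linarith)] with y hy
        have : θ y = 0 := by
          refine θ.zero_of_le_dist ?_
          rw [dist_zero_right]
          exact (le_of_lt hy)
        rw [this]
        simp
      exact contDiffAt_const.congr_of_eventuallyEq this
  refine ⟨hθc.toSchwartzMap hθs, fun ζ hζ => ?_⟩
  change ((θ ζ : ℝ) : ℂ) • sig (k + ζ) = _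
  rw [θ.one_of_mem_closedBall (by rw [mem_closedBall_zero_iff]; exact hζ)]
  simp

/-- The shifted amplitude. -/
theorem exists_shift {k : E2} (hk : k ≠ 0) (c : ℂ) {R : ℝ} (hR : 0 < R) (b : 𝓢(E2, ℂ))
    (hb : HasCompactSupport b) (h : 𝓢(E2, W3))
    (hh : ∀ ζ : E2, ‖ζ‖ ≤ ‖k‖ / 4 → h ζ = sig (k + ζ)) :
    ∀ᶠ N : ℕ in atTop, ∃ F ∈ Yf R, ∀ x,
      F x = (c * ew ((N : ℝ) • k) x) • avg (𝓕⁻ b) (𝓕⁻ h) ((N : ℝ)⁻¹) x := by
  have hk' : 0 < ‖k‖ := norm_pos_iff.2 hk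
  obtain ⟨ρ, hρ⟩ := hb.isCompact.isBounded.subset_closedBall (0 : E2)
  have hbρ : ∀ η : E2, ρ < ‖η‖ → b η = 0 := by
    intro η hη
    refine image_eq_zero_of_notMem_tsupport fun hmem => ?_
    have := hρ hmem
    rw [mem_closedBall_zero_iff] at this
    linarith
  have hev1 : ∀ᶠ N : ℕ in atTop, (ρ + R) / ‖k‖ < (N : ℝ) :=
    tendsto_natCast_atTop_atTop.eventually_gt_atTop _
  have hev2 : ∀ᶠ N : ℕ in atTop, 4 * |ρ| / ‖k‖ < (N : ℝ) :=
    tendsto_natCast_atTop_atTop.eventually_gt_atTop _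
  filter_upwards [hev1, hev2] with N hN1 hN2
  rw [div_lt_iff₀ hk'] at hN1 hN2
  have hN0 : (0 : ℝ) < N := by
    by_contra hcon
    push Not at hcon
    have : 4 * |ρ| < 0 := lt_of_lt_of_le hN2 (by nlinarith)
    linarith [abs_nonneg ρ]
  -- the amplitude
  set a : E2 → ℂ := fun ξ => c * b (ξ - (N : ℝ) • k) with ha
  have ha0 : ∀ ξ, ‖ξ‖ ≤ R → a ξ = 0 := by
    intro ξ hξ
    have h1 : ρ < ‖ξ - (N : ℝ) • k‖ := by
      have h2 : ‖(N : ℝ) • k‖ ≤ ‖ξ‖ + ‖ξ - (N : ℝ) • k‖ := by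
        have := norm_sub_le ξ (ξ - (N : ℝ) • k)
        rwa [sub_sub_cancel] at this
      rw [norm_smul, Real.norm_of_nonneg hN0.le] at h2
      linarith
    simp [ha, hbρ _ h1]
  have has : ContDiff ℝ (⊤ : ℕ∞) a :=
    contDiff_const.mul ((b.smooth ⊤).comp (contDiff_id.sub contDiff_const))
  have hac : HasCompactSupport a := by
    refine HasCompactSupport.mul_left ?_
    have := hb.comp_homeomorph (Homeomorph.subRight ((N : ℝ) • k))
    exact this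
  have hs : ContDiff ℝ (⊤ : ℕ∞) (fun ξ => a ξ • sig ξ) := contDiff_smul_sig has hR ha0
  have hc : HasCompactSupport (fun ξ => a ξ • sig ξ) := hac.smul_right
  set s : 𝓢(E2, W3) := hc.toSchwartzMap hs with hsdef
  have hsx : ∀ ξ, s ξ = a ξ • sig ξ := fun ξ => rfl
  have hmem : s ∈ Ys R := by
    refine ⟨fun ξ hξ => ?_, fun ξ => ?_⟩
    · rw [hsx, ha0 ξ hξ, zero_smul]
    · rw [hsx]
      simp [sig]
  refine ⟨invL s, Submodule.mem_map_of_mem hmem, fun x => ?_⟩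
  change (𝓕⁻ s : 𝓢(E2, W3)) x = _
  rw [SchwartzMap.fourierInv_coe, Real.fourierInv_eq, avg_fourierInv, ← integral_smul]
  rw [← integral_add_right_eq_self _ ((N : ℝ) • k)]
  refine integral_congr_ae (Eventually.of_forall fun η => ?_)
  simp only [hsx, ha, add_sub_cancel_right]
  by_cases hη : ρ < ‖η‖
  · rw [hbρ η hη]
    simp only [mul_zero, zero_smul, Circle.smul_def, smul_zero]
  · push Not at hη
    have h1 : ‖(N : ℝ)⁻¹ • η‖ ≤ ‖k‖ / 4 := by
      rw [norm_smul, norm_inv, Real.norm_of_nonneg hN0.le, inv_mul_eq_div,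
        div_le_iff₀ hN0]
      have := le_abs_self ρ
      linarith
    rw [hh _ h1]
    have h2 : sig (k + (N : ℝ)⁻¹ • η) = sig (η + (N : ℝ) • k) := by
      rw [← sig_smul hN0 (k + (N : ℝ)⁻¹ • η), smul_add, smul_inv_smul₀ hN0.ne', add_comm]
    rw [h2, inner_add_left, AddChar.map_add_eq_mul]
    simp only [ew, Circle.smul_def, smul_smul, Circle.coe_mul]
    congr 1
    ring

theorem enorm_bound {W : Type*} [NormedAddCommGroup W] [NormedSpace ℂ W] {p : ℝ} (hp : 0 < p)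
    (hp1 : p ≤ 1) (a χ d : ℂ) (s T : W) (hs : ‖s‖ₑ ^ p ≤ 1) :
    ‖a • (χ • s) - a • T‖ₑ ^ p ≤ ‖a‖ₑ ^ p * (‖χ - d‖ₑ ^ p + ‖T - d • s‖ₑ ^ p) := by
  have e : a • (χ • s) - a • T = a • ((χ - d) • s + -(T - d • s)) := by
    rw [← smul_sub, sub_smul]
    congr 1
    abel
  rw [e, enorm_smul, ENNReal.mul_rpow_of_nonneg _ _ hp.le]
  gcongr
  calc ‖(χ - d) • s + -(T - d • s)‖ₑ ^ p
      ≤ (‖(χ - d) • s‖ₑ + ‖T - d • s‖ₑ) ^ p := by
        refine ENNReal.rpow_le_rpow ?_ hp.le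
        refine (enorm_add_le _ _).trans ?_
        rw [enorm_neg]
    _ ≤ ‖(χ - d) • s‖ₑ ^ p + ‖T - d • s‖ₑ ^ p := ENNReal.rpow_add_le_add_rpow _ _ hp.le hp1
    _ ≤ ‖χ - d‖ₑ ^ p + ‖T - d • s‖ₑ ^ p := by
        rw [enorm_smul, ENNReal.mul_rpow_of_nonneg _ _ hp.le]
        exact add_le_add_left (mul_le_of_le_one_right' hs) _

theorem null_pw {k : E2} (hk : k ≠ 0) (c : ℂ) {R : ℝ} (hR : 0 < R) {p : ℝ} (hp : 0 < p)
    (hp1 : p ≤ 1) {A : Set E2} (hA : MeasurableSet A) (hA' : volume A ≠ ⊤) :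
    Tendsto (fun N => Dp volume (Yf R) p (A.indicator (pw k c N))) atTop (𝓝 0) := by
  obtain ⟨h, hh⟩ := exists_symbol hk
  have hh0 : h 0 = sig k := by
    rw [hh 0 (by rw [norm_zero]; positivity), add_zero]
  have hK : ‖c‖ₑ ^ p ≠ ⊤ := ENNReal.rpow_ne_top_of_nonneg hp.le (by simp)
  have hsig : ‖sig k‖ₑ ^ p ≤ 1 := by
    have : ‖sig k‖ₑ ≤ 1 := by
      rw [← ofReal_norm, ← ENNReal.ofReal_one]
      exact ENNReal.ofReal_le_ofReal (norm_sig_le k)
    calc ‖sig k‖ₑ ^ p ≤ 1 ^ p := ENNReal.rpow_le_rpow this hp.le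
      _ = 1 := ENNReal.one_rpow p
  -- main estimate
  have key : ∀ δ : ℝ, 0 < δ → ∀ᶠ N : ℕ in atTop,
      Dp volume (Yf R) p (A.indicator (pw k c N)) ≤ ‖c‖ₑ ^ p * ENNReal.ofReal δ := by
    intro δ hδ
    obtain ⟨b, hbc, hb⟩ := exists_approx_indicator hA hA' hp hp1 (half_pos hδ)
    have hlim := tendsto_lintegral_avg (𝓕⁻ b) (𝓕⁻ h) hp tendsto_inv_natCast abs_inv_natCast_le
    rw [integral_fourierInv, hh0] at hlim
    have hev : ∀ᶠ N : ℕ in atTop,
        ∫⁻ x, ‖avg (𝓕⁻ b) (𝓕⁻ h) ((N : ℝ)⁻¹) x - (𝓕⁻ b) x • sig k‖ₑ ^ p ≤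
          ENNReal.ofReal (δ / 2) :=
      hlim.eventually (ge_mem_nhds (by simpa using hδ))
    filter_upwards [hev, exists_shift hk c hR b hbc h hh] with N hN hF
    obtain ⟨F, hF, hFx⟩ := hF
    refine (Dp_le_Np_sub hF).trans ?_
    unfold Np
    have hm : Measurable fun x => ‖A.indicator (fun _ => (1 : ℂ)) x - (𝓕⁻ b) x‖ₑ ^ p :=
      ((measurable_const.indicator hA).sub (𝓕⁻ b).continuous.measurable).enorm.pow_const p
    calc ∫⁻ x, ‖(A.indicator (pw k c N) - F) x‖ₑ ^ p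
        ≤ ∫⁻ x, ‖c‖ₑ ^ p * (‖A.indicator (fun _ => (1 : ℂ)) x - (𝓕⁻ b) x‖ₑ ^ p +
            ‖avg (𝓕⁻ b) (𝓕⁻ h) ((N : ℝ)⁻¹) x - (𝓕⁻ b) x • sig k‖ₑ ^ p) := by
          refine lintegral_mono fun x => ?_
          have e : (A.indicator (pw k c N) - F) x = (c * ew ((N : ℝ) • k) x) •
              (A.indicator (fun _ => (1 : ℂ)) x • sig k) -
                (c * ew ((N : ℝ) • k) x) • avg (𝓕⁻ b) (𝓕⁻ h) ((N : ℝ)⁻¹) x := by
            rw [Pi.sub_apply, hFx]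
            by_cases hx : x ∈ A
            · rw [Set.indicator_of_mem hx, Set.indicator_of_mem hx, one_smul]
              rfl
            · rw [Set.indicator_of_notMem hx, Set.indicator_of_notMem hx, zero_smul, smul_zero]
          have h2 : ‖c * ew ((N : ℝ) • k) x‖ₑ = ‖c‖ₑ := by
            rw [enorm_mul]
            have h1 : ‖ew ((N : ℝ) • k) x‖ₑ = 1 := by
              rw [← ofReal_norm, norm_ew, ENNReal.ofReal_one]
            rw [h1, mul_one]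
          rw [e, ← h2]
          exact enorm_bound hp hp1 _ _ _ _ _ hsig
      _ = ‖c‖ₑ ^ p * ((∫⁻ x, ‖A.indicator (fun _ => (1 : ℂ)) x - (𝓕⁻ b) x‖ₑ ^ p) +
            ∫⁻ x, ‖avg (𝓕⁻ b) (𝓕⁻ h) ((N : ℝ)⁻¹) x - (𝓕⁻ b) x • sig k‖ₑ ^ p) := by
          rw [lintegral_const_mul' _ _ hK, lintegral_add_left hm]
      _ ≤ ‖c‖ₑ ^ p * (ENNReal.ofReal (δ / 2) + ENNReal.ofReal (δ / 2)) := by
          gcongr
      _ = ‖c‖ₑ ^ p * ENNReal.ofReal δ := by
          rw [← ENNReal.ofReal_add (by positivity) (by positivity), add_halves]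
  rw [ENNReal.tendsto_nhds_zero]
  intro ε hε
  rcases eq_or_ne ε ⊤ with rfl | hεt
  · exact Eventually.of_forall fun N => le_top
  set K : ℝ := (‖c‖ₑ ^ p).toReal with hKdef
  have hε' : 0 < ε.toReal := ENNReal.toReal_pos hε.ne' hεt
  have hK0 : 0 ≤ K := ENNReal.toReal_nonneg
  filter_upwards [key (ε.toReal / (K + 1)) (by positivity)] with N hN
  refine hN.trans ?_
  rw [← ENNReal.ofReal_toReal hK, ← ENNReal.ofReal_mul hK0]
  refine ENNReal.ofReal_le_of_le_toReal ?_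
  rw [← mul_div_assoc, div_le_iff₀ (by positivity)]
  nlinarith

end Pool.Agent.Helper826_Riesz
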