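import Mathlib
import Pool.Agent.Helper826_Riesz.Null

/-!
# The rotation step: real plane wave systems move every real vector to the vertical direction
-/

set_option autoImplicit false
open MeasureTheory Complex Real Filter Topology
open scoped ENNReal NNReal FourierTransform SchwartzMap

namespace Pool.Agent.Helper826_Riesz

/-- A bounded sequence of continuous fields whose restrictions to sets of finite measure are
asymptotically in the closure of the space of Riesz systems. -/
structure IsNull (R p : ℝ) (G : ℕ → E2 → W3) : Prop where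
  cont : ∀ N, Continuous (G N)
  bdd : ∃ C : ℝ, ∀ N x, ‖G N x‖ ≤ C
  lim : ∀ A : Set E2, MeasurableSet A → volume A ≠ ⊤ →
    Tendsto (fun N => Dp volume (Yf R) p (A.indicator (G N))) atTop (𝓝 0)

variable {R p : ℝ}

theorem IsNull.zero (hp : 0 < p) : IsNull R p (fun _ _ => 0) where
  cont N := continuous_const
  bdd := ⟨0, fun N x => by simp⟩
  lim A _ _ := by
    have : ∀ N : ℕ, Dp volume (Yf R) p (A.indicator fun _ => (0 : W3)) = 0 := by
      intro N
      have e : (A.indicator fun _ => (0 : W3)) = 0 := by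
        funext x; simp
      rw [e, Dp_zero hp]
    exact (tendsto_const_nhds (x := (0 : ℝ≥0∞))).congr fun N => (this N).symm

theorem IsNull.add (hp : 0 < p) (hp1 : p ≤ 1) {G G' : ℕ → E2 → W3} (h : IsNull R p G)
    (h' : IsNull R p G') : IsNull R p (fun N x => G N x + G' N x) where
  cont N := (h.cont N).add (h'.cont N)
  bdd := by
    obtain ⟨C, hC⟩ := h.bdd
    obtain ⟨C', hC'⟩ := h'.bdd
    exact ⟨C + C', fun N x => (norm_add_le _ _).trans (add_le_add (hC N x) (hC' N x))⟩
  lim A hA hA' := by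
    have h1 := (h.lim A hA hA').add (h'.lim A hA hA')
    rw [add_zero] at h1
    refine tendsto_of_tendsto_of_tendsto_of_le_of_le tendsto_const_nhds h1
      (fun N => bot_le) (fun N => ?_)
    have e : (A.indicator fun x => G N x + G' N x) = A.indicator (G N) + A.indicator (G' N) := by
      funext x
      by_cases hx : x ∈ A <;> simp [hx]
    simp only
    rw [e]
    exact Dp_add_le hp.le hp1 (fun F hF => measurable_of_mem_Yf hF)
      ((h.cont N).measurable.indicator hA)

theorem IsNull.sum (hp : 0 < p) (hp1 : p ≤ 1) {ι : Type*} (s : Finset ι)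
    {G : ι → ℕ → E2 → W3} (h : ∀ i ∈ s, IsNull R p (G i)) :
    IsNull R p (fun N x => ∑ i ∈ s, G i N x) := by
  classical
  induction s using Finset.induction_on with
  | empty => simpa using IsNull.zero hp
  | insert a s ha ih =>
    have h1 := (h a (Finset.mem_insert_self a s)).add hp hp1
      (ih fun i hi => h i (Finset.mem_insert_of_mem hi))
    simpa [Finset.sum_insert ha] using h1

theorem isNull_pw (hR : 0 < R) (hp : 0 < p) (hp1 : p ≤ 1) {k : E2} (hk : k ≠ 0) (c : ℂ) :
    IsNull R p (pw k c) where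
  cont := continuous_pw k c
  bdd := ⟨‖c‖, fun N x => by
    unfold pw
    rw [norm_smul, norm_mul, norm_ew, mul_one]
    exact mul_le_of_le_one_right (norm_nonneg _) (norm_sig_le k)⟩
  lim A hA hA' := null_pw hk c hR hp hp1 hA hA'

/-- Real vectors. -/
noncomputable def vec (a : ℝ) (b : E2) : W3 := ((a : ℂ), fun j => ((b j : ℝ) : ℂ))

theorem vec_add (a a' : ℝ) (b b' : E2) : vec a b + vec a' b' = vec (a + a') (b + b') := by
  unfold vec
  refine Prod.ext (by simp) (funext fun j => ?_)
  simp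

theorem vec_sub (a a' : ℝ) (b b' : E2) : vec a b - vec a' b' = vec (a - a') (b - b') := by
  unfold vec
  refine Prod.ext (by simp) (funext fun j => ?_)
  simp

theorem smul_vec (t a : ℝ) (b : E2) : (t : ℂ) • vec a b = vec (t * a) (t • b) := by
  unfold vec
  refine Prod.ext (by simp) (funext fun j => ?_)
  simp

theorem vec_sum {ι : Type*} (s : Finset ι) (a : ι → ℝ) (b : ι → E2) :
    ∑ i ∈ s, vec (a i) (b i) = vec (∑ i ∈ s, a i) (∑ i ∈ s, b i) := by
  classical
  induction s using Finset.induction_on with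
  | empty =>
    unfold vec
    refine Prod.ext (by simp) (funext fun j => ?_)
    simp
  | insert i s hi ih =>
    rw [Finset.sum_insert hi, Finset.sum_insert hi, Finset.sum_insert hi, ih, vec_add]

theorem norm_vec_zero_le (b : E2) : ‖vec 0 b‖ ≤ ‖b‖ := by
  unfold vec
  rw [Prod.norm_def]
  refine max_le (by simp) ?_
  refine (pi_norm_le_iff_of_nonneg (norm_nonneg _)).2 fun j => ?_
  simp only [Complex.norm_real]
  exact PiLp.norm_apply_le b j

theorem norm_vec_one : ‖vec 1 0‖ = 1 := by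
  unfold vec
  rw [Prod.norm_def]
  simp

/-- The real plane wave system. -/
noncomputable def rpw (k : E2) (c : ℂ) (N : ℕ) (x : E2) : W3 :=
  vec (c * ew ((N : ℝ) • k) x).re (((c * ew ((N : ℝ) • k) x).im / ‖k‖) • k)

theorem rpw_eq (k : E2) (c : ℂ) (N : ℕ) (x : E2) :
    rpw k c N x = pw k (c / 2) N x + pw (-k) ((starRingEnd ℂ) c / 2) N x := by
  unfold rpw pw vec sig
  rw [smul_neg, ew_neg, norm_neg]
  generalize hz : ew ((N : ℝ) • k) x = z
  have h1 : c * z = ((c * z).re : ℂ) + ((c * z).im : ℂ) * I := (Complex.re_add_im _).symm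
  have h2 : (starRingEnd ℂ) c * (starRingEnd ℂ) z = ((c * z).re : ℂ) - ((c * z).im : ℂ) * I := by
    rw [← map_mul]
    apply Complex.ext
    · simp
    · simp
      ring
  have h3 : c / 2 * z = (c * z) / 2 := by ring
  have h4 : (starRingEnd ℂ) c / 2 * (starRingEnd ℂ) z =
      ((starRingEnd ℂ) c * (starRingEnd ℂ) z) / 2 := by ring
  rw [h3, h4, h2]
  generalize (c * z).im = y at *
  generalize (c * z).re = w at *
  rw [h1]
  refine Prod.ext ?_ (funext fun j => ?_)
  · simp only [Prod.fst_add, Prod.smul_fst, smul_eq_mul]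
    ring
  · simp only [Prod.snd_add, Prod.smul_snd, Pi.add_apply, Pi.smul_apply, smul_eq_mul,
      PiLp.smul_apply, PiLp.neg_apply]
    push_cast
    ring_nf
    rw [I_sq]
    ring

theorem isNull_rpw (hR : 0 < R) (hp : 0 < p) (hp1 : p ≤ 1) {k : E2} (hk : k ≠ 0) (c : ℂ) :
    IsNull R p (rpw k c) := by
  have h := (isNull_pw hR hp hp1 hk (c / 2)).add hp hp1
    (isNull_pw hR hp hp1 (neg_ne_zero.2 hk) ((starRingEnd ℂ) c / 2))
  have e : rpw k c = fun N x => pw k (c / 2) N x + pw (-k) ((starRingEnd ℂ) c / 2) N x := by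
    funext N x
    exact rpw_eq k c N x
  rw [e]
  exact h

/-- The envelope of the space of Riesz systems. -/
noncomputable def Ph (R p : ℝ) (v : W3) : ℝ≥0∞ := Phi volume (Yf R) p v

theorem Ph_le_of_isNull (hp : 0 < p) (hp1 : p ≤ 1) {G : ℕ → E2 → W3} (hG : IsNull R p G)
    {v : W3} {c : ℝ≥0∞}
    (hbound : ∀ A : Set E2, MeasurableSet A → volume A ≠ ⊤ → ∀ ε : ℝ≥0∞, ε ≠ 0 →
      ∀ᶠ N in atTop, ∫⁻ x in A, Ph R p (v + G N x) ≤ c * volume A + ε) :
    Ph R p v ≤ c := by
  refine Phi_le_of_null hp hp1 (fun F hF => measurable_of_mem_Yf hF)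
    (fun N => (hG.cont N).measurable) hG.lim ?_ hbound
  intro A hA hA' N
  obtain ⟨C, hC⟩ := hG.bdd
  have h1 : ∫⁻ x in A, ‖v + G N x‖ₑ ^ p ≤ ∫⁻ x in A, (ENNReal.ofReal (‖v‖ + C)) ^ p := by
    refine lintegral_mono fun x => ENNReal.rpow_le_rpow ?_ hp.le
    rw [← ofReal_norm]
    refine ENNReal.ofReal_le_ofReal ((norm_add_le _ _).trans ?_)
    gcongr
    exact hC N x
  refine ne_top_of_le_ne_top ?_ h1
  rw [lintegral_const]
  refine ENNReal.mul_ne_top (ENNReal.rpow_ne_top_of_nonneg hp.le ENNReal.ofReal_ne_top) ?_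
  simpa using hA'

theorem Ph_vec_smul_le (hp : 0 < p) (a : ℝ) :
    Ph R p (vec a 0) ≤ Ph R p (vec 1 0) * ENNReal.ofReal (|a| ^ p) := by
  have e : vec a 0 = (a : ℂ) • vec 1 0 := by
    rw [smul_vec]
    simp
  unfold Ph
  rw [e]
  refine (Phi_smul_le hp _ _).trans ?_
  rw [mul_comm]
  gcongr
  rw [← ofReal_norm, Complex.norm_real, Real.norm_eq_abs,
    ENNReal.ofReal_rpow_of_nonneg (abs_nonneg _) hp.le]

theorem Ph_vec_one_le (hp : 0 < p) : Ph R p (vec 1 0) ≤ 1 := by
  refine (Phi_le hp _).trans ?_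
  rw [← ofReal_norm, norm_vec_one, ENNReal.ofReal_one, ENNReal.one_rpow]

theorem Ph_vec_le (hp : 0 < p) (hp1 : p ≤ 1) (a : ℝ) (b : E2) :
    Ph R p (vec a b) ≤ Ph R p (vec 1 0) * ENNReal.ofReal (|a| ^ p) + ENNReal.ofReal (‖b‖ ^ p) := by
  have e : vec a b = vec a 0 + vec 0 b := by
    rw [vec_add]
    simp
  rw [e]
  refine (Phi_add_le hp hp1 (fun F hF => measurable_of_mem_Yf hF) _ _).trans ?_
  refine add_le_add (Ph_vec_smul_le hp a) ((Phi_le hp _).trans ?_)
  rw [← ofReal_norm, ENNReal.ofReal_rpow_of_nonneg (norm_nonneg _) hp.le]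
  exact ENNReal.ofReal_le_ofReal (Real.rpow_le_rpow (norm_nonneg _) (norm_vec_zero_le b) hp.le)

end Pool.Agent.Helper826_Riesz
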