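import Mathlib
import Pool.Agent.Helper826_Riesz.Rot

/-!
# The rotation step, continued: the half-plane map
-/

set_option autoImplicit false
open MeasureTheory Complex Real Filter Topology
open scoped ENNReal NNReal FourierTransform SchwartzMap

namespace Pool.Agent.Helper826_Riesz

theorem integrable_comp_ew {κ : E2} {A : Set E2} (hA' : volume A ≠ ⊤) {g : ℂ → ℝ}
    (hg : ContinuousOn g (Metric.closedBall 0 1)) (N : ℕ) :
    Integrable (fun x => g (ew ((N : ℝ) • κ) x)) (volume.restrict A) := by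
  have hfin : IsFiniteMeasure (volume.restrict A) := ⟨by simpa using hA'.lt_top⟩
  have hmem : ∀ x : E2, ew ((N : ℝ) • κ) x ∈ Metric.closedBall (0 : ℂ) 1 := by
    intro x
    rw [mem_closedBall_zero_iff, norm_ew]
  obtain ⟨C, hC⟩ := (isCompact_closedBall (0 : ℂ) 1).exists_bound_of_continuousOn hg
  refine Integrable.of_bound (C := C) ?_ ?_
  · exact (hg.comp_continuous (continuous_ew _) hmem).aestronglyMeasurable
  · exact Eventually.of_forall fun x => hC _ (hmem x)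

theorem real_rpow_add_le {a b p : ℝ} (ha : 0 ≤ a) (hb : 0 ≤ b) (hp : 0 ≤ p) (hp1 : p ≤ 1) :
    (a + b) ^ p ≤ a ^ p + b ^ p := by
  have := NNReal.rpow_add_le_add_rpow ⟨a, ha⟩ ⟨b, hb⟩ hp hp1
  exact_mod_cast this

/-- The function `-i F_r`, where `F_r` maps the unit disc into the half-plane. -/
noncomputable def be1 (x₀ y₀ r : ℝ) (ζ : ℂ) : ℂ :=
  (y₀ : ℂ) * ((1 + r * ζ) / (1 - r * ζ)) - I * x₀

theorem one_sub_ne_zero {r : ℝ} (hr0 : 0 < r) {ζ : ℂ} (hζ : ‖ζ‖ < r⁻¹) :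
    0 < (1 - (r : ℂ) * ζ).re := by
  have h1 : ‖(r : ℂ) * ζ‖ < 1 := by
    rw [norm_mul, Complex.norm_real, Real.norm_of_nonneg hr0.le]
    calc r * ‖ζ‖ < r * r⁻¹ := by gcongr
      _ = 1 := mul_inv_cancel₀ hr0.ne'
  have h2 := Complex.re_le_norm ((r : ℂ) * ζ)
  rw [Complex.sub_re, Complex.one_re]
  linarith

theorem ne_zero_of_re_pos {z : ℂ} (h : 0 < z.re) : z ≠ 0 := by
  rintro rfl
  simp at h

theorem mobius_re {q : ℂ} (hq : 1 - q ≠ 0) :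
    ((1 + q) / (1 - q)).re = (1 - ‖q‖ ^ 2) / ‖1 - q‖ ^ 2 := by
  have h1 : (1 + q) / (1 - q) = (1 + q) * (starRingEnd ℂ) (1 - q) / ((‖1 - q‖ ^ 2 : ℝ) : ℂ) := by
    rw [div_eq_div_iff hq]
    · rw [← Complex.normSq_eq_norm_sq, mul_assoc, mul_comm ((starRingEnd ℂ) (1 - q)),
        Complex.mul_conj]
    · have : ‖1 - q‖ ≠ 0 := norm_ne_zero_iff.2 hq
      exact_mod_cast pow_ne_zero 2 this
  rw [h1, Complex.div_ofReal_re, ← Complex.normSq_eq_norm_sq q, Complex.normSq_apply]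
  simp
  ring

theorem differentiableOn_be1 (x₀ y₀ : ℝ) {r : ℝ} (hr0 : 0 < r) :
    DifferentiableOn ℂ (be1 x₀ y₀ r) (Metric.ball 0 r⁻¹) := by
  unfold be1
  intro ζ hζ
  have h := ne_zero_of_re_pos (one_sub_ne_zero hr0 (mem_ball_zero_iff.1 hζ))
  refine DifferentiableAt.differentiableWithinAt ?_
  fun_prop (disch := exact h)

theorem be1_re_pos (x₀ : ℝ) {y₀ r : ℝ} (hy : 0 < y₀) (hr0 : 0 < r) {ζ : ℂ}
    (hζ : ‖ζ‖ < r⁻¹) : 0 < (be1 x₀ y₀ r ζ).re := by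
  have h := ne_zero_of_re_pos (one_sub_ne_zero hr0 hζ)
  have h1 : ‖(r : ℂ) * ζ‖ < 1 := by
    rw [norm_mul, Complex.norm_real, Real.norm_of_nonneg hr0.le]
    calc r * ‖ζ‖ < r * r⁻¹ := by gcongr
      _ = 1 := mul_inv_cancel₀ hr0.ne'
  unfold be1
  rw [Complex.sub_re, Complex.re_ofReal_mul, mobius_re h]
  have h2 : (I * (x₀ : ℂ)).re = 0 := by simp
  rw [h2, sub_zero]
  have h3 : 0 < ‖1 - (r : ℂ) * ζ‖ := norm_pos_iff.2 h
  have h4 : ‖(r : ℂ) * ζ‖ ^ 2 < 1 := by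
    have := norm_nonneg ((r : ℂ) * ζ)
    nlinarith
  have h5 : 0 < 1 - ‖(r : ℂ) * ζ‖ ^ 2 := by linarith
  positivity

theorem be1_re_of_norm_one (x₀ y₀ : ℝ) {r : ℝ} (hr0 : 0 < r) (hr1 : r < 1) {ζ : ℂ}
    (hζ : ‖ζ‖ = 1) :
    (be1 x₀ y₀ r ζ).re = y₀ * ((1 - r ^ 2) / ‖1 - (r : ℂ) * ζ‖ ^ 2) := by
  have hζ' : ‖ζ‖ < r⁻¹ := by
    rw [hζ]
    exact (one_lt_inv₀ hr0).2 hr1
  have h := ne_zero_of_re_pos (one_sub_ne_zero hr0 hζ')
  unfold be1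
  rw [Complex.sub_re, Complex.re_ofReal_mul, mobius_re h]
  have h2 : (I * (x₀ : ℂ)).re = 0 := by simp
  rw [h2, sub_zero, norm_mul, hζ, Complex.norm_real, mul_one, Real.norm_eq_abs, sq_abs]

/-- The truncated analytic polynomial. -/
noncomputable def wJ (x₀ y₀ r : ℝ) (J : ℕ) (ζ : ℂ) : ℂ :=
  (x₀ + y₀ * I) + ∑ j ∈ Finset.range J, 2 * I * y₀ * (r : ℂ) ^ (j + 1) * ζ ^ (j + 1)

theorem I_mul_be1_sub_wJ (x₀ : ℝ) {y₀ r : ℝ} (hy : 0 < y₀) (hr0 : 0 < r) (hr1 : r < 1) (J : ℕ)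
    {ζ : ℂ} (hζ : ‖ζ‖ = 1) :
    ‖I * be1 x₀ y₀ r ζ - wJ x₀ y₀ r J ζ‖ ≤ 2 * y₀ * r ^ (J + 1) / (1 - r) := by
  have hζ' : ‖ζ‖ < r⁻¹ := by
    rw [hζ]
    exact (one_lt_inv₀ hr0).2 hr1
  have h := ne_zero_of_re_pos (one_sub_ne_zero hr0 hζ')
  have hq1 : ‖(r : ℂ) * ζ‖ = r := by
    rw [norm_mul, hζ, mul_one, Complex.norm_real, Real.norm_of_nonneg hr0.le]
  generalize hq : (r : ℂ) * ζ = q at *
  have hne : q ≠ 1 := by
    intro h1
    apply h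
    rw [h1, sub_self]
  have hsum : ∑ j ∈ Finset.range J, 2 * I * y₀ * (r : ℂ) ^ (j + 1) * ζ ^ (j + 1) =
      2 * I * y₀ * (q * ((1 - q ^ J) / (1 - q))) := by
    have h1 : ∀ j ∈ Finset.range J, 2 * I * y₀ * (r : ℂ) ^ (j + 1) * ζ ^ (j + 1) =
        2 * I * y₀ * q * q ^ j := by
      intro j _
      rw [← hq, mul_pow]
      ring
    rw [Finset.sum_congr rfl h1, ← Finset.mul_sum, geom_sum_eq hne]
    have h2 : (q ^ J - 1) / (q - 1) = (1 - q ^ J) / (1 - q) := by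
      rw [div_eq_div_iff (sub_ne_zero.2 hne) h]
      ring
    rw [h2]
    ring
  have e : I * be1 x₀ y₀ r ζ - wJ x₀ y₀ r J ζ = 2 * I * y₀ * (q ^ (J + 1) / (1 - q)) := by
    unfold be1 wJ
    rw [hsum, hq]
    field_simp
    ring_nf
    rw [I_sq]
    ring
  rw [e]
  simp only [norm_mul, norm_div, norm_pow, Complex.norm_I, Complex.norm_real, hq1]
  have h3 : 1 - r ≤ ‖1 - q‖ := by
    have := norm_sub_norm_le (1 : ℂ) q
    rw [norm_one, hq1] at this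
    exact this
  have h4 : 0 < 1 - r := by linarith
  rw [Real.norm_of_nonneg hy.le]
  have h5 : ‖(2 : ℂ)‖ = 2 := by simp
  rw [h5]
  calc 2 * 1 * y₀ * (r ^ (J + 1) / ‖1 - q‖) ≤ 2 * 1 * y₀ * (r ^ (J + 1) / (1 - r)) := by gcongr
    _ = _ := by ring

end Pool.Agent.Helper826_Riesz
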