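import Mathlib
import Pool.Agent.Helper826_Riesz.Rot2

/-!
# The rotation step, conclusion
-/

set_option autoImplicit false
open MeasureTheory Complex Real Filter Topology
open scoped ENNReal NNReal FourierTransform SchwartzMap

namespace Pool.Agent.Helper826_Riesz

variable {R p : ℝ}

/-- The field built from `wJ`. -/
noncomputable def GJ (κ : E2) (y₀ r : ℝ) (J : ℕ) (N : ℕ) (x : E2) : W3 :=
  ∑ j ∈ Finset.range J, rpw (((j + 1 : ℕ) : ℝ) • κ) (2 * I * y₀ * (r : ℂ) ^ (j + 1)) N x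

theorem isNull_GJ (hR : 0 < R) (hp : 0 < p) (hp1 : p ≤ 1) {κ : E2} (hκ : κ ≠ 0) (y₀ r : ℝ)
    (J : ℕ) : IsNull R p (GJ κ y₀ r J) := by
  unfold GJ
  refine IsNull.sum hp hp1 _ fun j _ => isNull_rpw hR hp hp1 (smul_ne_zero ?_ hκ) _
  exact_mod_cast Nat.succ_ne_zero j

theorem vec_add_GJ {κ : E2} (hκ : ‖κ‖ = 1) (x₀ y₀ r : ℝ) (J N : ℕ) (x : E2) :
    vec x₀ (y₀ • κ) + GJ κ y₀ r J N x =
      vec (wJ x₀ y₀ r J (ew ((N : ℝ) • κ) x)).re
        ((wJ x₀ y₀ r J (ew ((N : ℝ) • κ) x)).im • κ) := by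
  unfold GJ rpw wJ
  rw [vec_sum, vec_add]
  have h1 : ∀ j : ℕ, ew ((N : ℝ) • ((j + 1 : ℕ) : ℝ) • κ) x = ew ((N : ℝ) • κ) x ^ (j + 1) := by
    intro j
    rw [ew_pow, smul_comm]
  have h2 : ∀ (j : ℕ) (y : ℝ), (y / ‖((j + 1 : ℕ) : ℝ) • κ‖) • ((j + 1 : ℕ) : ℝ) • κ = y • κ := by
    intro j y
    rw [norm_smul, hκ, mul_one, Real.norm_of_nonneg (by positivity), smul_smul,
      div_mul_cancel₀]
    exact_mod_cast Nat.succ_ne_zero j
  simp_rw [h1, h2]
  congr 1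
  · simp [Complex.re_sum]
  · rw [← Finset.sum_smul, ← add_smul]
    congr 1
    simp [Complex.im_sum]

theorem exists_half {ε : ℝ≥0∞} (hε : ε ≠ 0) :
    ∃ δ : ℝ, 0 < δ ∧ ENNReal.ofReal δ + ENNReal.ofReal δ ≤ ε := by
  rcases eq_or_ne ε ⊤ with rfl | hεt
  · exact ⟨1, one_pos, le_top⟩
  · have h : 0 < ε.toReal := ENNReal.toReal_pos hε hεt
    refine ⟨ε.toReal / 2, by positivity, ?_⟩
    rw [← ENNReal.ofReal_add (by positivity) (by positivity), add_halves,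
      ENNReal.ofReal_toReal hεt]

theorem norm_be1_zero (x₀ y₀ r : ℝ) : ‖be1 x₀ y₀ r 0‖ = ‖(x₀ + y₀ * I : ℂ)‖ := by
  unfold be1
  have : (y₀ : ℂ) * ((1 + r * 0) / (1 - r * 0)) - I * x₀ = -I * (x₀ + y₀ * I) := by
    ring_nf
    rw [I_sq]
    ring
  rw [this, norm_mul]
  simp

/-- The quantitative rotation step. -/
theorem Ph_rot_aux (hR : 0 < R) (hp : 0 < p) (hp2 : p < 1 / 2) {κ : E2} (hκ : ‖κ‖ = 1) (x₀ : ℝ)
    {y₀ r : ℝ} (hy : 0 < y₀) (hr0 : 0 < r) (hr1 : r < 1) (J : ℕ) :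
    Ph R p (vec x₀ (y₀ • κ)) ≤
      Ph R p (vec 1 0) * ENNReal.ofReal (‖(x₀ + y₀ * I : ℂ)‖ ^ p / Real.cos (p * (π / 2))) +
      ENNReal.ofReal ((y₀ * (1 - r ^ 2)) ^ p / Real.cos (-(2 * p) * (π / 2)) +
        2 * (2 * y₀ * r ^ (J + 1) / (1 - r)) ^ p) := by
  have hp1 : p ≤ 1 := by linarith
  have hκ0 : κ ≠ 0 := by
    intro h
    rw [h, norm_zero] at hκ
    exact zero_ne_one hκ
  set V := Ph R p (vec 1 0) with hV
  have hV1 : V ≤ 1 := Ph_vec_one_le hp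
  set η : ℝ := 2 * y₀ * r ^ (J + 1) / (1 - r) with hη
  have h1r : 0 < 1 - r := by linarith
  have hη0 : 0 ≤ η := by positivity
  set Cr : ℝ := (y₀ * (1 - r ^ 2)) ^ p with hCr
  have hr2 : 0 < 1 - r ^ 2 := by nlinarith
  have hCr0 : 0 ≤ Cr := by positivity
  set a : ℝ := ‖(x₀ + y₀ * I : ℂ)‖ ^ p / Real.cos (p * (π / 2)) with ha
  have hc1 : 0 < Real.cos (p * (π / 2)) :=
    cos_pos_of_abs_lt_one (by rw [abs_of_pos hp]; linarith)
  have hs2 : |-(2 * p)| < 1 := by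
    rw [abs_neg, abs_of_pos (by linarith)]
    linarith
  have hc2 : 0 < Real.cos (-(2 * p) * (π / 2)) := cos_pos_of_abs_lt_one hs2
  have ha0 : 0 ≤ a := by positivity
  set c2 := Real.cos (-(2 * p) * (π / 2)) with hc2def
  have hRinv : 1 < r⁻¹ := (one_lt_inv₀ hr0).2 hr1
  refine Ph_le_of_isNull hp hp1 (isNull_GJ hR hp hp1 hκ0 y₀ r J) ?_
  intro A hA hA' ε hε
  obtain ⟨δ, hδ, hδε⟩ := exists_half hε
  have hev1 := eventually_integral_rpow_le hκ0 hA hA' hRinv (differentiableOn_be1 x₀ y₀ hr0)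
    (fun ζ hζ => be1_re_pos x₀ hy hr0 (mem_ball_zero_iff.1 hζ))
    (s := p) (by rw [abs_of_pos hp]; linarith) hδ
  have hev2 := eventually_integral_rpow_le hκ0 hA hA' hRinv
    (β := fun ζ => 1 - (r : ℂ) * ζ) (by fun_prop)
    (fun ζ hζ => one_sub_ne_zero hr0 (mem_ball_zero_iff.1 hζ))
    (s := -(2 * p)) hs2 (ε := δ / (Cr + 1)) (by positivity)
  filter_upwards [hev1, hev2] with N hN1 hN2
  rw [norm_be1_zero] at hN1
  simp only [mul_zero, sub_zero, norm_one, Real.one_rpow] at hN2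
  rw [← hc2def] at hN2
  rw [← ha] at hN1
  set m : ℝ := (volume A).toReal with hm
  have hm0 : 0 ≤ m := ENNReal.toReal_nonneg
  have hmA : volume A = ENNReal.ofReal m := (ENNReal.ofReal_toReal hA').symm
  -- continuity of the two integrands
  have hball : Metric.closedBall (0 : ℂ) 1 ⊆ Metric.ball 0 r⁻¹ :=
    Metric.closedBall_subset_ball hRinv
  have hg1 : ContinuousOn (fun ζ => ‖be1 x₀ y₀ r ζ‖ ^ p) (Metric.closedBall 0 1) := by
    refine ContinuousOn.rpow_const ?_ (fun ζ _ => Or.inr hp.le)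
    exact ((differentiableOn_be1 x₀ y₀ hr0).continuousOn.mono hball).norm
  have hg2 : ContinuousOn (fun ζ => Cr * ‖1 - (r : ℂ) * ζ‖ ^ (-(2 * p)) + 2 * η ^ p)
      (Metric.closedBall 0 1) := by
    refine ((ContinuousOn.rpow_const ?_ (fun ζ hζ => Or.inl ?_)).const_mul Cr |>.add
      continuousOn_const)
    · fun_prop
    · exact norm_ne_zero_iff.2 (ne_zero_of_re_pos
        (one_sub_ne_zero hr0 (mem_ball_zero_iff.1 (hball hζ))))
  have hg3 : ContinuousOn (fun ζ => ‖1 - (r : ℂ) * ζ‖ ^ (-(2 * p)))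
      (Metric.closedBall 0 1) := by
    refine ContinuousOn.rpow_const ?_ (fun ζ hζ => Or.inl ?_)
    · fun_prop
    · exact norm_ne_zero_iff.2 (ne_zero_of_re_pos
        (one_sub_ne_zero hr0 (mem_ball_zero_iff.1 (hball hζ))))
  have hi1 := integrable_comp_ew (κ := κ) hA' hg1 N
  have hi2 := integrable_comp_ew (κ := κ) hA' hg2 N
  have hi3 := integrable_comp_ew (κ := κ) hA' hg3 N
  have hnn2 : ∀ ζ : ℂ, 0 ≤ Cr * ‖1 - (r : ℂ) * ζ‖ ^ (-(2 * p)) + 2 * η ^ p := by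
    intro ζ
    positivity
  -- the pointwise bound
  have hpt : ∀ x, Ph R p (vec x₀ (y₀ • κ) + GJ κ y₀ r J N x) ≤
      V * ENNReal.ofReal (‖be1 x₀ y₀ r (ew ((N : ℝ) • κ) x)‖ ^ p) +
      ENNReal.ofReal (Cr * ‖1 - (r : ℂ) * ew ((N : ℝ) • κ) x‖ ^ (-(2 * p)) + 2 * η ^ p) := by
    intro x
    rw [vec_add_GJ hκ]
    have hζ : ‖ew ((N : ℝ) • κ) x‖ = 1 := norm_ew _ _
    generalize ew ((N : ℝ) • κ) x = ζ at hζ
    have hdiff := I_mul_be1_sub_wJ x₀ hy hr0 hr1 J hζ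
    rw [← hη] at hdiff
    set w := wJ x₀ y₀ r J ζ with hw
    set B := be1 x₀ y₀ r ζ with hB
    have hre : |w.re| ≤ ‖B‖ + η := by
      have h1 : |(I * B - w).re| ≤ η := (Complex.abs_re_le_norm _).trans hdiff
      have h2 : |(I * B).re| ≤ ‖B‖ := by
        refine (Complex.abs_re_le_norm _).trans ?_
        rw [norm_mul, Complex.norm_I, one_mul]
      have h3 : w.re = (I * B).re - (I * B - w).re := by
        rw [Complex.sub_re]; ring
      rw [h3]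
      exact (abs_sub _ _).trans (add_le_add h2 h1)
    have him : |w.im| ≤ B.re + η := by
      have h1 : |(I * B - w).im| ≤ η := (Complex.abs_im_le_norm _).trans hdiff
      have h2 : (I * B).im = B.re := by simp
      have h3 : w.im = B.re - (I * B - w).im := by
        rw [Complex.sub_im, h2]; ring
      have h4 : 0 ≤ B.re := (be1_re_pos x₀ hy hr0 (by rw [hζ]; exact hRinv)).le
      rw [h3]
      refine (abs_sub _ _).trans ?_
      rw [abs_of_nonneg h4]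
      exact add_le_add le_rfl h1
    have hBre : B.re ^ p = Cr * ‖1 - (r : ℂ) * ζ‖ ^ (-(2 * p)) := by
      rw [hB, be1_re_of_norm_one x₀ y₀ hr0 hr1 hζ, ← mul_div_assoc,
        Real.div_rpow (by positivity) (by positivity), hCr, Real.rpow_neg (norm_nonneg _),
        ← div_eq_mul_inv]
      congr 1
      rw [Real.rpow_mul (norm_nonneg _), Real.rpow_two]
    have hB0 : 0 ≤ B.re := (be1_re_pos x₀ hy hr0 (by rw [hζ]; exact hRinv)).le
    refine (Ph_vec_le hp hp1 _ _).trans ?_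
    have h5 : |w.re| ^ p ≤ ‖B‖ ^ p + η ^ p :=
      (Real.rpow_le_rpow (abs_nonneg _) hre hp.le).trans
        (real_rpow_add_le (norm_nonneg _) hη0 hp.le hp1)
    have h6 : ‖w.im • κ‖ ^ p ≤ Cr * ‖1 - (r : ℂ) * ζ‖ ^ (-(2 * p)) + η ^ p := by
      rw [norm_smul, hκ, mul_one, Real.norm_eq_abs, ← hBre]
      exact (Real.rpow_le_rpow (abs_nonneg _) him hp.le).trans
        (real_rpow_add_le hB0 hη0 hp.le hp1)
    calc V * ENNReal.ofReal (|w.re| ^ p) + ENNReal.ofReal (‖w.im • κ‖ ^ p)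
        ≤ V * ENNReal.ofReal (‖B‖ ^ p + η ^ p) +
          ENNReal.ofReal (Cr * ‖1 - (r : ℂ) * ζ‖ ^ (-(2 * p)) + η ^ p) := by gcongr
      _ = (V * ENNReal.ofReal (‖B‖ ^ p) + V * ENNReal.ofReal (η ^ p)) +
          ENNReal.ofReal (Cr * ‖1 - (r : ℂ) * ζ‖ ^ (-(2 * p)) + η ^ p) := by
          rw [ENNReal.ofReal_add (by positivity) (by positivity), mul_add]
      _ ≤ (V * ENNReal.ofReal (‖B‖ ^ p) + 1 * ENNReal.ofReal (η ^ p)) +
          ENNReal.ofReal (Cr * ‖1 - (r : ℂ) * ζ‖ ^ (-(2 * p)) + η ^ p) := by gcongr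
      _ = V * ENNReal.ofReal (‖B‖ ^ p) +
          ENNReal.ofReal (Cr * ‖1 - (r : ℂ) * ζ‖ ^ (-(2 * p)) + 2 * η ^ p) := by
          rw [one_mul, add_assoc, ← ENNReal.ofReal_add (by positivity) (by positivity)]
          congr 2
          ring
  have hVt : V ≠ ⊤ := ne_top_of_le_ne_top ENNReal.one_ne_top hV1
  have hI1 : ∫⁻ x in A, ENNReal.ofReal (‖be1 x₀ y₀ r (ew ((N : ℝ) • κ) x)‖ ^ p) ≤
      ENNReal.ofReal (a * m + δ) := by
    rw [← ofReal_integral_eq_lintegral_ofReal hi1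
      (Eventually.of_forall fun x => by positivity)]
    exact ENNReal.ofReal_le_ofReal hN1
  have hI2 : ∫⁻ x in A, ENNReal.ofReal
      (Cr * ‖1 - (r : ℂ) * ew ((N : ℝ) • κ) x‖ ^ (-(2 * p)) + 2 * η ^ p) ≤
      ENNReal.ofReal ((Cr / c2 + 2 * η ^ p) * m + δ) := by
    rw [← ofReal_integral_eq_lintegral_ofReal hi2
      (Eventually.of_forall fun x => hnn2 _)]
    refine ENNReal.ofReal_le_ofReal ?_
    rw [integral_add (hi3.const_mul Cr) ?_, integral_const_mul]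
    · have h7 : ∫ x in A, (2 * η ^ p) = 2 * η ^ p * m := by
        rw [setIntegral_const]
        simp [Measure.real, hm, mul_comm]
      rw [h7]
      have h8 : Cr * ∫ x in A, ‖1 - (r : ℂ) * ew ((N : ℝ) • κ) x‖ ^ (-(2 * p)) ≤
          Cr * (1 / c2 * m + δ / (Cr + 1)) := by gcongr
      have h9 : Cr * (δ / (Cr + 1)) ≤ δ := by
        rw [← mul_div_assoc, div_le_iff₀ (by positivity)]
        nlinarith
      have h10 : Cr * (1 / c2 * m + δ / (Cr + 1)) = Cr / c2 * m + Cr * (δ / (Cr + 1)) := by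
        ring
      linarith
    · have hfin : IsFiniteMeasure (volume.restrict A) := ⟨by simpa using hA'.lt_top⟩
      exact integrable_const _
  calc ∫⁻ x in A, Ph R p (vec x₀ (y₀ • κ) + GJ κ y₀ r J N x)
      ≤ ∫⁻ x in A, (V * ENNReal.ofReal (‖be1 x₀ y₀ r (ew ((N : ℝ) • κ) x)‖ ^ p) +
        ENNReal.ofReal (Cr * ‖1 - (r : ℂ) * ew ((N : ℝ) • κ) x‖ ^ (-(2 * p)) + 2 * η ^ p)) :=
        lintegral_mono fun x => hpt x
    _ = V * (∫⁻ x in A, ENNReal.ofReal (‖be1 x₀ y₀ r (ew ((N : ℝ) • κ) x)‖ ^ p)) +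
        ∫⁻ x in A, ENNReal.ofReal
          (Cr * ‖1 - (r : ℂ) * ew ((N : ℝ) • κ) x‖ ^ (-(2 * p)) + 2 * η ^ p) := by
        rw [lintegral_add_right' _ hi2.aestronglyMeasurable.aemeasurable.ennreal_ofReal,
          lintegral_const_mul' _ _ hVt]
    _ ≤ V * ENNReal.ofReal (a * m + δ) + ENNReal.ofReal ((Cr / c2 + 2 * η ^ p) * m + δ) := by
        gcongr
    _ = V * ENNReal.ofReal a * ENNReal.ofReal m + V * ENNReal.ofReal δ +
        (ENNReal.ofReal (Cr / c2 + 2 * η ^ p) * ENNReal.ofReal m + ENNReal.ofReal δ) := by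
        rw [ENNReal.ofReal_add (by positivity) hδ.le, ENNReal.ofReal_add (by positivity) hδ.le,
          ENNReal.ofReal_mul ha0, ENNReal.ofReal_mul (by positivity), mul_add, mul_assoc]
    _ ≤ V * ENNReal.ofReal a * ENNReal.ofReal m + 1 * ENNReal.ofReal δ +
        (ENNReal.ofReal (Cr / c2 + 2 * η ^ p) * ENNReal.ofReal m + ENNReal.ofReal δ) := by
        gcongr
    _ = (V * ENNReal.ofReal a + ENNReal.ofReal (Cr / c2 + 2 * η ^ p)) * volume A +
        (ENNReal.ofReal δ + ENNReal.ofReal δ) := by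
        rw [hmA, one_mul]
        ring
    _ ≤ _ := by gcongr

end Pool.Agent.Helper826_Riesz
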