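import Mathlib
import Pool.Agent.Helper826_Riesz.Rot3
import Pool.Agent.Helper826_Riesz.Ptw

/-!
# The envelope vanishes for small `p`
-/

set_option autoImplicit false
open MeasureTheory Complex Real Filter Topology
open scoped ENNReal NNReal FourierTransform SchwartzMap

namespace Pool.Agent.Helper826_Riesz

variable {R p : ℝ}

theorem Ph_rot (hR : 0 < R) (hp : 0 < p) (hp2 : p < 1 / 2) {κ : E2} (hκ : ‖κ‖ = 1) (x₀ : ℝ)
    {y₀ : ℝ} (hy : 0 < y₀) :
    Ph R p (vec x₀ (y₀ • κ)) ≤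
      Ph R p (vec 1 0) * ENNReal.ofReal (‖(x₀ + y₀ * I : ℂ)‖ ^ p / Real.cos (p * (π / 2))) := by
  set a := Ph R p (vec 1 0) *
    ENNReal.ofReal (‖(x₀ + y₀ * I : ℂ)‖ ^ p / Real.cos (p * (π / 2))) with ha
  -- first let `J → ∞`
  have h1 : ∀ r : ℝ, 0 < r → r < 1 → Ph R p (vec x₀ (y₀ • κ)) ≤
      a + ENNReal.ofReal ((y₀ * (1 - r ^ 2)) ^ p / Real.cos (-(2 * p) * (π / 2))) := by
    intro r hr0 hr1
    have hlim : Tendsto (fun J : ℕ => a + ENNReal.ofReal
        ((y₀ * (1 - r ^ 2)) ^ p / Real.cos (-(2 * p) * (π / 2)) +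
          2 * (2 * y₀ * r ^ (J + 1) / (1 - r)) ^ p)) atTop
        (𝓝 (a + ENNReal.ofReal ((y₀ * (1 - r ^ 2)) ^ p / Real.cos (-(2 * p) * (π / 2)) +
          2 * (0 : ℝ) ^ p))) := by
      refine Tendsto.const_add _ (ENNReal.tendsto_ofReal (Tendsto.const_add _
        (Tendsto.const_mul _ ?_)))
      refine Filter.Tendsto.rpow_const ?_ (Or.inr hp.le)
      have h2 : Tendsto (fun J : ℕ => r ^ (J + 1)) atTop (𝓝 0) :=
        (tendsto_pow_atTop_nhds_zero_of_lt_one hr0.le hr1).comp (tendsto_add_atTop_nat 1)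
      have h3 := (h2.const_mul (2 * y₀)).div_const (1 - r)
      simpa using h3
    rw [Real.zero_rpow hp.ne', mul_zero, add_zero] at hlim
    exact ge_of_tendsto' hlim fun J => Ph_rot_aux hR hp hp2 hκ x₀ hy hr0 hr1 J
  -- now let `r → 1`
  have hr : Tendsto (fun n : ℕ => 1 - ((n : ℝ) + 2)⁻¹) atTop (𝓝 1) := by
    have h2 : Tendsto (fun n : ℕ => ((n : ℝ) + 2)⁻¹) atTop (𝓝 0) := by
      have := tendsto_inv_atTop_zero.comp
        (tendsto_atTop_add_const_right atTop (2 : ℝ) tendsto_natCast_atTop_atTop)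
      exact this
    have := h2.const_sub 1
    simpa using this
  have hlim : Tendsto (fun n : ℕ => a + ENNReal.ofReal
      ((y₀ * (1 - (1 - ((n : ℝ) + 2)⁻¹) ^ 2)) ^ p / Real.cos (-(2 * p) * (π / 2)))) atTop
      (𝓝 (a + ENNReal.ofReal ((0 : ℝ) ^ p / Real.cos (-(2 * p) * (π / 2))))) := by
    refine Tendsto.const_add _ (ENNReal.tendsto_ofReal (Tendsto.div_const ?_ _))
    refine Filter.Tendsto.rpow_const ?_ (Or.inr hp.le)
    have h3 := ((hr.pow 2).const_sub 1).const_mul y₀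
    simpa using h3
  rw [Real.zero_rpow hp.ne', zero_div, ENNReal.ofReal_zero, add_zero] at hlim
  refine ge_of_tendsto' hlim fun n => h1 _ ?_ ?_
  · have : ((n : ℝ) + 2)⁻¹ < 1 := by
      refine inv_lt_one_of_one_lt₀ ?_
      have : (0 : ℝ) ≤ n := Nat.cast_nonneg n
      linarith
    linarith
  · have : 0 < ((n : ℝ) + 2)⁻¹ := by positivity
    linarith

theorem norm_rpow_eq (a b p : ℝ) : ‖(a + b * I : ℂ)‖ ^ p = (a ^ 2 + b ^ 2) ^ (p / 2) := by
  rw [Complex.norm_add_mul_I, Real.sqrt_eq_rpow, ← Real.rpow_mul (by positivity)]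
  congr 1
  ring

theorem Ph_vec (hR : 0 < R) (hp : 0 < p) (hp2 : p < 1 / 2) (a : ℝ) (b : E2) :
    Ph R p (vec a b) ≤ Ph R p (vec 1 0) *
      ENNReal.ofReal ((a ^ 2 + ‖b‖ ^ 2) ^ (p / 2) / Real.cos (p * (π / 2))) := by
  have hc : 0 < Real.cos (p * (π / 2)) :=
    cos_pos_of_abs_lt_one (by rw [abs_of_pos hp]; linarith)
  rcases eq_or_ne b 0 with rfl | hb
  · refine (Ph_vec_smul_le hp a).trans ?_
    gcongr
    rw [le_div_iff₀ hc, norm_zero]
    have h1 : |a| ^ p = (a ^ 2 + 0 ^ 2) ^ (p / 2) := by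
      rw [← norm_rpow_eq a 0 p]
      simp
    rw [h1]
    exact mul_le_of_le_one_right (by positivity) (Real.cos_le_one _)
  · have hb' : 0 < ‖b‖ := norm_pos_iff.2 hb
    have h := Ph_rot hR hp hp2 (κ := ‖b‖⁻¹ • b)
      (by rw [norm_smul, norm_inv, norm_norm, inv_mul_cancel₀ hb'.ne']) a hb'
    rw [smul_inv_smul₀ hb'.ne', norm_rpow_eq] at h
    exact h

theorem norm_comb (a b : ℝ) : ‖a • κ₁ + b • κ₂‖ = Real.sqrt ((3 * a) ^ 2 + (4 * b) ^ 2) := by
  rw [EuclideanSpace.norm_eq]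
  congr 1
  simp [κ₁, κ₂, Fin.sum_univ_two]
  ring

theorem norm_κ₁ : ‖κ₁‖ = 3 := by
  have := norm_comb 1 0
  rw [one_smul, zero_smul, add_zero] at this
  rw [this, Real.sqrt_eq_iff_mul_self_eq_of_pos (by norm_num)]
  norm_num

theorem norm_κ₂ : ‖κ₂‖ = 4 := by
  have := norm_comb 0 1
  rw [one_smul, zero_smul, zero_add] at this
  rw [this, Real.sqrt_eq_iff_mul_self_eq_of_pos (by norm_num)]
  norm_num

theorem norm_κ₁_add : ‖κ₁ + κ₂‖ = 5 := by
  have := norm_comb 1 1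
  rw [one_smul, one_smul] at this
  rw [this, Real.sqrt_eq_iff_mul_self_eq_of_pos (by norm_num)]
  norm_num

theorem norm_κ₁_sub : ‖κ₁ - κ₂‖ = 5 := by
  have := norm_comb 1 (-1)
  rw [one_smul, neg_smul, one_smul, ← sub_eq_add_neg] at this
  rw [this, Real.sqrt_eq_iff_mul_self_eq_of_pos (by norm_num)]
  norm_num

theorem κ₁_ne : κ₁ ≠ 0 := by
  rw [← norm_ne_zero_iff, norm_κ₁]; norm_num
theorem κ₂_ne : κ₂ ≠ 0 := by
  rw [← norm_ne_zero_iff, norm_κ₂]; norm_num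
theorem κ₁_add_ne : κ₁ + κ₂ ≠ 0 := by
  rw [← norm_ne_zero_iff, norm_κ₁_add]; norm_num
theorem κ₁_sub_ne : κ₁ - κ₂ ≠ 0 := by
  rw [← norm_ne_zero_iff, norm_κ₁_sub]; norm_num

/-- The perturbing field in the vertical direction. -/
noncomputable def GV (e : ℝ) (N : ℕ) (x : E2) : W3 :=
  (rpw κ₁ e N x + rpw κ₂ e N x) + (rpw (κ₁ + κ₂) (e / 2 : ℝ) N x + rpw (κ₁ - κ₂) (e / 2 : ℝ) N x)

theorem isNull_GV (hR : 0 < R) (hp : 0 < p) (hp1 : p ≤ 1) (e : ℝ) : IsNull R p (GV e) :=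
  ((isNull_rpw hR hp hp1 κ₁_ne _).add hp hp1 (isNull_rpw hR hp hp1 κ₂_ne _)).add hp hp1
    ((isNull_rpw hR hp hp1 κ₁_add_ne _).add hp hp1 (isNull_rpw hR hp hp1 κ₁_sub_ne _))

theorem rpw_real (k : E2) (c : ℝ) (N : ℕ) (x : E2) :
    rpw k c N x = vec (c * Real.cos (2 * π * inner ℝ ((N : ℝ) • k) x))
      ((c * Real.sin (2 * π * inner ℝ ((N : ℝ) • k) x) / ‖k‖) • k) := by
  unfold rpw
  rw [Complex.re_ofReal_mul, Complex.im_ofReal_mul, ew_re, ew_im]

theorem vec_add_GV (e : ℝ) (N : ℕ) (x : E2) :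
    ∃ b : E2, vec 1 0 + GV e N x =
      vec (1 + e * ww (Real.cos (al N x)) (Real.cos (be N x))) b ∧
      (1 + e * ww (Real.cos (al N x)) (Real.cos (be N x))) ^ 2 + ‖b‖ ^ 2 = SS e N x := by
  have ha : 2 * π * inner ℝ ((N : ℝ) • κ₁) x = al N x := rfl
  have hb : 2 * π * inner ℝ ((N : ℝ) • κ₂) x = be N x := rfl
  have hab : 2 * π * inner ℝ ((N : ℝ) • (κ₁ + κ₂)) x = al N x + be N x := by
    rw [← ha, ← hb, smul_add, inner_add_left]
    ring
  have hab' : 2 * π * inner ℝ ((N : ℝ) • (κ₁ - κ₂)) x = al N x - be N x := by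
    rw [← ha, ← hb, smul_sub, inner_sub_left]
    ring
  unfold GV
  rw [rpw_real, rpw_real, rpw_real, rpw_real, hab, hab', ha, hb, norm_κ₁, norm_κ₂, norm_κ₁_add,
    norm_κ₁_sub, vec_add, vec_add, vec_add, vec_add]
  refine ⟨0 + ((e * Real.sin (al N x) / 3) • κ₁ + (e * Real.sin (be N x) / 4) • κ₂ +
    ((e / 2 * Real.sin (al N x + be N x) / 5) • (κ₁ + κ₂) +
      (e / 2 * Real.sin (al N x - be N x) / 5) • (κ₁ - κ₂))), ?_, ?_⟩
  · congr 1
    unfold ww
    rw [Real.cos_add, Real.cos_sub]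
    ring
  · rw [EuclideanSpace.real_norm_sq_eq, Fin.sum_univ_two]
    unfold SS
    simp only [PiLp.add_apply, PiLp.smul_apply, PiLp.zero_apply, PiLp.sub_apply, smul_eq_mul,
      κ₁, κ₂]
    simp only [Real.sin_add, Real.sin_sub]
    simp
    ring

theorem Ph_vertical (hR : 0 < R) (hp : 0 < p) (hp2 : p < 1 / 2) {e : ℝ} (he : 0 < e)
    (he' : e ≤ 1 / 1000)
    (hθ : 0 ≤ 1 + p / 2 * (-2 / 5 * e ^ 3 + 5500 * e ^ 4) + p ^ 2 / 4) :
    Ph R p (vec 1 0) ≤ Ph R p (vec 1 0) *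
      ENNReal.ofReal ((1 + p / 2 * (-2 / 5 * e ^ 3 + 5500 * e ^ 4) + p ^ 2 / 4) /
        Real.cos (p * (π / 2))) := by
  have hp1 : p ≤ 1 := by linarith
  have hc : 0 < Real.cos (p * (π / 2)) :=
    cos_pos_of_abs_lt_one (by rw [abs_of_pos hp]; linarith)
  set c := Real.cos (p * (π / 2)) with hcdef
  set θ := 1 + p / 2 * (-2 / 5 * e ^ 3 + 5500 * e ^ 4) + p ^ 2 / 4 with hθdef
  set V := Ph R p (vec 1 0) with hV
  have hV1 : V ≤ 1 := Ph_vec_one_le hp
  have hVt : V ≠ ⊤ := ne_top_of_le_ne_top ENNReal.one_ne_top hV1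
  refine Ph_le_of_isNull hp hp1 (isNull_GV hR hp hp1 e) ?_
  intro A hA hA' ε hε
  obtain ⟨δ, hδ, hδε⟩ := exists_half hε
  filter_upwards [eventually_integral_SS_le he he' hp hp1 hA hA'
    (show 0 < δ * c by positivity)] with N hN
  rw [← hθdef] at hN
  set m : ℝ := (volume A).toReal with hm
  have hm0 : 0 ≤ m := ENNReal.toReal_nonneg
  have hmA : volume A = ENNReal.ofReal m := (ENNReal.ofReal_toReal hA').symm
  have hfin : IsFiniteMeasure (volume.restrict A) := ⟨by simpa using hA'.lt_top⟩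
  have hcont : Continuous fun x => SS e N x ^ (p / 2) :=
    (continuous_SS e N).rpow_const fun x => Or.inr (by positivity)
  have hint : Integrable (fun x => SS e N x ^ (p / 2)) (volume.restrict A) := by
    have hb := (meanTo_Lm e).bdd
    obtain ⟨C, hC⟩ := hb
    refine Integrable.of_bound (C := 1 + p / 2 * (C + 5500 * e ^ 4) + p ^ 2 / 4)
      hcont.aestronglyMeasurable (Eventually.of_forall fun x => ?_)
    rw [Real.norm_of_nonneg (Real.rpow_nonneg (SS_nonneg e N x) _)]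
    have h1 := ptw_bound (c := Real.cos (al N x)) (s := Real.sin (al N x))
      (C := Real.cos (be N x)) (S := Real.sin (be N x)) he he' hp hp1
      (Real.cos_sq_add_sin_sq _) (Real.cos_sq_add_sin_sq _)
    have h2 : Lm e (Real.cos (al N x)) (Real.cos (be N x)) ≤ C :=
      (le_abs_self _).trans (hC N x)
    unfold SS
    refine h1.trans ?_
    gcongr
  have hpt : ∀ x, Ph R p (vec 1 0 + GV e N x) ≤
      V * ENNReal.ofReal (SS e N x ^ (p / 2) / c) := by
    intro x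
    obtain ⟨b, hb1, hb2⟩ := vec_add_GV e N x
    rw [hb1, ← hb2]
    exact Ph_vec hR hp hp2 _ _
  calc ∫⁻ x in A, Ph R p (vec 1 0 + GV e N x)
      ≤ ∫⁻ x in A, V * ENNReal.ofReal (SS e N x ^ (p / 2) / c) := lintegral_mono fun x => hpt x
    _ = V * ENNReal.ofReal ((∫ x in A, SS e N x ^ (p / 2)) / c) := by
        rw [lintegral_const_mul' _ _ hVt, ← ofReal_integral_eq_lintegral_ofReal
          (hint.div_const c) (Eventually.of_forall fun x => by
            have := Real.rpow_nonneg (SS_nonneg e N x) (p / 2)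
            positivity), integral_div]
    _ ≤ V * ENNReal.ofReal (θ / c * m + δ) := by
        gcongr
        rw [div_le_iff₀ hc]
        calc ∫ x in A, SS e N x ^ (p / 2) ≤ θ * m + δ * c := hN
          _ = (θ / c * m + δ) * c := by field_simp
    _ = V * ENNReal.ofReal (θ / c) * ENNReal.ofReal m + V * ENNReal.ofReal δ := by
        rw [ENNReal.ofReal_add (by positivity) hδ.le, ENNReal.ofReal_mul (by positivity), mul_add,
          mul_assoc]
    _ ≤ V * ENNReal.ofReal (θ / c) * volume A + ε := by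
        rw [← hmA]
        gcongr
        calc V * ENNReal.ofReal δ ≤ 1 * ENNReal.ofReal δ := by gcongr
          _ = ENNReal.ofReal δ := one_mul _
          _ ≤ ENNReal.ofReal δ + ENNReal.ofReal δ := le_self_add
          _ ≤ ε := hδε

/-- A concrete size of the perturbation. -/
noncomputable def e₀ : ℝ := 1 / 30000

/-- The threshold for the exponent. -/
noncomputable def p₀ : ℝ := (2 / 5 * e₀ ^ 3 - 5500 * e₀ ^ 4) / 3

theorem p₀_pos : 0 < p₀ := by unfold p₀ e₀; norm_num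

theorem p₀_lt : p₀ < 1 / 2 := by unfold p₀ e₀; norm_num

/-- The envelope vanishes in the vertical direction. -/
theorem Ph_vec_one_eq_zero (hR : 0 < R) (hp : 0 < p) (hp0 : p < p₀) : Ph R p (vec 1 0) = 0 := by
  have hp2 : p < 1 / 2 := hp0.trans p₀_lt
  have he : (0 : ℝ) < e₀ := by unfold e₀; norm_num
  have he' : e₀ ≤ 1 / 1000 := by unfold e₀; norm_num
  have hκ : p₀ = (2 / 5 * e₀ ^ 3 - 5500 * e₀ ^ 4) / 3 := rfl
  have hsmall : p₀ < 1 / 100 := by unfold p₀ e₀; norm_num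
  have hp0' : 0 < p₀ := p₀_pos
  have hθ : 0 ≤ 1 + p / 2 * (-2 / 5 * e₀ ^ 3 + 5500 * e₀ ^ 4) + p ^ 2 / 4 := by
    have h1 : -2 / 5 * e₀ ^ 3 + 5500 * e₀ ^ 4 = -(3 * p₀) := by rw [hκ]; ring
    rw [h1]
    nlinarith
  have h := Ph_vertical hR hp hp2 he he' hθ
  have h1 : -2 / 5 * e₀ ^ 3 + 5500 * e₀ ^ 4 = -(3 * p₀) := by rw [hκ]; ring
  rw [h1] at h
  have hcos : 1 - (p * (π / 2)) ^ 2 / 2 ≤ Real.cos (p * (π / 2)) :=
    Real.one_sub_sq_div_two_le_cos
  have hpi : π ^ 2 < 10 := by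
    have := Real.pi_lt_d2
    have := Real.pi_pos
    nlinarith
  have hlt : 1 + p / 2 * (-(3 * p₀)) + p ^ 2 / 4 < Real.cos (p * (π / 2)) := by
    have h3 : (p * (π / 2)) ^ 2 / 2 = p ^ 2 * π ^ 2 / 8 := by ring
    rw [h3] at hcos
    have h4 : p ^ 2 * π ^ 2 / 8 < p ^ 2 * 10 / 8 := by
      have : 0 < p ^ 2 := by positivity
      nlinarith
    nlinarith
  have hc : 0 < Real.cos (p * (π / 2)) :=
    cos_pos_of_abs_lt_one (by rw [abs_of_pos hp]; linarith)
  have hq : (1 + p / 2 * (-(3 * p₀)) + p ^ 2 / 4) / Real.cos (p * (π / 2)) < 1 :=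
    (div_lt_one hc).2 hlt
  have hq' : ENNReal.ofReal ((1 + p / 2 * (-(3 * p₀)) + p ^ 2 / 4) / Real.cos (p * (π / 2))) < 1 := by
    rw [← ENNReal.ofReal_one]
    exact (ENNReal.ofReal_lt_ofReal_iff one_pos).2 hq
  have hV1 : Ph R p (vec 1 0) ≤ 1 := Ph_vec_one_le hp
  have hVt : Ph R p (vec 1 0) ≠ ⊤ := ne_top_of_le_ne_top ENNReal.one_ne_top hV1
  by_contra hne
  have h5 : Ph R p (vec 1 0) * ENNReal.ofReal
      ((1 + p / 2 * (-(3 * p₀)) + p ^ 2 / 4) / Real.cos (p * (π / 2))) <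
      Ph R p (vec 1 0) * 1 := by
    exact (ENNReal.mul_lt_mul_iff_right hne hVt).2 hq'
  rw [mul_one] at h5
  exact absurd h (not_le.2 h5)

/-- The envelope vanishes identically. -/
theorem Ph_eq_zero (hR : 0 < R) (hp : 0 < p) (hp0 : p < p₀) (v : W3) : Ph R p v = 0 := by
  have hp2 : p < 1 / 2 := hp0.trans p₀_lt
  have hp1 : p ≤ 1 := by linarith
  have hreal : ∀ (a : ℝ) (b : E2), Ph R p (vec a b) = 0 := by
    intro a b
    have := Ph_vec hR hp hp2 a b
    rw [Ph_vec_one_eq_zero hR hp hp0, zero_mul] at this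
    exact le_antisymm this bot_le
  set v1 : W3 := vec v.1.re (WithLp.toLp 2 fun j => (v.2 j).re) with hv1
  set v2 : W3 := vec v.1.im (WithLp.toLp 2 fun j => (v.2 j).im) with hv2
  have e : v = v1 + I • v2 := by
    refine Prod.ext ?_ (funext fun j => ?_)
    · simp only [hv1, hv2, vec, Prod.fst_add, Prod.smul_fst, smul_eq_mul]
      rw [mul_comm, Complex.re_add_im]
    · simp only [hv1, hv2, vec, Prod.snd_add, Prod.smul_snd, Pi.add_apply, Pi.smul_apply,
        smul_eq_mul]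
      rw [mul_comm, Complex.re_add_im]
  refine le_antisymm ?_ bot_le
  calc Ph R p v = Ph R p (v1 + I • v2) := by rw [← e]
    _ ≤ Ph R p v1 + Ph R p (I • v2) :=
        Phi_add_le hp hp1 (fun F hF => measurable_of_mem_Yf hF) _ _
    _ ≤ Ph R p v1 + ‖I‖ₑ ^ p * Ph R p v2 := by
        gcongr
        exact Phi_smul_le hp _ _
    _ = 0 := by rw [hv1, hv2, hreal, hreal, mul_zero, add_zero]

/-- **Density of high-frequency Riesz systems in `L^p` for small `p`.** -/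
theorem Dp_eq_zero (hR : 0 < R) (hp : 0 < p) (hp0 : p < p₀) {K : E2 → W3} (hK : Measurable K)
    (hKp : Np volume p K ≠ ⊤) : Dp volume (Yf R) p K = 0 := by
  have hp1 : p ≤ 1 := by linarith [p₀_lt]
  refine le_antisymm ?_ bot_le
  refine (Dp_le_lintegral hp hp1 (fun F hF => measurable_of_mem_Yf hF) hK hKp).trans ?_
  have : ∀ x, Phi volume (Yf R) p (K x) = 0 := fun x => Ph_eq_zero hR hp hp0 (K x)
  simp [this]

end Pool.Agent.Helper826_Riesz
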