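import Mathlib
import Pool.Agent.Helper826_Riesz.Vert

/-!
# The Riesz transforms do not characterise `H^p(ℝ²)` for small `p`
-/

set_option autoImplicit false
open MeasureTheory Complex Real Filter Topology
open scoped ENNReal NNReal FourierTransform SchwartzMap

namespace Pool.Agent.Helper826_Riesz

theorem conv_eq_avg (f φ : 𝓢(E2, ℂ)) {t : ℝ} (ht : 0 < t) (x : E2) :
    ∫ y, (((t ^ 2)⁻¹ : ℝ) : ℂ) * φ (t⁻¹ • (x - y)) * f y = avg f φ t x := by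
  unfold avg
  set g : E2 → ℂ := fun z => f (x - z) * φ (t⁻¹ • z) with hg
  have h1 : ∫ y, f (x - t • y) • φ y = ∫ y, g (t • y) := by
    refine integral_congr_ae (Eventually.of_forall fun y => ?_)
    simp only [hg, smul_eq_mul]
    rw [inv_smul_smul₀ ht.ne']
  rw [h1, Measure.integral_comp_smul volume g t, ← integral_sub_left_eq_self g volume x]
  simp only [finrank_euclideanSpace, Fintype.card_fin]
  rw [abs_of_pos (by positivity), ← integral_smul]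
  refine integral_congr_ae (Eventually.of_forall fun y => ?_)
  simp only [Complex.real_smul, hg, sub_sub_cancel]
  ring

theorem integrable_char_smul {W : Type*} [NormedAddCommGroup W] [NormedSpace ℂ W]
    (s : 𝓢(E2, W)) (x : E2) : Integrable (fun v => 𝐞 (inner ℝ v x) • s v) := by
  refine s.integrable.norm.mono' ?_ (Eventually.of_forall fun v => ?_)
  · refine Continuous.aestronglyMeasurable ?_
    have h1 : Continuous fun v : E2 => 𝐞 (inner ℝ v x) :=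
      Real.continuous_fourierChar.comp (by fun_prop)
    have h2 := s.continuous
    fun_prop
  · rw [Circle.norm_smul]

theorem clm_fourierInv (L : W3 →L[ℂ] ℂ) (s : 𝓢(E2, W3)) (x : E2) :
    L ((𝓕⁻ s : 𝓢(E2, W3)) x) = (𝓕⁻ (s.postcompCLM L) : 𝓢(E2, ℂ)) x := by
  rw [SchwartzMap.fourierInv_coe, SchwartzMap.fourierInv_coe, Real.fourierInv_eq,
    Real.fourierInv_eq, ← L.integral_comp_comm (integrable_char_smul s x)]
  refine integral_congr_ae (Eventually.of_forall fun v => ?_)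
  simp only [SchwartzMap.postcompCLM_apply, Circle.smul_def, map_smul]

/-- The scalar component. -/
noncomputable def L0 : W3 →L[ℂ] ℂ := ContinuousLinearMap.fst ℂ ℂ (Fin 2 → ℂ)
/-- The vector components. -/
noncomputable def L1 (j : Fin 2) : W3 →L[ℂ] ℂ :=
  (ContinuousLinearMap.proj j).comp (ContinuousLinearMap.snd ℂ ℂ (Fin 2 → ℂ))

theorem L0_apply (v : W3) : L0 v = v.1 := rfl
theorem L1_apply (j : Fin 2) (v : W3) : L1 j v = v.2 j := rfl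

/-- The multiplier of the Riesz transform in the form used by the problem. -/
noncomputable def mj (j : Fin 2) (ξ : E2) : ℂ :=
  -I * (inner ℝ ξ (EuclideanSpace.single j (1 : ℝ)) : ℂ) / (‖ξ‖ : ℂ)

theorem sig_snd (j : Fin 2) (ξ : E2) : (sig ξ).2 j = mj j ξ := by
  unfold sig mj
  rw [EuclideanSpace.inner_single_right]
  simp only [one_mul]
  push_cast
  simp
  ring

theorem norm_mj_le (j : Fin 2) (ξ : E2) : ‖mj j ξ‖ ≤ 1 := by
  rw [← sig_snd]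
  refine le_trans ?_ (norm_sig_le ξ)
  refine le_trans (norm_le_pi_norm (sig ξ).2 j) ?_
  exact le_max_right _ _

theorem measurable_mj (j : Fin 2) : Measurable (mj j) := by
  unfold mj
  fun_prop

/-- The weak form of the Riesz transform identity. -/
theorem weak_identity {s : 𝓢(E2, W3)} (hs : ∀ ξ, s ξ = (s ξ).1 • sig ξ) (j : Fin 2)
    (ψ : 𝓢(E2, ℂ)) :
    ∫ x, (𝓕⁻ (s.postcompCLM (L1 j)) : 𝓢(E2, ℂ)) x *
      (∫ ξ, Complex.exp (-(2 * (π : ℂ) * I * (inner ℝ x ξ : ℂ))) * ψ ξ) =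
    ∫ x, (𝓕⁻ (s.postcompCLM L0) : 𝓢(E2, ℂ)) x *
      (∫ ξ, Complex.exp (-(2 * (π : ℂ) * I * (inner ℝ x ξ : ℂ))) * (mj j ξ * ψ ξ)) := by
  have hF : ∀ (g : E2 → ℂ) (x : E2),
      ∫ ξ, Complex.exp (-(2 * (π : ℂ) * I * (inner ℝ x ξ : ℂ))) * g ξ = 𝓕 g x := by
    intro g x
    rw [Real.fourier_eq']
    refine integral_congr_ae (Eventually.of_forall fun ξ => ?_)
    simp only [smul_eq_mul]
    rw [real_inner_comm]
    congr 2
    push_cast
    ring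
  simp_rw [hF]
  have hint : Integrable (fun ξ => mj j ξ * ψ ξ) := by
    refine ψ.integrable.norm.mono' ?_ (Eventually.of_forall fun ξ => ?_)
    · exact ((measurable_mj j).mul ψ.continuous.measurable).aestronglyMeasurable
    · rw [norm_mul]
      exact mul_le_of_le_one_left (norm_nonneg _) (norm_mj_le j ξ)
  have hself : ∀ (a : 𝓢(E2, ℂ)) (g : E2 → ℂ), Integrable g →
      ∫ x, (𝓕⁻ a : 𝓢(E2, ℂ)) x * 𝓕 g x = ∫ ξ, a ξ * g ξ := by
    intro a g hg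
    have h := VectorFourier.integral_fourierIntegral_smul_eq_flip (L := innerₗ E2)
      (μ := volume) (ν := volume) Real.continuous_fourierChar continuous_inner
      (𝓕⁻ a : 𝓢(E2, ℂ)).integrable hg
    have h2 : ∀ ξ, (𝓕 (⇑(𝓕⁻ a : 𝓢(E2, ℂ)))) ξ = a ξ := by
      intro ξ
      rw [← SchwartzMap.fourier_coe, FourierTransform.fourier_fourierInv_eq]
    have h3 : ∫ ξ, (𝓕 (⇑(𝓕⁻ a : 𝓢(E2, ℂ)))) ξ • g ξ = ∫ x, (𝓕⁻ a : 𝓢(E2, ℂ)) x • 𝓕 g x := by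
      simpa using! h
    simp_rw [h2] at h3
    simpa [smul_eq_mul] using h3.symm
  rw [hself _ _ ψ.integrable, hself _ _ hint]
  refine integral_congr_ae (Eventually.of_forall fun ξ => ?_)
  simp only [SchwartzMap.postcompCLM_apply, L0_apply, L1_apply]
  have h4 : (s ξ).2 j = (s ξ).1 * mj j ξ := by
    conv_lhs => rw [hs ξ]
    rw [Prod.smul_snd, Pi.smul_apply, smul_eq_mul, sig_snd]
  rw [h4]
  ring

/-- The maximal function of a Schwartz function without low frequencies is rapidly decreasing. -/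
theorem maximal_bound (θ S : 𝓢(E2, ℂ)) (hθ : ∀ ξ, 2 ≤ ‖ξ‖ → θ ξ = 0)
    (hS : ∀ ξ, ‖ξ‖ ≤ 1 / 4 → S ξ = 0) (M : ℕ) :
    ∃ C, 0 ≤ C ∧ ∀ t : ℝ, 0 < t → ∀ x : E2,
      ‖avg (𝓕⁻ S) (𝓕⁻ θ) t x‖ ≤ C * (1 + ‖x‖) ^ (-(M : ℝ)) := by
  obtain ⟨C, hC0, hC⟩ := avg_decay (𝓕⁻ S : 𝓢(E2, ℂ)) (𝓕⁻ θ : 𝓢(E2, ℂ)) M 8
  refine ⟨C, hC0, fun t ht x => ?_⟩
  by_cases ht8 : t ≤ 8
  · exact hC t (by rw [abs_of_pos ht]; exact ht8) x
  · push Not at ht8
    rw [avg_fourierInv]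
    have h0 : ∀ η, 𝐞 (inner ℝ η x) • (S η • θ (t • η)) = 0 := by
      intro η
      by_cases hη : ‖η‖ ≤ 1 / 4
      · rw [hS η hη, zero_smul]
        simp only [smul_zero]
      · push Not at hη
        rw [hθ (t • η) (by
          rw [norm_smul, Real.norm_of_nonneg ht.le]
          nlinarith), smul_zero]
        simp only [smul_zero]
    simp_rw [h0]
    simp only [integral_zero, norm_zero]
    positivity

theorem Ys_mono {R R' : ℝ} (h : R' ≤ R) : Ys R ≤ Ys R' := by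
  rintro s ⟨hs, hs'⟩
  exact ⟨fun ξ hξ => hs ξ (hξ.trans h), hs'⟩

/-- A cut-off function as a Schwartz function. -/
theorem exists_theta : ∃ θ : 𝓢(E2, ℂ), (∀ ξ, ‖ξ‖ ≤ 1 → θ ξ = 1) ∧ ∀ ξ, 2 ≤ ‖ξ‖ → θ ξ = 0 := by
  let θ : ContDiffBump (0 : E2) := ⟨1, 2, by norm_num, by norm_num⟩
  have hθc : HasCompactSupport (fun ξ : E2 => ((θ ξ : ℝ) : ℂ)) :=
    θ.hasCompactSupport.comp_left (g := fun r : ℝ => (r : ℂ)) (by simp)
  have hθs : ContDiff ℝ (⊤ : ℕ∞) (fun ξ : E2 => ((θ ξ : ℝ) : ℂ)) :=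
    Complex.ofRealCLM.contDiff.comp θ.contDiff
  refine ⟨hθc.toSchwartzMap hθs, fun ξ hξ => ?_, fun ξ hξ => ?_⟩
  · change ((θ ξ : ℝ) : ℂ) = 1
    rw [θ.one_of_mem_closedBall (by simpa [θ] using hξ)]
    simp
  · change ((θ ξ : ℝ) : ℂ) = 0
    rw [θ.zero_of_le_dist (by simpa [θ] using hξ)]
    simp

/-- A low-frequency Riesz system. -/
theorem exists_low : ∃ s : 𝓢(E2, W3), s ∈ Ys (1 / 4) ∧ (∀ ξ, 3 / 4 ≤ ‖ξ‖ → s ξ = 0) ∧
    ∃ q, (s q).1 = 1 := by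
  let q : E2 := EuclideanSpace.single 0 (1 / 2 : ℝ)
  have hq : ‖q‖ = 1 / 2 := by
    simp [q]
  let b : ContDiffBump q := ⟨1 / 8, 1 / 4, by norm_num, by norm_num⟩
  have hbc : HasCompactSupport (fun ξ : E2 => ((b ξ : ℝ) : ℂ)) :=
    b.hasCompactSupport.comp_left (g := fun r : ℝ => (r : ℂ)) (by simp)
  have hbs : ContDiff ℝ (⊤ : ℕ∞) (fun ξ : E2 => ((b ξ : ℝ) : ℂ)) :=
    Complex.ofRealCLM.contDiff.comp b.contDiff
  have h0 : ∀ ξ : E2, ‖ξ‖ ≤ 1 / 4 → ((b ξ : ℝ) : ℂ) = 0 := by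
    intro ξ hξ
    rw [b.zero_of_le_dist ?_]
    · simp
    · change 1 / 4 ≤ dist ξ q
      rw [dist_eq_norm]
      have := norm_sub_norm_le q ξ
      rw [norm_sub_rev] at this
      linarith
  have h1 : ∀ ξ : E2, 3 / 4 ≤ ‖ξ‖ → ((b ξ : ℝ) : ℂ) = 0 := by
    intro ξ hξ
    rw [b.zero_of_le_dist ?_]
    · simp
    · change 1 / 4 ≤ dist ξ q
      rw [dist_eq_norm]
      have := norm_sub_norm_le ξ q
      linarith
  have hs : ContDiff ℝ (⊤ : ℕ∞) (fun ξ => ((b ξ : ℝ) : ℂ) • sig ξ) :=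
    contDiff_smul_sig hbs (by norm_num : (0 : ℝ) < 1 / 4) h0
  have hc : HasCompactSupport (fun ξ => ((b ξ : ℝ) : ℂ) • sig ξ) := hbc.smul_right
  refine ⟨hc.toSchwartzMap hs, ⟨fun ξ hξ => ?_, fun ξ => ?_⟩, fun ξ hξ => ?_, q, ?_⟩
  · change ((b ξ : ℝ) : ℂ) • sig ξ = 0
    rw [h0 ξ hξ, zero_smul]
  · change ((b ξ : ℝ) : ℂ) • sig ξ = (((b ξ : ℝ) : ℂ) • sig ξ).1 • sig ξ
    simp [sig]
  · change ((b ξ : ℝ) : ℂ) • sig ξ = 0
    rw [h1 ξ hξ, zero_smul]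
  · change (((b q : ℝ) : ℂ) • sig q).1 = 1
    rw [b.one_of_mem_closedBall (by simp [b])]
    simp [sig]

theorem Np_schwartz_ne_top {p : ℝ} (hp : 0 < p) (s : 𝓢(E2, W3)) : Np volume p s ≠ ⊤ := by
  have h := s.eLpNorm_lt_top (ENNReal.ofReal p) volume
  rw [eLpNorm_lt_top_iff_lintegral_rpow_enorm_lt_top (by simpa using hp)
    ENNReal.ofReal_ne_top, ENNReal.toReal_ofReal hp.le] at h
  exact h.ne

/-- **The main step**: the two-sided estimate fails for `n = 2` and every small exponent. -/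
theorem estimate_fails {p : ℝ} (hp : 0 < p) (hp0 : p < p₀) :
    ∃ φ : 𝓢(E2, ℂ), ∫ x, φ x = 1 ∧ ∀ c : ℝ, 0 < c →
      ∃ f : 𝓢(E2, ℂ), ∃ Rf : Fin 2 → 𝓢(E2, ℂ),
        eLpNorm (fun x : E2 => ⨆ (t : ℝ) (_ : 0 < t),
          ‖∫ y, (((t ^ 2)⁻¹ : ℝ) : ℂ) * φ (t⁻¹ • (x - y)) * f y‖ₑ) (ENNReal.ofReal p) volume < ⊤ ∧
        (∀ (j : Fin 2) (ψ : 𝓢(E2, ℂ)),
          ∫ x, Rf j x * (∫ ξ, Complex.exp (-(2 * (π : ℂ) * I * (inner ℝ x ξ : ℂ))) * ψ ξ)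
          = ∫ x, f x * (∫ ξ, Complex.exp (-(2 * (π : ℂ) * I * (inner ℝ x ξ : ℂ)))
              * ((-I * (inner ℝ ξ (EuclideanSpace.single j (1 : ℝ)) : ℂ) / (‖ξ‖ : ℂ)) * ψ ξ))) ∧
        eLpNorm f (ENNReal.ofReal p) volume + ∑ j, eLpNorm (Rf j) (ENNReal.ofReal p) volume <
          ENNReal.ofReal c * eLpNorm (fun x : E2 => ⨆ (t : ℝ) (_ : 0 < t),
            ‖∫ y, (((t ^ 2)⁻¹ : ℝ) : ℂ) * φ (t⁻¹ • (x - y)) * f y‖ₑ)
            (ENNReal.ofReal p) volume := by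
  obtain ⟨θ, hθ1, hθ2⟩ := exists_theta
  obtain ⟨s₀, hs₀, hs₀', q, hq⟩ := exists_low
  set P := ENNReal.ofReal p with hP
  have hP0 : P ≠ 0 := by simpa [hP] using hp
  have hPt : P ≠ ⊤ := ENNReal.ofReal_ne_top
  have hPr : P.toReal = p := ENNReal.toReal_ofReal hp.le
  refine ⟨𝓕⁻ θ, ?_, fun c hc => ?_⟩
  · rw [integral_fourierInv, hθ1 0 (by simp)]
  -- the low-frequency function is not zero
  set f₀ : 𝓢(E2, ℂ) := 𝓕⁻ (s₀.postcompCLM L0) with hf₀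
  have hf₀ne : eLpNorm f₀ P volume ≠ 0 := by
    intro h0
    rw [eLpNorm_eq_zero_iff f₀.continuous.aestronglyMeasurable hP0] at h0
    have h1 : (f₀ : E2 → ℂ) = 0 :=
      (Continuous.ae_eq_iff_eq volume f₀.continuous continuous_zero).1 h0
    have h2 : f₀ = 0 := by
      ext x
      exact congrFun h1 x
    have h3 : s₀.postcompCLM L0 = 0 := by
      have h4 : 𝓕 f₀ = s₀.postcompCLM L0 := by
        rw [hf₀, FourierTransform.fourier_fourierInv_eq]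
      rw [← h4, h2, FourierTransform.fourier_zero]
    have h5 : (s₀.postcompCLM L0 : 𝓢(E2, ℂ)) q = 0 := by
      rw [h3]; rfl
    rw [SchwartzMap.postcompCLM_apply, L0_apply, hq] at h5
    exact one_ne_zero h5
  have hf₀t : eLpNorm f₀ P volume ≠ ⊤ := (f₀.eLpNorm_lt_top P volume).ne
  -- the size of the error
  set Λ : ℝ≥0∞ := ENNReal.ofReal c * eLpNorm f₀ P volume with hΛ
  have hΛ0 : Λ ≠ 0 := mul_ne_zero (by simpa using hc) hf₀ne
  have hΛt : Λ ≠ ⊤ := ENNReal.mul_ne_top ENNReal.ofReal_ne_top hf₀t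
  set δ : ℝ≥0∞ := (Λ / 4) ^ p with hδ
  have hΛ4 : Λ / 4 ≠ 0 := ENNReal.div_ne_zero.2 ⟨hΛ0, by norm_num⟩
  have hΛ4t : Λ / 4 ≠ ⊤ := ENNReal.div_ne_top hΛt (by norm_num)
  have hδ0 : 0 < δ := ENNReal.rpow_pos (pos_iff_ne_zero.2 hΛ4) hΛ4t
  have hδp : δ ^ (1 / p) = Λ / 4 := by
    rw [hδ, ← ENNReal.rpow_mul, mul_one_div_cancel hp.ne', ENNReal.rpow_one]
  have hD : Dp volume (Yf 2) p (𝓕⁻ s₀ : 𝓢(E2, W3)) = 0 :=
    Dp_eq_zero (by norm_num) hp hp0 (𝓕⁻ s₀ : 𝓢(E2, W3)).continuous.measurable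
      (Np_schwartz_ne_top hp _)
  have hD' : Dp volume (Yf 2) p (𝓕⁻ s₀ : 𝓢(E2, W3)) < δ := by rw [hD]; exact hδ0
  unfold Dp at hD'
  simp only [iInf_lt_iff] at hD'
  obtain ⟨F, hF, hFδ⟩ := hD'
  obtain ⟨s, hs, rfl⟩ := hF
  set S : 𝓢(E2, W3) := s₀ - s with hS
  have hSmem : S ∈ Ys (1 / 4) := Submodule.sub_mem _ hs₀ (Ys_mono (by norm_num) hs)
  have hSinv : ((𝓕⁻ s₀ : 𝓢(E2, W3)) : E2 → W3) - invL s = (𝓕⁻ S : 𝓢(E2, W3)) := by
    have h1 : ((𝓕⁻ s₀ : 𝓢(E2, W3)) : E2 → W3) = invL s₀ := rfl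
    have h2 : ((𝓕⁻ S : 𝓢(E2, W3)) : E2 → W3) = invL S := rfl
    rw [h1, h2, hS, map_sub]
  rw [hSinv] at hFδ
  have hGnorm : eLpNorm (𝓕⁻ S : 𝓢(E2, W3)) P volume < Λ / 4 := by
    rw [eLpNorm_eq_lintegral_rpow_enorm_toReal hP0 hPt, hPr, ← hδp]
    exact ENNReal.rpow_lt_rpow hFδ (by positivity)
  have hcomp : ∀ L : W3 →L[ℂ] ℂ, (∀ v, ‖L v‖ ≤ ‖v‖) →
      eLpNorm (𝓕⁻ (S.postcompCLM L) : 𝓢(E2, ℂ)) P volume < Λ / 4 := by
    intro L hL
    refine lt_of_le_of_lt ?_ hGnorm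
    refine eLpNorm_mono fun x => ?_
    rw [← clm_fourierInv]
    exact hL _
  refine ⟨𝓕⁻ (S.postcompCLM L0), fun j => 𝓕⁻ (S.postcompCLM (L1 j)), ?_, ?_, ?_⟩
  · -- finiteness of the maximal function
    obtain ⟨M, hM⟩ := exists_nat_mul_gt hp
    obtain ⟨C, hC0, hC⟩ := maximal_bound θ (S.postcompCLM L0) hθ2 (fun ξ hξ => by
      rw [SchwartzMap.postcompCLM_apply, hSmem.1 ξ hξ, map_zero]) M
    rw [eLpNorm_lt_top_iff_lintegral_rpow_enorm_lt_top hP0 hPt, hPr]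
    refine lt_of_le_of_lt ?_ (lt_top_iff_ne_top.2 (lintegral_decay_ne_top hp hM hC0))
    refine lintegral_mono fun x => ENNReal.rpow_le_rpow ?_ hp.le
    change (⨆ (t : ℝ) (_ : 0 < t), _) ≤ _
    refine iSup₂_le fun t ht => ?_
    rw [conv_eq_avg _ _ ht, ← ofReal_norm]
    exact ENNReal.ofReal_le_ofReal (hC t ht x)
  · intro j ψ
    exact weak_identity hSmem.2 j ψ
  · -- the failure of the lower bound
    have hlow : eLpNorm f₀ P volume ≤ eLpNorm (fun x : E2 => ⨆ (t : ℝ) (_ : 0 < t),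
        ‖∫ y, (((t ^ 2)⁻¹ : ℝ) : ℂ) * (𝓕⁻ θ : 𝓢(E2, ℂ)) (t⁻¹ • (x - y)) *
          (𝓕⁻ (S.postcompCLM L0) : 𝓢(E2, ℂ)) y‖ₑ) P volume := by
      refine eLpNorm_mono_enorm fun x => ?_
      change _ ≤ (⨆ (t : ℝ) (_ : 0 < t), _)
      refine le_iSup₂_of_le 1 one_pos ?_
      rw [conv_eq_avg _ _ one_pos, avg_fourierInv]
      refine le_of_eq ?_
      congr 1
      rw [hf₀, SchwartzMap.fourierInv_coe, Real.fourierInv_eq]
      refine integral_congr_ae (Eventually.of_forall fun η => ?_)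
      simp only [one_smul, SchwartzMap.postcompCLM_apply, L0_apply]
      congr 1
      have hS0 : (S η).1 = (s₀ η).1 - (s η).1 := by
        rw [hS]; rfl
      rw [hS0]
      by_cases h1 : ‖η‖ ≤ 1
      · rw [hθ1 η h1, hs.1 η (by linarith)]
        simp
      · push Not at h1
        rw [hs₀' η (by linarith)]
        by_cases h2 : ‖η‖ ≤ 2
        · rw [hs.1 η h2]
          simp
        · push Not at h2
          rw [hθ2 η h2.le]
          simp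
    have h1 := hcomp L0 (fun v => by rw [L0_apply]; exact norm_fst_le v)
    have h2 : ∀ j, eLpNorm (𝓕⁻ (S.postcompCLM (L1 j)) : 𝓢(E2, ℂ)) P volume < Λ / 4 := fun j =>
      hcomp (L1 j) (fun v => by
        rw [L1_apply]
        exact (norm_le_pi_norm v.2 j).trans (norm_snd_le v))
    calc eLpNorm (𝓕⁻ (S.postcompCLM L0) : 𝓢(E2, ℂ)) P volume +
          ∑ j, eLpNorm (𝓕⁻ (S.postcompCLM (L1 j)) : 𝓢(E2, ℂ)) P volume
        ≤ Λ / 4 + ∑ _j : Fin 2, Λ / 4 := by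
          gcongr with j _
          exact (h2 j).le
      _ < Λ := by
          rw [Finset.sum_const, Finset.card_univ, Fintype.card_fin, two_nsmul]
          have h3 : Λ = Λ / 4 + (Λ / 4 + Λ / 4) + Λ / 4 := by
            have h4 : Λ / 4 + (Λ / 4 + Λ / 4) + Λ / 4 = 4 * (Λ / 4) := by ring
            rw [h4, ENNReal.mul_div_cancel (by norm_num) (by norm_num)]
          conv_rhs => rw [h3]
          exact ENNReal.lt_add_right
            (ENNReal.add_ne_top.2 ⟨hΛ4t, ENNReal.add_ne_top.2 ⟨hΛ4t, hΛ4t⟩⟩) hΛ4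
      _ ≤ _ := by
          rw [hΛ]
          gcongr

end Pool.Agent.Helper826_Riesz
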